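import Mathlib

/-!
MP_418075_nt.  Elementary congruences: a small prime quadratic residue, powers covering a
progression modulo prime powers, odd exponents.
-/

set_option autoImplicit false

namespace Pool.Agent.Helper68.CO2

/-- a small prime quadratic residue -/
theorem exists_residue {p : ℕ} [hp : Fact p.Prime] (h7 : 7 ≤ p) :
    ∃ q : ℕ, q.Prime ∧ q < p ∧ IsSquare (q : ZMod p) := by
  have hodd : p % 2 = 1 := by
    rcases hp.out.eq_two_or_odd with h | h
    · omega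
    · exact h
  have h4 : p % 4 = 1 ∨ p % 4 = 3 := by omega
  rcases h4 with h4 | h4
  · -- a prime factor of `p - 4`
    have hne : p - 4 ≠ 1 := by omega
    obtain ⟨q, hq, hqd⟩ := Nat.exists_prime_and_dvd hne
    have hle : q ≤ p - 4 := Nat.le_of_dvd (by omega) hqd
    have hq2 : q ≠ 2 := by
      rintro rfl
      omega
    have : Fact q.Prime := ⟨hq⟩
    refine ⟨q, hq, by omega, ?_⟩
    rw [ZMod.exists_sq_eq_prime_iff_of_mod_four_eq_one h4 hq2]
    have h1 : ((p - 4 : ℕ) : ZMod q) = 0 := (ZMod.natCast_eq_zero_iff _ _).2 hqd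
    rw [Nat.cast_sub (by omega)] at h1
    have h2 : (p : ZMod q) = 2 * 2 := by
      have h3 := sub_eq_zero.1 h1
      rw [h3]
      norm_num
    exact ⟨2, h2⟩
  · -- a prime factor of `(p + 1) / 4`
    have hne : (p + 1) / 4 ≠ 1 := by omega
    obtain ⟨q, hq, hqd⟩ := Nat.exists_prime_and_dvd hne
    have hle : q ≤ (p + 1) / 4 := Nat.le_of_dvd (by omega) hqd
    have hqd' : q ∣ p + 1 := by
      have : (p + 1) = 4 * ((p + 1) / 4) := by omega
      rw [this]
      exact Dvd.dvd.mul_left hqd 4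
    refine ⟨q, hq, by omega, ?_⟩
    by_cases hq2 : q = 2
    · subst hq2
      have h8 : p % 8 = 7 := by omega
      have := (ZMod.exists_sq_eq_two_iff (p := p) (by omega)).2 (Or.inr h8)
      exact_mod_cast this
    · have : Fact q.Prime := ⟨hq⟩
      have h1 : ((p + 1 : ℕ) : ZMod q) = 0 := (ZMod.natCast_eq_zero_iff _ _).2 hqd'
      rw [Nat.cast_add, Nat.cast_one] at h1
      have h2 : (p : ZMod q) = -1 := by linear_combination h1
      have hqodd : q % 2 = 1 := by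
        rcases hq.eq_two_or_odd with h | h
        · exact absurd h hq2
        · exact h
      have hq4 : q % 4 = 1 ∨ q % 4 = 3 := by omega
      rcases hq4 with hq4 | hq4
      · have hp2 : p ≠ 2 := by omega
        rw [← ZMod.exists_sq_eq_prime_iff_of_mod_four_eq_one hq4 hp2, h2]
        rw [ZMod.exists_sq_eq_neg_one_iff]
        omega
      · rw [ZMod.exists_sq_eq_prime_iff_of_mod_four_eq_three h4 hq4 (by omega), h2,
          ZMod.exists_sq_eq_neg_one_iff]
        omega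

theorem one_add_pow_expand (X : ℤ) (j : ℕ) : ∃ W : ℤ, (1 + X) ^ j = 1 + j * X + X ^ 2 * W := by
  induction j with
  | zero => exact ⟨0, by simp⟩
  | succ j ih =>
    obtain ⟨W, hW⟩ := ih
    refine ⟨j + W + X * W, ?_⟩
    rw [pow_succ, hW]
    push_cast
    ring

/-- powers of `b` cover the progression of `a` -/
theorem cover {p : ℕ} (hp : p.Prime) {M a b : ℤ} (hM : (p : ℤ) ∣ M) (hb : (p : ℤ) ∣ b - 1)
    (ha : M ∣ 1 - a)
    (hZ : ∀ s : ℕ, ∃ t : ℤ, b ^ (p ^ s) = 1 + M * (p : ℤ) ^ s * t ∧ ¬ (p : ℤ) ∣ t) :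
    ∀ s : ℕ, ∃ i : ℕ, M * (p : ℤ) ^ s ∣ b ^ i - a := by
  have : Fact p.Prime := ⟨hp⟩
  intro s
  induction s with
  | zero => exact ⟨0, by simpa using ha⟩
  | succ s ih =>
    obtain ⟨i, c, hc⟩ := ih
    obtain ⟨t, ht, htp⟩ := hZ s
    -- choose the multiplier
    have htz : (t : ZMod p) ≠ 0 := by
      intro h
      exact htp ((ZMod.intCast_zmod_eq_zero_iff_dvd t p).1 h)
    obtain ⟨j, hj⟩ : ∃ j : ℕ, (p : ℤ) ∣ c + j * t := by
      refine ⟨(-(c : ZMod p) * (t : ZMod p)⁻¹).val, ?_⟩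
      rw [← ZMod.intCast_zmod_eq_zero_iff_dvd]
      push_cast
      rw [ZMod.natCast_zmod_val, mul_assoc, inv_mul_cancel₀ htz]
      ring
    obtain ⟨W, hW⟩ := one_add_pow_expand (M * (p : ℤ) ^ s * t) j
    have hbi : (p : ℤ) ∣ b ^ i - 1 := by
      have h1 : b - 1 ∣ b ^ i - 1 := by
        have := sub_dvd_pow_sub_pow b 1 i
        rwa [one_pow] at this
      exact hb.trans h1
    refine ⟨i + j * p ^ s, ?_⟩
    have h2 : b ^ (i + j * p ^ s) - a = M * (p : ℤ) ^ s *
        ((c + j * t) + (b ^ i - 1) * (j * t) + b ^ i * (M * ((p : ℤ) ^ s * t ^ 2 * W))) := by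
      rw [pow_add, mul_comm j, pow_mul, ht, hW]
      linear_combination hc
    rw [h2, pow_succ, ← mul_assoc]
    refine mul_dvd_mul_left _ ?_
    refine dvd_add (dvd_add hj (Dvd.dvd.mul_right hbi _)) ?_
    exact Dvd.dvd.mul_left (Dvd.dvd.mul_right hM _) _

theorem cover_two (s : ℕ) : ∃ i : ℕ, (8 * 2 ^ s : ℤ) ∣ 9 ^ i - 17 := by
  have h := cover (p := 2) Nat.prime_two (M := 8) (a := 17) (b := 9) (by norm_num) (by norm_num)
    (by norm_num) ?_ s
  · exact_mod_cast h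
  · intro s
    induction s with
    | zero => exact ⟨1, by norm_num, by norm_num⟩
    | succ s ih =>
      obtain ⟨t, ht, htp⟩ := ih
      refine ⟨t + 4 * 2 ^ s * t ^ 2, ?_, ?_⟩
      · rw [pow_succ 2 s, pow_mul, ht]
        push_cast
        ring
      · intro h
        apply htp
        have h1 : ((2 : ℕ) : ℤ) ∣ 4 * 2 ^ s * t ^ 2 :=
          Dvd.dvd.mul_right (Dvd.dvd.mul_right (by norm_num) _) _
        exact (dvd_add_left h1).1 h

theorem cover_three (s : ℕ) : ∃ i : ℕ, (3 * 3 ^ s : ℤ) ∣ 4 ^ i - 7 := by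
  have h := cover (p := 3) Nat.prime_three (M := 3) (a := 7) (b := 4) (by norm_num) (by norm_num)
    (by norm_num) ?_ s
  · exact_mod_cast h
  · intro s
    induction s with
    | zero => exact ⟨1, by norm_num, by norm_num⟩
    | succ s ih =>
      obtain ⟨t, ht, htp⟩ := ih
      refine ⟨t + 3 * (3 ^ s * t ^ 2 + 3 ^ s * 3 ^ s * t ^ 3), ?_, ?_⟩
      · rw [pow_succ 3 s, pow_mul, ht]
        push_cast
        ring
      · intro h
        apply htp
        have h1 : ((3 : ℕ) : ℤ) ∣ 3 * (3 ^ s * t ^ 2 + 3 ^ s * 3 ^ s * t ^ 3) :=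
          Dvd.dvd.mul_right (by norm_num) _
        exact (dvd_add_left h1).1 h

theorem cover_five (s : ℕ) : ∃ i : ℕ, (5 * 5 ^ s : ℤ) ∣ 16 ^ i - 11 := by
  have h := cover (p := 5) Nat.prime_five (M := 5) (a := 11) (b := 16) (by norm_num) (by norm_num)
    (by norm_num) ?_ s
  · exact_mod_cast h
  · intro s
    induction s with
    | zero => exact ⟨3, by norm_num, by norm_num⟩
    | succ s ih =>
      obtain ⟨t, ht, htp⟩ := ih
      refine ⟨t + 5 * (2 * 5 ^ s * t ^ 2 + 10 * (5 ^ s) ^ 2 * t ^ 3 + 25 * (5 ^ s) ^ 3 * t ^ 4 +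
        25 * (5 ^ s) ^ 4 * t ^ 5), ?_, ?_⟩
      · rw [pow_succ 5 s, pow_mul, ht]
        push_cast
        ring
      · intro h
        apply htp
        have h1 : ((5 : ℕ) : ℤ) ∣ 5 * (2 * 5 ^ s * t ^ 2 + 10 * (5 ^ s) ^ 2 * t ^ 3 +
            25 * (5 ^ s) ^ 3 * t ^ 4 + 25 * (5 ^ s) ^ 4 * t ^ 5) :=
          Dvd.dvd.mul_right (by norm_num) _
        exact (dvd_add_left h1).1 h

/-- an odd exponent -/
theorem exists_odd_exp {n q : ℕ} (hn : n ≠ 0) (hq : 0 < q)
    (h : ∀ l : ℕ, l.Prime → l ∣ n → l % 4 = 3 ∧ IsSquare (q : ZMod l) ∧ ¬ l ∣ q) :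
    ∃ I : ℕ, Odd I ∧ n ∣ q ^ I - 1 := by
  refine ⟨n * ∏ l ∈ n.primeFactors, l / 2, ?_, ?_⟩
  · refine Odd.mul ?_ ?_
    · rw [← Nat.not_even_iff_odd]
      intro he
      have := (h 2 Nat.prime_two he.two_dvd).1
      omega
    · refine Finset.prod_induction _ Odd (fun a b ha hb => Odd.mul ha hb) odd_one ?_
      intro l hl
      rw [Nat.mem_primeFactors] at hl
      have := (h l hl.1 hl.2.1).1
      rw [Nat.odd_iff]
      omega
  · rw [Nat.dvd_iff_prime_pow_dvd_dvd]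
    intro l e hl hle
    rcases Nat.eq_zero_or_pos e with he | he
    · rw [he, pow_zero]
      exact one_dvd _
    · have hln : l ∣ n := (dvd_pow_self l he.ne').trans hle
      obtain ⟨h1, h2, h3⟩ := h l hl hln
      have : Fact l.Prime := ⟨hl⟩
      have hq0 : (q : ZMod l) ≠ 0 := by
        rw [Ne, ZMod.natCast_eq_zero_iff]
        exact h3
      have h4 := (ZMod.euler_criterion l hq0).1 h2
      have h5 : (l : ℤ) ∣ (q : ℤ) ^ (l / 2) - 1 := by
        rw [← ZMod.intCast_zmod_eq_zero_iff_dvd]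
        push_cast
        rw [h4, sub_self]
      obtain ⟨e', rfl⟩ : ∃ e', e = e' + 1 := ⟨e - 1, by omega⟩
      have h6 := dvd_sub_pow_of_dvd_sub h5 e'
      rw [one_pow, ← pow_mul] at h6
      have h7 : l ^ e' ∣ n := (pow_dvd_pow l (Nat.le_succ e')).trans hle
      have h8 : l / 2 ∣ ∏ l ∈ n.primeFactors, l / 2 :=
        Finset.dvd_prod_of_mem (fun l => l / 2) (Nat.mem_primeFactors.2 ⟨hl, hln, hn⟩)
      obtain ⟨w, hw⟩ : (l / 2) * l ^ e' ∣ n * ∏ l ∈ n.primeFactors, l / 2 := by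
        rw [mul_comm (l / 2)]
        exact mul_dvd_mul h7 h8
      rw [hw, ← Int.natCast_dvd_natCast, Nat.cast_sub (Nat.one_le_pow _ _ hq)]
      push_cast
      refine h6.trans ?_
      rw [pow_mul (q : ℤ) _ w]
      have h9 := sub_dvd_pow_sub_pow ((q : ℤ) ^ (l / 2 * l ^ e')) 1 w
      rwa [one_pow] at h9

end Pool.Agent.Helper68.CO2
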