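import Mathlib

/-!
MP_418075_nt.  Rigidity of completely multiplicative functions modulo `n`.

`f : ℕ → A` is completely multiplicative with values in a commutative group, `n > 1`.  The
stabilizer `HH` is the subgroup of those units `h` modulo `n` with `f (h u mod n) = f (h) f (u)` for
all units `u`.  If `f (a + n) = f a` for all `a < n` prime to `n`, or if `f (n - a) = c * f a` for
these `a`, then the stabilizer contains every positive integer below the smallest prime factor
of `n`.
-/

set_option autoImplicit false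

namespace Pool.Agent.Helper68.CO2

variable {A : Type*} [CommGroup A]

/-- complete multiplicativity on the positive integers -/
def CM (f : ℕ → A) : Prop := ∀ a b : ℕ, a ≠ 0 → b ≠ 0 → f (a * b) = f a * f b

/-- the value of `f` at the least positive residue of a unit -/
def FF (n : ℕ) (f : ℕ → A) (u : (ZMod n)ˣ) : A := f (u : ZMod n).val

/-- the unit of a natural number prime to `n` -/
noncomputable def U (n d : ℕ) : (ZMod n)ˣ :=
  if h : Nat.Coprime d n then ZMod.unitOfCoprime d h else 1

theorem coe_U {n d : ℕ} (h : Nat.Coprime d n) : ((U n d : (ZMod n)ˣ) : ZMod n) = (d : ZMod n) := by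
  unfold U
  rw [dif_pos h, ZMod.coe_unitOfCoprime]

theorem cm_one {f : ℕ → A} (hf : CM f) : f 1 = 1 := by
  have h := hf 1 1 one_ne_zero one_ne_zero
  rw [mul_one] at h
  exact (mul_eq_left.1 h.symm)

theorem FF_one {n : ℕ} [Fact (1 < n)] {f : ℕ → A} (hf : CM f) : FF n f 1 = 1 := by
  unfold FF
  rw [Units.val_one, ZMod.val_one, cm_one hf]

theorem FF_U {n d : ℕ} (f : ℕ → A) (h : Nat.Coprime d n) (hd : d < n) : FF n f (U n d) = f d := by
  unfold FF
  rw [coe_U h, ZMod.val_natCast_of_lt hd]

/-- the stabilizer -/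
def HH (n : ℕ) [Fact (1 < n)] (f : ℕ → A) (hf : CM f) : Subgroup (ZMod n)ˣ where
  carrier := {h | ∀ u, FF n f (h * u) = FF n f h * FF n f u}
  one_mem' := by
    intro u
    rw [one_mul, FF_one hf, one_mul]
  mul_mem' := by
    intro a b ha hb u
    have ha' : ∀ u, FF n f (a * u) = FF n f a * FF n f u := ha
    have hb' : ∀ u, FF n f (b * u) = FF n f b * FF n f u := hb
    rw [mul_assoc, ha', hb', ha', mul_assoc]
  inv_mem' := by
    intro a ha u
    have ha' : ∀ u, FF n f (a * u) = FF n f a * FF n f u := ha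
    have h1 := ha' (a⁻¹ * u)
    have h2 := ha' a⁻¹
    rw [mul_inv_cancel_left] at h1
    rw [mul_inv_cancel, FF_one hf] at h2
    rw [h1, ← mul_assoc, mul_comm (FF n f a⁻¹), ← h2, one_mul]

theorem mem_HH {n : ℕ} [Fact (1 < n)] {f : ℕ → A} {hf : CM f} {h : (ZMod n)ˣ} :
    h ∈ HH n f hf ↔ ∀ u, FF n f (h * u) = FF n f h * FF n f u := Iff.rfl

/-- `f` is a homomorphism on its stabilizer -/
theorem FF_pow {n : ℕ} [Fact (1 < n)] {f : ℕ → A} (hf : CM f) {h : (ZMod n)ˣ}
    (hh : h ∈ HH n f hf) (i : ℕ) : FF n f (h ^ i) = FF n f h ^ i := by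
  induction i with
  | zero => rw [pow_zero, pow_zero, FF_one hf]
  | succ i ih => rw [pow_succ', mem_HH.1 hh, ih, pow_succ']

theorem val_pos {n : ℕ} [hn : Fact (1 < n)] (u : (ZMod n)ˣ) : 0 < (u : ZMod n).val := by
  rw [Nat.pos_iff_ne_zero, Ne, ZMod.val_eq_zero]
  exact u.ne_zero

theorem val_coprime {n : ℕ} (u : (ZMod n)ˣ) : Nat.Coprime (u : ZMod n).val n :=
  ZMod.val_coe_unit_coprime u

theorem val_lt {n : ℕ} [hn : Fact (1 < n)] (u : (ZMod n)ˣ) : (u : ZMod n).val < n := by
  have : NeZero n := ⟨by have := hn.out; omega⟩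
  exact ZMod.val_lt _

/-- the value of `d * u` when `d * u.val < n` -/
theorem val_small {n : ℕ} [hn : Fact (1 < n)] {d : ℕ} (hd : Nat.Coprime d n) (u : (ZMod n)ˣ)
    (h : d * (u : ZMod n).val < n) : ((U n d * u : (ZMod n)ˣ) : ZMod n).val = d * (u : ZMod n).val := by
  have : NeZero n := ⟨by have := hn.out; omega⟩
  have h1 : ((U n d * u : (ZMod n)ˣ) : ZMod n) = ((d * (u : ZMod n).val : ℕ) : ZMod n) := by
    rw [Units.val_mul, coe_U hd, Nat.cast_mul, ZMod.natCast_zmod_val]
  rw [h1, ZMod.val_natCast_of_lt h]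

/-- the value of `d * u` when `n ≤ d * u.val < 2 n` -/
theorem val_wrap {n : ℕ} [hn : Fact (1 < n)] {d : ℕ} (hd : Nat.Coprime d n) (u : (ZMod n)ˣ)
    (h : n ≤ d * (u : ZMod n).val) (h' : d * (u : ZMod n).val < 2 * n) :
    ((U n d * u : (ZMod n)ˣ) : ZMod n).val = d * (u : ZMod n).val - n := by
  have : NeZero n := ⟨by have := hn.out; omega⟩
  have h1 : ((U n d * u : (ZMod n)ˣ) : ZMod n) = ((d * (u : ZMod n).val - n : ℕ) : ZMod n) := by
    rw [Units.val_mul, coe_U hd, Nat.cast_sub h, Nat.cast_mul, ZMod.natCast_zmod_val,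
      ZMod.natCast_self, sub_zero]
  rw [h1, ZMod.val_natCast_of_lt (by omega)]

/-- multiplicativity when there is no reduction -/
theorem FF_small {n : ℕ} [hn : Fact (1 < n)] {f : ℕ → A} (hf : CM f) {d : ℕ} (hd0 : 0 < d)
    (hd : Nat.Coprime d n) (u : (ZMod n)ˣ) (h : d * (u : ZMod n).val < n) :
    FF n f (U n d * u) = f d * FF n f u := by
  unfold FF
  rw [val_small hd u h, hf _ _ hd0.ne' (val_pos u).ne']

/-- descent: every unit is moved below `n / D` by an element of the stabilizer -/
theorem descent {n : ℕ} [hn : Fact (1 < n)] {f : ℕ → A} (hf : CM f) (D : ℕ)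
    (hc : ∀ d, 0 < d → d ≤ D → Nat.Coprime d n)
    (hg : ∀ d, 0 < d → d ≤ D → U n d ∈ HH n f hf) :
    ∀ (a : ℕ) (u : (ZMod n)ˣ), (u : ZMod n).val = a →
      ∃ h ∈ HH n f hf, ((h * u : (ZMod n)ˣ) : ZMod n).val * D < n := by
  intro a
  induction a using Nat.strong_induction_on with
  | _ a ih =>
    intro u hua
    have ha : 0 < a := by rw [← hua]; exact val_pos u
    have hap : a < n := by rw [← hua]; exact val_lt u
    by_cases hs : a * D < n
    · exact ⟨1, one_mem _, by rw [one_mul, hua]; exact hs⟩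
    · push Not at hs
      obtain ⟨q, hq⟩ : ∃ q, q = (n + a - 1) / a := ⟨_, rfl⟩
      have hq1 : n ≤ q * a := by
        have h1 := Nat.div_add_mod (n + a - 1) a
        have h2 := Nat.mod_lt (n + a - 1) ha
        rw [← hq] at h1
        have h3 : q * a = a * q := mul_comm _ _
        omega
      have hq2 : q * a < n + a := by
        have h1 := Nat.div_mul_le_self (n + a - 1) a
        rw [← hq] at h1
        omega
      have hq0 : 0 < q := by
        rcases Nat.eq_zero_or_pos q with h | h
        · rw [h, zero_mul] at hq1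
          omega
        · exact h
      have hqD : q ≤ D := by
        by_contra hlt
        push Not at hlt
        have h1 : (D + 1) * a ≤ q * a := Nat.mul_le_mul_right a hlt
        have h2 : (D + 1) * a = a * D + a := by ring
        omega
      have hv : ((U n q * u : (ZMod n)ˣ) : ZMod n).val = q * a - n := by
        rw [← hua]
        exact val_wrap (hc q hq0 hqD) u (by rw [hua]; exact hq1) (by rw [hua]; omega)
      obtain ⟨h, h1, h2⟩ := ih (q * a - n) (by omega) (U n q * u) hv
      exact ⟨h * U n q, mul_mem h1 (hg q hq0 hqD), by rw [mul_assoc]; exact h2⟩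

/-- transport along the stabilizer -/
theorem transport {n : ℕ} [hn : Fact (1 < n)] {f : ℕ → A} (hf : CM f) {d h u : (ZMod n)ˣ} {a : A}
    (hh : h ∈ HH n f hf) (hy : FF n f (d * (h * u)) = a * FF n f (h * u)) :
    FF n f (d * u) = a * FF n f u := by
  rw [mul_left_comm, mem_HH.1 hh, mem_HH.1 hh, mul_left_comm a] at hy
  exact mul_left_cancel hy

theorem all_good {n : ℕ} [hn : Fact (1 < n)] {f : ℕ → A} (hf : CM f) (P : ℕ) (hPn : P ≤ n)
    (hc : ∀ d, 0 < d → d < P → Nat.Coprime d n)
    (hstep : ∀ (D : ℕ), 0 < D → D + 1 < P → (∀ d, 0 < d → d ≤ D → U n d ∈ HH n f hf) →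
      ∀ u : (ZMod n)ˣ, (u : ZMod n).val * D < n →
        FF n f (U n (D + 1) * u) = f (D + 1) * FF n f u) :
    ∀ d, 0 < d → d < P → U n d ∈ HH n f hf := by
  intro d
  induction d using Nat.strong_induction_on with
  | _ d ih =>
    intro h0 h1
    rcases Nat.lt_or_ge 1 d with h2 | h2
    · obtain ⟨D, rfl⟩ : ∃ D, d = D + 1 := ⟨d - 1, by omega⟩
      have hg : ∀ e, 0 < e → e ≤ D → U n e ∈ HH n f hf := fun e he he' =>
        ih e (by omega) he (by omega)
      rw [mem_HH]
      intro u
      rw [FF_U f (hc _ h0 h1) (by omega)]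
      obtain ⟨h, e1, e2⟩ := descent hf D (fun e he he' => hc e he (by omega)) hg _ u rfl
      exact transport hf e1 (hstep D (by omega) h1 hg _ e2)
    · have h3 : d = 1 := by omega
      have h4 : U n d = 1 := by
        apply Units.ext
        rw [coe_U (hc d h0 h1), h3, Nat.cast_one, Units.val_one]
      rw [h4]
      exact one_mem _

/-- rigidity, periodic form -/
theorem good_of_periodic {n : ℕ} [hn : Fact (1 < n)] {f : ℕ → A} (hf : CM f) (P : ℕ) (hPn : P ≤ n)
    (hc : ∀ d, 0 < d → d < P → Nat.Coprime d n)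
    (hper : ∀ a, 0 < a → a < n → Nat.Coprime a n → f (a + n) = f a) :
    ∀ d, 0 < d → d < P → U n d ∈ HH n f hf := by
  apply all_good hf P hPn hc
  intro D hD hD1 _ u huD
  have hu0 := val_pos u
  have hun := val_lt u
  have hlt : (D + 1) * (u : ZMod n).val < 2 * n := by
    have : (D + 1) * (u : ZMod n).val = (u : ZMod n).val * D + (u : ZMod n).val := by ring
    omega
  rcases Nat.lt_or_ge ((D + 1) * (u : ZMod n).val) n with h | h
  · exact FF_small hf (by omega) (hc _ (by omega) hD1) u h
  · have hv := val_wrap (hc (D + 1) (by omega) hD1) u h hlt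
    have hpos := val_pos (U n (D + 1) * u)
    have hcop := val_coprime (U n (D + 1) * u)
    unfold FF
    rw [hv] at hpos hcop ⊢
    have h1 := hper ((D + 1) * (u : ZMod n).val - n) hpos (by omega) hcop
    rw [Nat.sub_add_cancel h] at h1
    rw [← h1, hf _ _ (by omega) (by omega)]

/-- rigidity, reflection form -/
theorem good_of_reflection {n : ℕ} [hn : Fact (1 < n)] {f : ℕ → A} (hf : CM f) (P : ℕ)
    (hPn : P ≤ n) (hc : ∀ d, 0 < d → d < P → Nat.Coprime d n) (c : A)
    (href : ∀ u : (ZMod n)ˣ, FF n f (-u) = c * FF n f u) :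
    ∀ d, 0 < d → d < P → U n d ∈ HH n f hf := by
  apply all_good hf P hPn hc
  intro D hD hD1 hg u huD
  have hu0 := val_pos u
  have hun := val_lt u
  have hcD := hc D hD (by omega)
  have hcD1 := hc (D + 1) (by omega) hD1
  rcases Nat.lt_or_ge ((D + 1) * (u : ZMod n).val) n with h | h
  · exact FF_small hf (by omega) hcD1 u h
  · have huD' : D * (u : ZMod n).val < n := by rw [mul_comm]; exact huD
    have h1 : ((U n D * u : (ZMod n)ˣ) : ZMod n).val = D * (u : ZMod n).val := val_small hcD u huD'
    have h2 : ((-(U n D * u) : (ZMod n)ˣ) : ZMod n).val = n - D * (u : ZMod n).val := by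
      have : NeZero n := ⟨by have := hn.out; omega⟩
      have : NeZero ((U n D * u : (ZMod n)ˣ) : ZMod n) := ⟨(U n D * u).ne_zero⟩
      rw [Units.val_neg, ZMod.val_neg_of_ne_zero, h1]
    have h3 : (D + 1) * (u : ZMod n).val ≠ n := by
      intro h4
      have : NeZero n := ⟨by have := hn.out; omega⟩
      have h5 : ((U n (D + 1) * u : (ZMod n)ˣ) : ZMod n) = 0 := by
        have : ((U n (D + 1) * u : (ZMod n)ˣ) : ZMod n) =
            (((D + 1) * (u : ZMod n).val : ℕ) : ZMod n) := by
          rw [Units.val_mul, coe_U hcD1, Nat.cast_mul, ZMod.natCast_zmod_val]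
        rw [this, h4, ZMod.natCast_self]
      exact (U n (D + 1) * u).ne_zero h5
    have h4 : (D + 1) * ((-(U n D * u) : (ZMod n)ˣ) : ZMod n).val < n := by
      rw [h2]
      have e1 : (D + 1) * (n - D * (u : ZMod n).val) + D * ((D + 1) * (u : ZMod n).val) =
          (D + 1) * n := by
        have e2 : (D + 1) * (n - D * (u : ZMod n).val) + (D + 1) * (D * (u : ZMod n).val) =
            (D + 1) * n := by
          rw [← Nat.mul_add, Nat.sub_add_cancel huD'.le]
        have e3 : (D + 1) * (D * (u : ZMod n).val) = D * ((D + 1) * (u : ZMod n).val) := by ring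
        rw [← e3]; exact e2
      have e4 : D * (n + 1) ≤ D * ((D + 1) * (u : ZMod n).val) := Nat.mul_le_mul_left D (by omega)
      have e5 : (D + 1) * n = D * n + n := by ring
      have e6 : D * (n + 1) = D * n + D := by ring
      omega
    have h5 : FF n f (U n (D + 1) * -(U n D * u)) = f (D + 1) * FF n f (-(U n D * u)) :=
      FF_small hf (by omega) hcD1 _ h4
    have h6 : U n (D + 1) * -(U n D * u) = -(U n D * (U n (D + 1) * u)) := by
      rw [mul_neg, mul_left_comm]
    have hgD := mem_HH.1 (hg D hD le_rfl)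
    rw [h6, href, href, hgD, hgD] at h5
    have h7 : (c * FF n f (U n D)) * FF n f (U n (D + 1) * u) =
        (c * FF n f (U n D)) * (f (D + 1) * FF n f u) := by
      rw [mul_assoc, h5]
      simp only [mul_comm, mul_left_comm, mul_assoc]
    exact mul_left_cancel h7

end Pool.Agent.Helper68.CO2
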