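import Mathlib
import Pool.Agent.Helper68.CO2.Rigid

/-!
MP_418075_nt.  Completely multiplicative functions which are constant on the first members of a
reduced residue class modulo `n`, or on two suitable columns of the `n` by `n` array.
-/

set_option autoImplicit false

namespace Pool.Agent.Helper68.CO2

variable {A : Type*} [CommGroup A]

/-- the product of the values at two complementary residues -/
theorem pair_value {n : ℕ} [hn : Fact (1 < n)] {f : ℕ → A} (hf : CM f) {B : ℕ} (hB : n ^ 2 ≤ B)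
    {s : A} (k : (ZMod n)ˣ) (hc : ∀ m : ℕ, 0 < m → m ≤ B → (m : ZMod n) = k → f m = s)
    (u : (ZMod n)ˣ) : FF n f (k * u⁻¹) * FF n f u = s := by
  have : NeZero n := ⟨by have := hn.out; omega⟩
  have h1 := val_pos u
  have h2 := val_pos (k * u⁻¹)
  have h3 := val_lt u
  have h4 := val_lt (k * u⁻¹)
  unfold FF
  rw [← hf _ _ h2.ne' h1.ne']
  refine hc _ (Nat.mul_pos h2 h1) ?_ ?_
  · refine le_trans ?_ hB
    rw [pow_two]
    exact Nat.mul_le_mul h4.le h3.le
  · rw [Nat.cast_mul, ZMod.natCast_zmod_val, ZMod.natCast_zmod_val, ← Units.val_mul,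
      inv_mul_cancel_right]

/-- constancy on the first `C n` members of a reduced class gives periodicity up to `C n` -/
theorem periodic_of_class {n : ℕ} [hn : Fact (1 < n)] {f : ℕ → A} (hf : CM f) {C : ℕ} (hC : 0 < C)
    {s : A} (k : (ZMod n)ˣ)
    (hc : ∀ m : ℕ, 0 < m → m ≤ C * n ^ 2 → (m : ZMod n) = k → f m = s) :
    ∀ a, 0 < a → a ≤ C * n → Nat.Coprime a n → f a = FF n f (U n a) := by
  intro a ha haC hcop
  have : NeZero n := ⟨by have := hn.out; omega⟩
  have hB : n ^ 2 ≤ C * n ^ 2 := Nat.le_mul_of_pos_left _ hC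
  have h1 := pair_value hf hB k hc (U n a)
  have h2 := val_pos (k * (U n a)⁻¹)
  have h4 := val_lt (k * (U n a)⁻¹)
  have h5 : f (((k * (U n a)⁻¹ : (ZMod n)ˣ) : ZMod n).val * a) = s := by
    refine hc _ (Nat.mul_pos h2 ha) ?_ ?_
    · calc ((k * (U n a)⁻¹ : (ZMod n)ˣ) : ZMod n).val * a ≤ n * (C * n) := Nat.mul_le_mul h4.le haC
        _ = C * n ^ 2 := by ring
    · rw [Nat.cast_mul, ZMod.natCast_zmod_val, ← coe_U hcop, ← Units.val_mul, inv_mul_cancel_right]
  rw [hf _ _ h2.ne' ha.ne', ← h1] at h5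
  exact mul_left_cancel h5

/-- constancy on the first `2 n` members of a reduced class -/
theorem good_of_class {n : ℕ} [hn : Fact (1 < n)] {f : ℕ → A} (hf : CM f) (P : ℕ) (hPn : P ≤ n)
    (hP : ∀ d, 0 < d → d < P → Nat.Coprime d n) {s : A} (k : (ZMod n)ˣ)
    (hc : ∀ m : ℕ, 0 < m → m ≤ 2 * n ^ 2 → (m : ZMod n) = k → f m = s) :
    ∀ d, 0 < d → d < P → U n d ∈ HH n f hf := by
  apply good_of_periodic hf P hPn hP
  intro a ha han hcop
  have hcop' : Nat.Coprime (a + n) n := by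
    rw [Nat.coprime_add_self_left]
    exact hcop
  rw [periodic_of_class hf (by norm_num) k hc (a + n) (by omega) (by omega) hcop']
  have h1 : U n (a + n) = U n a := by
    apply Units.ext
    rw [coe_U hcop', coe_U hcop, Nat.cast_add, ZMod.natCast_self, add_zero]
  rw [h1, FF_U f hcop han]

/-- a small multiplier is good if the class is constant on sufficiently many members -/
theorem good_small {n : ℕ} [hn : Fact (1 < n)] {f : ℕ → A} (hf : CM f) {C : ℕ} (hC : 0 < C)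
    {s : A} (k : (ZMod n)ˣ)
    (hc : ∀ m : ℕ, 0 < m → m ≤ C * n ^ 2 → (m : ZMod n) = k → f m = s)
    (hCn : Nat.Coprime C n) : U n C ∈ HH n f hf := by
  have : NeZero n := ⟨by have := hn.out; omega⟩
  have hn1 := hn.out
  have hper := periodic_of_class hf hC k hc
  have h0 : f C = FF n f (U n C) := hper C hC (Nat.le_mul_of_pos_right _ (by omega)) hCn
  rw [mem_HH]
  intro u
  have h1 := val_pos u
  have h2 := val_lt u
  have h3 := val_coprime u
  have h4 : Nat.Coprime (C * (u : ZMod n).val) n := Nat.Coprime.mul_left hCn h3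
  have h5 := hper (C * (u : ZMod n).val) (Nat.mul_pos hC h1) (Nat.mul_le_mul_left C h2.le) h4
  have h6 : U n (C * (u : ZMod n).val) = U n C * u := by
    apply Units.ext
    rw [coe_U h4, Units.val_mul, coe_U hCn, Nat.cast_mul, ZMod.natCast_zmod_val]
  rw [← h6, ← h5, ← h0, hf _ _ hC.ne' h1.ne']
  rfl

/-- constancy on two columns -/
theorem good_of_two {n : ℕ} [hn : Fact (1 < n)] {f : ℕ → A} (hf : CM f) (P : ℕ) (hPn : P ≤ n)
    (hP : ∀ d, 0 < d → d < P → Nat.Coprime d n)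
    {s₁ s₂ : A} (k₁ k₂ : (ZMod n)ˣ) {j : ℕ} (hj : (k₁ : ZMod n) ^ j + (k₂ : ZMod n) ^ j = 0)
    (hc₁ : ∀ m : ℕ, 0 < m → m ≤ n ^ 2 → (m : ZMod n) = k₁ → f m = s₁)
    (hc₂ : ∀ m : ℕ, 0 < m → m ≤ n ^ 2 → (m : ZMod n) = k₂ → f m = s₂) :
    ∀ d, 0 < d → d < P → U n d ∈ HH n f hf := by
  have hstep : ∀ u : (ZMod n)ˣ, FF n f ((k₂ * k₁⁻¹) * u) = (s₂ * s₁⁻¹) * FF n f u := by
    intro u
    have h1 := pair_value hf le_rfl k₁ hc₁ u
    have h2 := pair_value hf le_rfl k₂ hc₂ ((k₂ * k₁⁻¹) * u)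
    have h3 : k₂ * ((k₂ * k₁⁻¹) * u)⁻¹ = k₁ * u⁻¹ := by
      rw [mul_inv, mul_inv, inv_inv]
      rw [← mul_assoc, ← mul_assoc, mul_inv_cancel, one_mul]
    rw [h3] at h2
    have h4 : s₂ * FF n f u = FF n f (k₂ * k₁⁻¹ * u) * s₁ := by
      rw [← h1, ← h2]
      simp only [mul_comm, mul_left_comm]
    have h5 : s₂ * s₁⁻¹ * FF n f u = s₂ * FF n f u * s₁⁻¹ := mul_right_comm _ _ _
    rw [h5, h4, mul_inv_cancel_right]
  have hiter : ∀ (i : ℕ) (u : (ZMod n)ˣ),
      FF n f ((k₂ * k₁⁻¹) ^ i * u) = (s₂ * s₁⁻¹) ^ i * FF n f u := by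
    intro i
    induction i with
    | zero => intro u; rw [pow_zero, pow_zero, one_mul, one_mul]
    | succ i ih =>
      intro u
      have e1 : (k₂ * k₁⁻¹) ^ (i + 1) * u = (k₂ * k₁⁻¹) ^ i * ((k₂ * k₁⁻¹) * u) := by
        rw [pow_succ, mul_assoc]
      have e2 : (s₂ * s₁⁻¹) ^ (i + 1) * FF n f u = (s₂ * s₁⁻¹) ^ i * ((s₂ * s₁⁻¹) * FF n f u) := by
        rw [pow_succ, mul_assoc]
      rw [e1, e2, ih, hstep u]
  have hneg : (k₂ * k₁⁻¹) ^ j = -1 := by
    have h6 : k₂ ^ j = -(k₁ ^ j) := by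
      apply Units.ext
      rw [Units.val_neg, Units.val_pow_eq_pow_val, Units.val_pow_eq_pow_val]
      linear_combination hj
    rw [mul_pow, inv_pow, h6, neg_mul, mul_inv_cancel]
  apply good_of_reflection hf P hPn hP ((s₂ * s₁⁻¹) ^ j)
  intro u
  have h := hiter j u
  rw [hneg, neg_one_mul] at h
  exact h

/-- for a number composed of good primes, `f` at the number is `f` at its residue -/
theorem smooth_val {n : ℕ} [hn : Fact (1 < n)] {f : ℕ → A} (hf : CM f) (P : ℕ) (hPn : P ≤ n)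
    (hP : ∀ d, 0 < d → d < P → Nat.Coprime d n) (hg : ∀ d, 0 < d → d < P → U n d ∈ HH n f hf) :
    ∀ a : ℕ, a ≠ 0 → (∀ q : ℕ, q.Prime → q ∣ a → q < P) →
      Nat.Coprime a n ∧ U n a ∈ HH n f hf ∧ FF n f (U n a) = f a := by
  intro a
  induction a using Nat.recOnMul with
  | zero => intro h; exact absurd rfl h
  | one =>
    intro _ _
    have h1 : U n 1 = 1 := by
      apply Units.ext
      rw [coe_U (Nat.coprime_one_left n), Nat.cast_one, Units.val_one]
    refine ⟨Nat.coprime_one_left n, ?_, ?_⟩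
    · rw [h1]; exact one_mem _
    · rw [h1, FF_one hf, cm_one hf]
  | prime q hq =>
    intro _ h
    have h1 := h q hq dvd_rfl
    exact ⟨hP q hq.pos h1, hg q hq.pos h1, FF_U f (hP q hq.pos h1) (by omega)⟩
  | mul a b iha ihb =>
    intro h0 h
    have ha0 : a ≠ 0 := left_ne_zero_of_mul h0
    have hb0 : b ≠ 0 := right_ne_zero_of_mul h0
    obtain ⟨a1, a2, a3⟩ := iha ha0 fun q hq hd => h q hq (Dvd.dvd.mul_right hd b)
    obtain ⟨b1, b2, b3⟩ := ihb hb0 fun q hq hd => h q hq (Dvd.dvd.mul_left hd a)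
    have h1 : Nat.Coprime (a * b) n := Nat.Coprime.mul_left a1 b1
    have h2 : U n (a * b) = U n a * U n b := by
      apply Units.ext
      rw [coe_U h1, Units.val_mul, coe_U a1, coe_U b1, Nat.cast_mul]
    refine ⟨h1, ?_, ?_⟩
    · rw [h2]; exact mul_mem a2 b2
    · rw [h2, mem_HH.1 a2, a3, b3, hf a b ha0 hb0]

/-- congruent numbers composed of good primes have equal values -/
theorem smooth_congr {n : ℕ} [hn : Fact (1 < n)] {f : ℕ → A} (hf : CM f) (P : ℕ) (hPn : P ≤ n)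
    (hP : ∀ d, 0 < d → d < P → Nat.Coprime d n) (hg : ∀ d, 0 < d → d < P → U n d ∈ HH n f hf)
    {a b : ℕ} (ha : a ≠ 0) (hb : b ≠ 0) (hsa : ∀ q : ℕ, q.Prime → q ∣ a → q < P)
    (hsb : ∀ q : ℕ, q.Prime → q ∣ b → q < P) (hab : (a : ZMod n) = (b : ZMod n)) : f a = f b := by
  obtain ⟨a1, _, a3⟩ := smooth_val hf P hPn hP hg a ha hsa
  obtain ⟨b1, _, b3⟩ := smooth_val hf P hPn hP hg b hb hsb
  have h : U n a = U n b := by
    apply Units.ext
    rw [coe_U a1, coe_U b1, hab]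
  rw [← a3, ← b3, h]

end Pool.Agent.Helper68.CO2
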