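import Mathlib
import Pool.Agent.Helper68.CO2.Class
import Pool.Agent.Helper68.CO2.Arith

/-!
MP_418075_nt.  The Liouville function is not a character on the least residues: contradictions.
-/

set_option autoImplicit false

namespace Pool.Agent.Helper68.CO2

open ArithmeticFunction

/-- the Liouville function with values in the units of `ℤ` -/
def lam (m : ℕ) : ℤˣ := (-1) ^ (cardFactors m)

theorem cm_lam : CM lam := by
  intro a b ha hb
  unfold lam
  rw [cardFactors_mul ha hb, pow_add]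

theorem lam_prime {q : ℕ} (hq : q.Prime) : lam q = -1 := by
  unfold lam
  rw [cardFactors_apply_prime hq, pow_one]

theorem lam_pow (a k : ℕ) : lam (a ^ k) = lam a ^ k := by
  unfold lam
  rw [cardFactors_pow, mul_comm, pow_mul]

theorem units_sq_pow (x : ℤˣ) (i : ℕ) : x ^ (2 * i) = 1 := by
  rw [pow_mul, pow_two, Int.units_mul_self, one_pow]

theorem lam_eq_one_iff (m : ℕ) : lam m = 1 ↔ Even (cardFactors m) := by
  unfold lam
  constructor
  · intro h
    by_contra h2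
    rw [Nat.not_even_iff_odd] at h2
    rw [h2.neg_one_pow] at h
    exact absurd h (by decide)
  · intro h
    exact h.neg_one_pow

theorem lam_eq_neg_one_iff (m : ℕ) : lam m = -1 ↔ Odd (cardFactors m) := by
  unfold lam
  constructor
  · intro h
    by_contra h2
    rw [Nat.not_odd_iff_even] at h2
    rw [h2.neg_one_pow] at h
    exact absurd h (by decide)
  · intro h
    exact h.neg_one_pow

/-- the general criterion -/
theorem contra_smooth {n : ℕ} [hn : Fact (1 < n)] (P : ℕ) (hPn : P ≤ n)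
    (hP : ∀ d, 0 < d → d < P → Nat.Coprime d n)
    (hg : ∀ d, 0 < d → d < P → U n d ∈ HH n lam cm_lam)
    {a b : ℕ} (hs : ∀ q : ℕ, q.Prime → q ∣ a * b → q < P)
    (hab : (a : ZMod n) = (b : ZMod n)) (hodd : Odd (cardFactors (a * b))) : False := by
  have h0 : a * b ≠ 0 := by
    intro h
    rw [h, cardFactors_zero] at hodd
    exact absurd hodd (by decide)
  have ha : a ≠ 0 := left_ne_zero_of_mul h0
  have hb : b ≠ 0 := right_ne_zero_of_mul h0
  have h1 := smooth_congr cm_lam P hPn hP hg ha hb (fun q hq hd => hs q hq (hd.mul_right b))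
    (fun q hq hd => hs q hq (hd.mul_left a)) hab
  have h2 := (lam_eq_neg_one_iff (a * b)).2 hodd
  rw [cm_lam a b ha hb, h1, Int.units_mul_self] at h2
  exact absurd h2 (by decide)

/-- an element of the stabilizer whose even power is the class of a prime -/
theorem contra_even_pow {n : ℕ} [hn : Fact (1 < n)] {h : (ZMod n)ˣ}
    (hh : h ∈ HH n lam cm_lam) {r i : ℕ} (hr : r.Prime) (hv : FF n lam (U n r) = lam r)
    (heq : U n r = h ^ (2 * i)) : False := by
  rw [heq, FF_pow cm_lam hh, units_sq_pow, lam_prime hr] at hv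
  exact absurd hv (by decide)

/-- prime powers, large prime -/
theorem contra_prime_pow {p e : ℕ} (hp : p.Prime) (h7 : 7 ≤ p) [hn : Fact (1 < p ^ (e + 1))]
    (hg : ∀ d, 0 < d → d < p → U (p ^ (e + 1)) d ∈ HH (p ^ (e + 1)) lam cm_lam) : False := by
  have : Fact p.Prime := ⟨hp⟩
  obtain ⟨q, hq, hqp, z, hz⟩ := exists_residue (p := p) h7
  have hPn : p ≤ p ^ (e + 1) := Nat.le_self_pow (Nat.succ_ne_zero e) p
  have hP : ∀ d, 0 < d → d < p → Nat.Coprime d (p ^ (e + 1)) := by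
    intro d h0 h1
    exact Nat.Coprime.pow_right _ (Nat.coprime_of_lt_prime h0.ne' h1 hp).symm
  have hyp : z.val < p := ZMod.val_lt z
  have hq0 : (q : ZMod p) ≠ 0 := by
    rw [Ne, ZMod.natCast_eq_zero_iff]
    intro h
    exact absurd (Nat.le_of_dvd hq.pos h) (by omega)
  have hz0 : z ≠ 0 := by
    rintro rfl
    rw [mul_zero] at hz
    exact hq0 hz
  have hy0 : 0 < z.val := by
    rw [Nat.pos_iff_ne_zero, Ne, ZMod.val_eq_zero]
    exact hz0
  have h1 : (p : ℤ) ∣ (q : ℤ) - (z.val : ℤ) ^ 2 := by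
    rw [← ZMod.intCast_zmod_eq_zero_iff_dvd]
    push_cast
    rw [ZMod.natCast_zmod_val, hz]
    ring
  have h2 := dvd_sub_pow_of_dvd_sub h1 e
  have hNodd : Odd (p ^ e) := by
    refine Odd.pow ?_
    rcases hp.eq_two_or_odd' with h | h
    · omega
    · exact h
  refine contra_smooth p hPn hP hg (a := q ^ (p ^ e)) (b := (z.val ^ 2) ^ (p ^ e)) ?_ ?_ ?_
  · intro r hr hd
    rcases (hr.dvd_mul).1 hd with h | h
    · have := (Nat.prime_dvd_prime_iff_eq hr hq).1 (hr.dvd_of_dvd_pow h)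
      omega
    · have := Nat.le_of_dvd hy0 (hr.dvd_of_dvd_pow (hr.dvd_of_dvd_pow h))
      omega
  · have h3 : (((q : ℤ) ^ p ^ e - ((z.val : ℤ) ^ 2) ^ p ^ e : ℤ) : ZMod (p ^ (e + 1))) = 0 := by
      rw [ZMod.intCast_zmod_eq_zero_iff_dvd]
      push_cast
      exact h2
    push_cast at h3 ⊢
    exact sub_eq_zero.1 h3
  · have ha : q ^ (p ^ e) ≠ 0 := pow_ne_zero _ hq.ne_zero
    have hb : (z.val ^ 2) ^ (p ^ e) ≠ 0 := pow_ne_zero _ (pow_ne_zero _ hy0.ne')
    rw [← lam_eq_neg_one_iff, cm_lam _ _ ha hb, lam_pow, lam_prime hq, ← pow_mul, lam_pow,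
      units_sq_pow, mul_one, hNodd.neg_one_pow]

/-- powers of three -/
theorem contra_three {e : ℕ} [hn : Fact (1 < 3 ^ (e + 2))]
    (hg : U (3 ^ (e + 2)) 2 ∈ HH (3 ^ (e + 2)) lam cm_lam) : False := by
  obtain ⟨i, hi⟩ := cover_three (e + 1)
  have hc2 : Nat.Coprime 2 (3 ^ (e + 2)) := Nat.Coprime.pow_right _ (by norm_num)
  have hc7 : Nat.Coprime 7 (3 ^ (e + 2)) := Nat.Coprime.pow_right _ (by norm_num)
  have h9 : 7 < 3 ^ (e + 2) := by
    have : 3 ^ 2 ≤ 3 ^ (e + 2) := Nat.pow_le_pow_right (by norm_num) (by omega)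
    omega
  refine contra_even_pow hg (r := 7) (i := i) (by norm_num) (FF_U lam hc7 h9) ?_
  apply Units.ext
  rw [coe_U hc7, Units.val_pow_eq_pow_val, coe_U hc2]
  have h3 : (((4 : ℤ) ^ i - 7 : ℤ) : ZMod (3 ^ (e + 2))) = 0 := by
    rw [ZMod.intCast_zmod_eq_zero_iff_dvd]
    push_cast
    refine Dvd.dvd.trans ?_ hi
    rw [pow_succ' 3 (e + 1)]
  push_cast at h3 ⊢
  rw [pow_mul]
  have h4 : (2 : ZMod (3 ^ (e + 2))) ^ 2 = 4 := by norm_num
  rw [h4]
  exact (sub_eq_zero.1 h3).symm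

/-- powers of five -/
theorem contra_five {e : ℕ} [hn : Fact (1 < 5 ^ (e + 2))]
    (hg : U (5 ^ (e + 2)) 2 ∈ HH (5 ^ (e + 2)) lam cm_lam) : False := by
  obtain ⟨i, hi⟩ := cover_five (e + 1)
  have hc2 : Nat.Coprime 2 (5 ^ (e + 2)) := Nat.Coprime.pow_right _ (by norm_num)
  have hc11 : Nat.Coprime 11 (5 ^ (e + 2)) := Nat.Coprime.pow_right _ (by norm_num)
  have h9 : 11 < 5 ^ (e + 2) := by
    have : 5 ^ 2 ≤ 5 ^ (e + 2) := Nat.pow_le_pow_right (by norm_num) (by omega)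
    omega
  refine contra_even_pow hg (r := 11) (i := 2 * i) (by norm_num) (FF_U lam hc11 h9) ?_
  apply Units.ext
  rw [coe_U hc11, Units.val_pow_eq_pow_val, coe_U hc2]
  have h3 : (((16 : ℤ) ^ i - 11 : ℤ) : ZMod (5 ^ (e + 2))) = 0 := by
    rw [ZMod.intCast_zmod_eq_zero_iff_dvd]
    push_cast
    refine Dvd.dvd.trans ?_ hi
    rw [pow_succ' 5 (e + 1)]
  push_cast at h3 ⊢
  rw [← mul_assoc, pow_mul]
  have h4 : (2 : ZMod (5 ^ (e + 2))) ^ (2 * 2) = 16 := by norm_num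
  rw [h4]
  exact (sub_eq_zero.1 h3).symm

/-- powers of two -/
theorem contra_two {e : ℕ} [hn : Fact (1 < 2 ^ (e + 3))]
    (hg : U (2 ^ (e + 3)) 3 ∈ HH (2 ^ (e + 3)) lam cm_lam)
    (hv : FF (2 ^ (e + 3)) lam (U (2 ^ (e + 3)) 17) = lam 17) : False := by
  obtain ⟨i, hi⟩ := cover_two e
  have hc3 : Nat.Coprime 3 (2 ^ (e + 3)) := Nat.Coprime.pow_right _ (by norm_num)
  have hc17 : Nat.Coprime 17 (2 ^ (e + 3)) := Nat.Coprime.pow_right _ (by norm_num)
  refine contra_even_pow hg (r := 17) (i := i) (by norm_num) hv ?_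
  apply Units.ext
  rw [coe_U hc17, Units.val_pow_eq_pow_val, coe_U hc3]
  have h3 : (((9 : ℤ) ^ i - 17 : ℤ) : ZMod (2 ^ (e + 3))) = 0 := by
    rw [ZMod.intCast_zmod_eq_zero_iff_dvd]
    push_cast
    refine Dvd.dvd.trans ?_ hi
    rw [pow_add 2 e 3, mul_comm]
    norm_num
  push_cast at h3 ⊢
  rw [pow_mul]
  have h4 : (3 : ZMod (2 ^ (e + 3))) ^ 2 = 9 := by norm_num
  rw [h4]
  exact (sub_eq_zero.1 h3).symm

end Pool.Agent.Helper68.CO2
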