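import Mathlib
import Pool.Agent.Helper68.CO2.Liou

/-!
MP_418075_nt.  Both parities of `Ω` in reduced residue classes and columns modulo `n`.
-/

set_option autoImplicit false

namespace Pool.Agent.Helper68.CO2

open ArithmeticFunction

/-- among the first `N` members `k, n + k, …, (N - 1) n + k` of the class of `k` modulo `n` there is
one with an even number and one with an odd number of prime factors, counted with multiplicity -/
def Mixed (n k N : ℕ) : Prop :=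
  (∃ j < N, Even (cardFactors (j * n + k))) ∧ ∃ j < N, Odd (cardFactors (j * n + k))

theorem Mixed.mono {n k N M : ℕ} (h : Mixed n k N) (hNM : N ≤ M) : Mixed n k M := by
  obtain ⟨⟨i, hi, h1⟩, j, hj, h2⟩ := h
  exact ⟨⟨i, by omega, h1⟩, j, by omega, h2⟩

theorem const_of_not_mixed {n k N : ℕ} (h : ¬ Mixed n k N) :
    ∃ s : ℤˣ, ∀ j < N, lam (j * n + k) = s := by
  by_cases h1 : ∃ j < N, Even (cardFactors (j * n + k))
  · have h2 : ¬ ∃ j < N, Odd (cardFactors (j * n + k)) := fun h3 => h ⟨h1, h3⟩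
    push Not at h2
    exact ⟨1, fun j hj => (lam_eq_one_iff _).2 (Nat.not_odd_iff_even.1 (h2 j hj))⟩
  · push Not at h1
    exact ⟨-1, fun j hj => (lam_eq_neg_one_iff _).2 (Nat.not_even_iff_odd.1 (h1 j hj))⟩

/-- the members of the class of `k` up to `N * n` are the first `N` ones -/
theorem mem_class {n k N m : ℕ} (hk : 1 ≤ k) (hkn : k < n) (hm : m ≤ N * n)
    (hc : (m : ZMod n) = (k : ZMod n)) : ∃ j < N, m = j * n + k := by
  have h1 : m % n = k := by
    have h2 := (ZMod.natCast_eq_natCast_iff' m k n).1 hc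
    rw [Nat.mod_eq_of_lt hkn] at h2
    exact h2
  have h3 := Nat.div_add_mod m n
  rw [h1] at h3
  have h4 : n * (m / n) = m / n * n := mul_comm _ _
  refine ⟨m / n, ?_, by omega⟩
  by_contra h5
  push Not at h5
  have h6 : N * n ≤ m / n * n := Nat.mul_le_mul_right n h5
  omega

/-- transfer of constancy to residues -/
theorem const_class {A : Type*} {n k C : ℕ} {f : ℕ → A} {s : A} (hk : 1 ≤ k) (hkn : k < n)
    (hcop : Nat.Coprime k n) (h : ∀ j < C * n, f (j * n + k) = s) :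
    ∀ m : ℕ, 0 < m → m ≤ C * n ^ 2 → (m : ZMod n) = (U n k : (ZMod n)ˣ) → f m = s := by
  intro m _ hm hc
  rw [coe_U hcop] at hc
  have hm' : m ≤ C * n * n := by
    calc m ≤ C * n ^ 2 := hm
      _ = C * n * n := by ring
  obtain ⟨j, hj, rfl⟩ := mem_class hk hkn hm' hc
  exact h j hj

theorem const_class' {A : Type*} {n k : ℕ} {f : ℕ → A} {s : A} (hk : 1 ≤ k) (hkn : k < n)
    (hcop : Nat.Coprime k n) (h : ∀ j < n, f (j * n + k) = s) :
    ∀ m : ℕ, 0 < m → m ≤ n ^ 2 → (m : ZMod n) = (U n k : (ZMod n)ˣ) → f m = s := by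
  intro m h0 hm hc
  refine const_class (C := 1) hk hkn hcop ?_ m h0 (by rw [one_mul]; exact hm) hc
  intro j hj
  rw [one_mul] at hj
  exact h j hj

section rigid

variable {A : Type*} [CommGroup A] {n : ℕ} [hn : Fact (1 < n)] {f : ℕ → A}

theorem mul_of_mem (hf : CM f) {d : ℕ} (hcd : Nat.Coprime d n) (hd : d < n)
    (hg : U n d ∈ HH n f hf) {x : ℕ} (hx : x < n) (hcx : Nat.Coprime x n) :
    f (d * x % n) = f d * f x := by
  have h := mem_HH.1 hg (U n x)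
  rw [FF_U f hcd hd, FF_U f hcx hx] at h
  rw [← h]
  unfold FF
  have h1 : ((U n d * U n x : (ZMod n)ˣ) : ZMod n) = ((d * x : ℕ) : ZMod n) := by
    rw [Units.val_mul, coe_U hcd, coe_U hcx, Nat.cast_mul]
  rw [h1, ZMod.val_natCast]

theorem rigid_one (hf : CM f) (P : ℕ) (hPn : P ≤ n) (hP : ∀ d, 0 < d → d < P → Nat.Coprime d n)
    {s : A} {k : ℕ} (hk : 1 ≤ k) (hkn : k < n) (hcop : Nat.Coprime k n)
    (h : ∀ j < 2 * n, f (j * n + k) = s) : ∀ d, 0 < d → d < P → U n d ∈ HH n f hf :=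
  good_of_class hf P hPn hP (U n k) (const_class hk hkn hcop h)

theorem rigid_two (hf : CM f) (P : ℕ) (hPn : P ≤ n) (hP : ∀ d, 0 < d → d < P → Nat.Coprime d n)
    {s₁ s₂ : A} {k₁ k₂ j : ℕ} (hk₁ : 1 ≤ k₁) (hkn₁ : k₁ < n) (hc₁ : Nat.Coprime k₁ n)
    (hk₂ : 1 ≤ k₂) (hkn₂ : k₂ < n) (hc₂ : Nat.Coprime k₂ n)
    (hj : n ∣ k₁ ^ j + k₂ ^ j) (h₁ : ∀ j < n, f (j * n + k₁) = s₁)
    (h₂ : ∀ j < n, f (j * n + k₂) = s₂) : ∀ d, 0 < d → d < P → U n d ∈ HH n f hf := by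
  refine good_of_two hf P hPn hP (U n k₁) (U n k₂) (j := j) ?_ (const_class' hk₁ hkn₁ hc₁ h₁)
    (const_class' hk₂ hkn₂ hc₂ h₂)
  have h := (ZMod.natCast_eq_zero_iff (k₁ ^ j + k₂ ^ j) n).2 hj
  rw [Nat.cast_add, Nat.cast_pow, Nat.cast_pow] at h
  rw [coe_U hc₁, coe_U hc₂]
  exact h

end rigid

theorem coprime_of_lt_minFac {n d : ℕ} (h0 : 0 < d) (h : d < n.minFac) : Nat.Coprime d n := by
  by_contra hc
  obtain ⟨r, hr, h1, h2⟩ := Nat.Prime.not_coprime_iff_dvd.1 hc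
  have h3 := Nat.minFac_le_of_dvd hr.two_le h2
  have h4 := Nat.le_of_dvd h0 h1
  omega

/-- one class, from a contradiction -/
theorem mixed_of {n : ℕ} [hn : Fact (1 < n)] (P : ℕ) (hPn : P ≤ n)
    (hP : ∀ d, 0 < d → d < P → Nat.Coprime d n)
    (hbad : (∀ d, 0 < d → d < P → U n d ∈ HH n lam cm_lam) → False)
    {k : ℕ} (hk : 1 ≤ k) (hkn : k < n) (hcop : Nat.Coprime k n) : Mixed n k (2 * n) := by
  by_contra hm
  obtain ⟨s, hs⟩ := const_of_not_mixed hm
  exact hbad (rigid_one cm_lam P hPn hP hk hkn hcop hs)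

/-- two columns, from a contradiction -/
theorem pair_of {n : ℕ} [hn : Fact (1 < n)] (P : ℕ) (hPn : P ≤ n)
    (hP : ∀ d, 0 < d → d < P → Nat.Coprime d n)
    (hbad : (∀ d, 0 < d → d < P → U n d ∈ HH n lam cm_lam) → False)
    {k₁ k₂ j : ℕ} (hk₁ : 1 ≤ k₁) (hkn₁ : k₁ < n) (hc₁ : Nat.Coprime k₁ n)
    (hk₂ : 1 ≤ k₂) (hkn₂ : k₂ < n) (hc₂ : Nat.Coprime k₂ n)
    (hj : n ∣ k₁ ^ j + k₂ ^ j) : Mixed n k₁ n ∨ Mixed n k₂ n := by
  by_contra hm
  rw [not_or] at hm
  obtain ⟨s₁, hs₁⟩ := const_of_not_mixed hm.1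
  obtain ⟨s₂, hs₂⟩ := const_of_not_mixed hm.2
  exact hbad (rigid_two cm_lam P hPn hP hk₁ hkn₁ hc₁ hk₂ hkn₂ hc₂ hj hs₁ hs₂)

theorem even_mul_prime {a b : ℕ} (ha : a.Prime) (hb : b.Prime) : Even (cardFactors (a * b)) := by
  rw [cardFactors_mul ha.ne_zero hb.ne_zero, cardFactors_apply_prime ha,
    cardFactors_apply_prime hb]
  decide

theorem odd_prime {a : ℕ} (ha : a.Prime) : Odd (cardFactors a) := by
  rw [cardFactors_apply_prime ha]
  decide

theorem mixed_three_one : Mixed 3 1 3 :=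
  ⟨⟨0, by norm_num, by simp⟩,
    ⟨2, by norm_num, by simpa using odd_prime (a := 7) (by norm_num)⟩⟩

theorem mixed_three_two : Mixed 3 2 6 := by
  refine ⟨⟨4, by norm_num, ?_⟩, ⟨0, by norm_num, by simpa using odd_prime Nat.prime_two⟩⟩
  exact even_mul_prime (a := 2) (b := 7) Nat.prime_two (by norm_num)

theorem mixed_five_one : Mixed 5 1 5 :=
  ⟨⟨0, by norm_num, by simp⟩,
    ⟨2, by norm_num, by simpa using odd_prime (a := 11) (by norm_num)⟩⟩

theorem mixed_five_two : Mixed 5 2 5 := by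
  refine ⟨⟨4, by norm_num, ?_⟩, ⟨0, by norm_num, by simpa using odd_prime Nat.prime_two⟩⟩
  exact even_mul_prime (a := 2) (b := 11) Nat.prime_two (by norm_num)

theorem mixed_five_three : Mixed 5 3 10 := by
  refine ⟨⟨6, by norm_num, ?_⟩, ⟨0, by norm_num, by simpa using odd_prime Nat.prime_three⟩⟩
  exact even_mul_prime (a := 3) (b := 11) Nat.prime_three (by norm_num)

theorem mixed_five_four : Mixed 5 4 5 := by
  refine ⟨⟨0, by norm_num, ?_⟩,
    ⟨3, by norm_num, by simpa using odd_prime (a := 19) (by norm_num)⟩⟩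
  exact even_mul_prime (a := 2) (b := 2) Nat.prime_two Nat.prime_two

theorem mixed_two_one : Mixed 2 1 2 :=
  ⟨⟨0, by norm_num, by simp⟩,
    ⟨1, by norm_num, by simpa using odd_prime (a := 3) (by norm_num)⟩⟩

theorem mixed_four_one : Mixed 4 1 4 :=
  ⟨⟨0, by norm_num, by simp⟩,
    ⟨1, by norm_num, by simpa using odd_prime (a := 5) (by norm_num)⟩⟩

theorem mixed_four_three : Mixed 4 3 4 := by
  refine ⟨⟨3, by norm_num, ?_⟩, ⟨0, by norm_num, by simpa using odd_prime Nat.prime_three⟩⟩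
  exact even_mul_prime (a := 3) (b := 5) Nat.prime_three (by norm_num)

theorem odd_prime_cases {p : ℕ} (hp : p.Prime) (h2 : p ≠ 2) : p = 3 ∨ p = 5 ∨ 7 ≤ p := by
  rcases Nat.lt_or_ge p 7 with h | h
  · interval_cases p
    · exact absurd hp (by norm_num)
    · exact absurd hp (by norm_num)
    · exact absurd rfl h2
    · exact Or.inl rfl
    · exact absurd hp (by norm_num)
    · exact Or.inr (Or.inl rfl)
    · exact absurd hp (by norm_num)
  · exact Or.inr (Or.inr h)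

theorem coprime_pp {p e d : ℕ} (hp : p.Prime) (h0 : 0 < d) (h1 : d < p) :
    Nat.Coprime d (p ^ (e + 1)) :=
  Nat.Coprime.pow_right _ (Nat.coprime_of_lt_prime h0.ne' h1 hp).symm

/-- the contradiction for odd prime powers other than `3` and `5` -/
theorem bad_pp {p e : ℕ} (hp : p.Prime) (h2 : p ≠ 2) (h : e ≠ 0 ∨ 7 ≤ p)
    [hn : Fact (1 < p ^ (e + 1))]
    (hg : ∀ d, 0 < d → d < p → U (p ^ (e + 1)) d ∈ HH (p ^ (e + 1)) lam cm_lam) : False := by
  rcases odd_prime_cases hp h2 with rfl | rfl | h7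
  · obtain ⟨e', rfl⟩ : ∃ e', e = e' + 1 := ⟨e - 1, by omega⟩
    exact contra_three (hg 2 (by norm_num) (by norm_num))
  · obtain ⟨e', rfl⟩ : ∃ e', e = e' + 1 := ⟨e - 1, by omega⟩
    exact contra_five (hg 2 (by norm_num) (by norm_num))
  · exact contra_prime_pow hp h7 hg

theorem one_lt_pp {p e : ℕ} (hp : p.Prime) : 1 < p ^ (e + 1) :=
  Nat.one_lt_pow (Nat.succ_ne_zero e) hp.one_lt

theorem mixed_odd_pp {p e : ℕ} (hp : p.Prime) (h2 : p ≠ 2) {k : ℕ} (hk : 1 ≤ k)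
    (hkn : k < p ^ (e + 1)) (hpk : ¬ p ∣ k) : Mixed (p ^ (e + 1)) k (2 * p ^ (e + 1)) := by
  have hcop : Nat.Coprime k (p ^ (e + 1)) :=
    Nat.Coprime.pow_right _ ((Nat.Prime.coprime_iff_not_dvd hp).2 hpk).symm
  by_cases hE : e ≠ 0 ∨ 7 ≤ p
  · have : Fact (1 < p ^ (e + 1)) := ⟨one_lt_pp hp⟩
    exact mixed_of p (Nat.le_self_pow (Nat.succ_ne_zero e) p) (fun d h0 h1 => coprime_pp hp h0 h1)
      (bad_pp hp h2 hE) hk hkn hcop
  · push Not at hE
    obtain ⟨rfl, hp7⟩ := hE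
    rw [zero_add, pow_one] at hkn ⊢
    rcases odd_prime_cases hp h2 with rfl | rfl | h7
    · have : k = 1 ∨ k = 2 := by omega
      rcases this with rfl | rfl
      · exact mixed_three_one.mono (by norm_num)
      · exact mixed_three_two
    · have : k = 1 ∨ k = 2 ∨ k = 3 ∨ k = 4 := by omega
      rcases this with rfl | rfl | rfl | rfl
      · exact mixed_five_one.mono (by norm_num)
      · exact mixed_five_two.mono (by norm_num)
      · exact mixed_five_three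
      · exact mixed_five_four.mono (by norm_num)
    · omega

theorem not_dvd_double {p k : ℕ} (hp : p.Prime) (h2 : 2 < p) (hk : 1 ≤ k) (hkp : k < p) (j : ℕ) :
    ¬ p ∣ k ^ j + k ^ j := by
  intro h
  have h1 : k ^ j + k ^ j = 2 * k ^ j := by ring
  rw [h1, hp.dvd_mul] at h
  rcases h with h | h
  · exact absurd (Nat.le_of_dvd (by norm_num) h) (by omega)
  · exact absurd (Nat.le_of_dvd (by omega) (hp.dvd_of_dvd_pow h)) (by omega)

theorem pair_odd_pp {p e : ℕ} (hp : p.Prime) (h2 : p ≠ 2) {k₁ k₂ j : ℕ} (hk₁ : 1 ≤ k₁)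
    (hkn₁ : k₁ < p ^ (e + 1)) (hpk₁ : ¬ p ∣ k₁) (hk₂ : 1 ≤ k₂) (hkn₂ : k₂ < p ^ (e + 1))
    (hpk₂ : ¬ p ∣ k₂) (hj : p ^ (e + 1) ∣ k₁ ^ j + k₂ ^ j) :
    Mixed (p ^ (e + 1)) k₁ (p ^ (e + 1)) ∨ Mixed (p ^ (e + 1)) k₂ (p ^ (e + 1)) := by
  have hcop : ∀ k, ¬ p ∣ k → Nat.Coprime k (p ^ (e + 1)) := fun k hpk =>
    Nat.Coprime.pow_right _ ((Nat.Prime.coprime_iff_not_dvd hp).2 hpk).symm
  by_cases hE : e ≠ 0 ∨ 7 ≤ p
  · have : Fact (1 < p ^ (e + 1)) := ⟨one_lt_pp hp⟩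
    exact pair_of p (Nat.le_self_pow (Nat.succ_ne_zero e) p) (fun d h0 h1 => coprime_pp hp h0 h1)
      (bad_pp hp h2 hE) hk₁ hkn₁ (hcop _ hpk₁) hk₂ hkn₂ (hcop _ hpk₂) hj
  · push Not at hE
    obtain ⟨rfl, hp7⟩ := hE
    rw [zero_add, pow_one] at hkn₁ hkn₂ hj ⊢
    rcases odd_prime_cases hp h2 with rfl | rfl | h7
    · have h1 : k₁ = 1 ∨ k₁ = 2 := by omega
      have h2 : k₂ = 1 ∨ k₂ = 2 := by omega
      rcases h1 with rfl | rfl
      · exact Or.inl mixed_three_one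
      · rcases h2 with rfl | rfl
        · exact Or.inr mixed_three_one
        · exact absurd hj (not_dvd_double hp (by norm_num) hk₁ hkn₁ j)
    · have h1 : k₁ = 1 ∨ k₁ = 2 ∨ k₁ = 3 ∨ k₁ = 4 := by omega
      have h2 : k₂ = 1 ∨ k₂ = 2 ∨ k₂ = 3 ∨ k₂ = 4 := by omega
      rcases h1 with rfl | rfl | rfl | rfl
      · exact Or.inl mixed_five_one
      · exact Or.inl mixed_five_two
      · rcases h2 with rfl | rfl | rfl | rfl
        · exact Or.inr mixed_five_one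
        · exact Or.inr mixed_five_two
        · exact absurd hj (not_dvd_double hp (by norm_num) hk₁ hkn₁ j)
        · exact Or.inr mixed_five_four
      · exact Or.inl mixed_five_four
    · omega

theorem mixed_two_pp (e : ℕ) {k : ℕ} (hk : 1 ≤ k) (hkn : k < 2 ^ (e + 1)) (hodd : Odd k) :
    Mixed (2 ^ (e + 1)) k (3 * 2 ^ (e + 1)) := by
  rcases e with _ | _ | e
  · rw [zero_add, pow_one] at hkn ⊢
    obtain rfl : k = 1 := by omega
    exact mixed_two_one.mono (by norm_num)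
  · have h4 : 2 ^ (0 + 1 + 1) = 4 := by norm_num
    rw [h4] at hkn ⊢
    have : k = 1 ∨ k = 3 := by
      rw [Nat.odd_iff] at hodd
      omega
    rcases this with rfl | rfl
    · exact mixed_four_one.mono (by norm_num)
    · exact mixed_four_three.mono (by norm_num)
  · have hn : Fact (1 < 2 ^ (e + 3)) := ⟨Nat.one_lt_pow (by omega) (by norm_num)⟩
    have hcop : Nat.Coprime k (2 ^ (e + 3)) :=
      Nat.Coprime.pow_right _ (Nat.coprime_two_right.2 hodd)
    have hc3 : Nat.Coprime 3 (2 ^ (e + 3)) := Nat.Coprime.pow_right _ (by norm_num)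
    have hc17 : Nat.Coprime 17 (2 ^ (e + 3)) := Nat.Coprime.pow_right _ (by norm_num)
    have h8 : 8 ≤ 2 ^ (e + 3) := by
      have : 2 ^ 3 ≤ 2 ^ (e + 3) := Nat.pow_le_pow_right (by norm_num) (by omega)
      omega
    by_contra hm
    obtain ⟨s, hs⟩ := const_of_not_mixed hm
    have hc := const_class (C := 3) hk hkn hcop hs
    exact contra_two (good_small cm_lam (by norm_num) (U (2 ^ (e + 3)) k) hc hc3)
      (periodic_of_class cm_lam (by norm_num) (U (2 ^ (e + 3)) k) hc 17 (by norm_num)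
        (by omega) hc17).symm

/-- the general criterion, one class -/
theorem mixed_criterion {n a b : ℕ} (hn : 1 < n)
    (hs : ∀ q : ℕ, q.Prime → q ∣ a * b → q < n.minFac) (hab : a ≡ b [MOD n])
    (hodd : Odd (cardFactors (a * b))) {k : ℕ} (hk : 1 ≤ k) (hkn : k < n)
    (hcop : Nat.Coprime k n) : Mixed n k (2 * n) := by
  have : Fact (1 < n) := ⟨hn⟩
  exact mixed_of n.minFac (Nat.minFac_le (by omega)) (fun d h0 h1 => coprime_of_lt_minFac h0 h1)
    (fun hg => contra_smooth n.minFac (Nat.minFac_le (by omega))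
      (fun d h0 h1 => coprime_of_lt_minFac h0 h1) hg hs ((ZMod.natCast_eq_natCast_iff a b n).2 hab)
      hodd) hk hkn hcop

/-- the general criterion, two columns -/
theorem pair_criterion {n a b : ℕ} (hn : 1 < n)
    (hs : ∀ q : ℕ, q.Prime → q ∣ a * b → q < n.minFac) (hab : a ≡ b [MOD n])
    (hodd : Odd (cardFactors (a * b))) {k₁ k₂ j : ℕ} (hk₁ : 1 ≤ k₁) (hkn₁ : k₁ < n)
    (hc₁ : Nat.Coprime k₁ n) (hk₂ : 1 ≤ k₂) (hkn₂ : k₂ < n) (hc₂ : Nat.Coprime k₂ n)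
    (hj : n ∣ k₁ ^ j + k₂ ^ j) : Mixed n k₁ n ∨ Mixed n k₂ n := by
  have : Fact (1 < n) := ⟨hn⟩
  exact pair_of n.minFac (Nat.minFac_le (by omega)) (fun d h0 h1 => coprime_of_lt_minFac h0 h1)
    (fun hg => contra_smooth n.minFac (Nat.minFac_le (by omega))
      (fun d h0 h1 => coprime_of_lt_minFac h0 h1) hg hs ((ZMod.natCast_eq_natCast_iff a b n).2 hab)
      hodd) hk₁ hkn₁ hc₁ hk₂ hkn₂ hc₂ hj

/-- the pair of smooth numbers for moduli with prime factors `3 mod 4` -/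
theorem exists_pair {n q : ℕ} (hn : 1 < n) (hq : q.Prime) (hqn : q < n.minFac)
    (h : ∀ l : ℕ, l.Prime → l ∣ n → l % 4 = 3 ∧ IsSquare (q : ZMod l)) :
    ∃ a b : ℕ, (∀ r : ℕ, r.Prime → r ∣ a * b → r < n.minFac) ∧ a ≡ b [MOD n] ∧
      Odd (cardFactors (a * b)) := by
  obtain ⟨I, hI, hd⟩ := exists_odd_exp (n := n) (q := q) (by omega) hq.pos (by
    intro l hl hln
    obtain ⟨h1, h2⟩ := h l hl hln
    refine ⟨h1, h2, ?_⟩
    intro hlq
    have h3 := (Nat.prime_dvd_prime_iff_eq hl hq).1 hlq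
    have h4 := Nat.minFac_le_of_dvd hl.two_le hln
    omega)
  refine ⟨q ^ I, 1, ?_, ?_, ?_⟩
  · intro r hr hd
    rw [mul_one] at hd
    have := (Nat.prime_dvd_prime_iff_eq hr hq).1 (hr.dvd_of_dvd_pow hd)
    omega
  · exact ((Nat.modEq_iff_dvd' (Nat.one_le_pow _ _ hq.pos)).2 hd).symm
  · rw [mul_one, cardFactors_pow, cardFactors_apply_prime hq, mul_one]
    exact hI

end Pool.Agent.Helper68.CO2
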