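import Mathlib
import Pool.Agent.Helper68.CO2.Main

/-!
MP_418075_nt.  The number of columns without both parities, odd prime powers.
-/

set_option autoImplicit false

namespace Pool.Agent.Helper68.CO2

open ArithmeticFunction

theorem sq_one_pp {p e : ℕ} (hp : p.Prime) (h2 : p ≠ 2) (x : (ZMod (p ^ (e + 1)))ˣ)
    (hx : x * x = 1) : x = 1 ∨ x = -1 := by
  classical
  have h1n := one_lt_pp (e := e) hp
  have : NeZero (p ^ (e + 1)) := ⟨by omega⟩
  have hc : IsCyclic (ZMod (p ^ (e + 1)))ˣ := ZMod.isCyclic_units_of_prime_pow p hp h2 (e + 1)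
  by_contra hne
  rw [not_or] at hne
  have h3p : 3 ≤ p := by
    have := hp.two_le
    omega
  have h3 : 3 ≤ p ^ (e + 1) := h3p.trans (Nat.le_self_pow (Nat.succ_ne_zero e) p)
  have hneg : (1 : (ZMod (p ^ (e + 1)))ˣ) ≠ -1 := by
    intro h
    have h4 : ((1 : (ZMod (p ^ (e + 1)))ˣ) : ZMod (p ^ (e + 1))) = ((-1 : (ZMod (p ^ (e + 1)))ˣ) :
        ZMod (p ^ (e + 1))) := by rw [← h]
    rw [Units.val_neg, Units.val_one] at h4
    have h5 : ((2 : ℕ) : ZMod (p ^ (e + 1))) = 0 := by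
      push_cast
      linear_combination h4
    rw [ZMod.natCast_eq_zero_iff] at h5
    exact absurd (Nat.le_of_dvd (by norm_num) h5) (by omega)
  have hcard := IsCyclic.card_pow_eq_one_le (α := (ZMod (p ^ (e + 1)))ˣ) (n := 2) (by norm_num)
  have hsub : ({1, -1, x} : Finset (ZMod (p ^ (e + 1)))ˣ) ⊆
      Finset.univ.filter (fun a => a ^ 2 = 1) := by
    intro y hy
    rw [Finset.mem_filter]
    refine ⟨Finset.mem_univ _, ?_⟩
    rw [Finset.mem_insert, Finset.mem_insert, Finset.mem_singleton] at hy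
    rcases hy with rfl | rfl | rfl
    · exact one_pow 2
    · rw [neg_sq, one_pow]
    · rw [pow_two, hx]
  have hc3 : ({1, -1, x} : Finset (ZMod (p ^ (e + 1)))ˣ).card = 3 := by
    rw [Finset.card_insert_of_notMem, Finset.card_insert_of_notMem, Finset.card_singleton]
    · rw [Finset.mem_singleton]
      exact fun h => hne.2 h.symm
    · rw [Finset.mem_insert, Finset.mem_singleton, not_or]
      exact ⟨hneg, fun h => hne.1 h.symm⟩
  have := Finset.card_le_card hsub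
  omega

/-- the ratio of two failing columns has odd order -/
theorem pow_eq_of_fail {p e : ℕ} (hp : p.Prime) (h2 : p ≠ 2) {k₁ k₂ : ℕ} (hk₁ : 1 ≤ k₁)
    (hkn₁ : k₁ < p ^ (e + 1)) (hpk₁ : ¬ p ∣ k₁) (hk₂ : 1 ≤ k₂) (hkn₂ : k₂ < p ^ (e + 1))
    (hpk₂ : ¬ p ∣ k₂) (h₁ : ¬ Mixed (p ^ (e + 1)) k₁ (p ^ (e + 1)))
    (h₂ : ¬ Mixed (p ^ (e + 1)) k₂ (p ^ (e + 1))) {v o : ℕ} (hvo : p ^ e * (p - 1) = 2 ^ v * o) :
    (U (p ^ (e + 1)) k₂ * (U (p ^ (e + 1)) k₁)⁻¹) ^ o = 1 := by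
  have h1n := one_lt_pp (e := e) hp
  have : NeZero (p ^ (e + 1)) := ⟨by omega⟩
  have hcop : ∀ k, ¬ p ∣ k → Nat.Coprime k (p ^ (e + 1)) := fun k hpk =>
    Nat.Coprime.pow_right _ ((Nat.Prime.coprime_iff_not_dvd hp).2 hpk).symm
  have key : ∀ i, i ≤ v →
      (U (p ^ (e + 1)) k₂ * (U (p ^ (e + 1)) k₁)⁻¹) ^ (2 ^ (v - i) * o) = 1 := by
    intro i
    induction i with
    | zero =>
      intro _
      rw [Nat.sub_zero, ← hvo]
      have h3 := ZMod.pow_totient (U (p ^ (e + 1)) k₂ * (U (p ^ (e + 1)) k₁)⁻¹)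
      rw [Nat.totient_prime_pow hp (Nat.succ_pos e), Nat.succ_sub_one] at h3
      exact h3
    | succ i ih =>
      intro hi
      have h3 := ih (by omega)
      have h4 : 2 ^ (v - i) * o = (2 ^ (v - (i + 1)) * o) * 2 := by
        have h5 : v - i = (v - (i + 1)) + 1 := by omega
        rw [h5, pow_succ]
        ring
      rw [h4, pow_mul, pow_two] at h3
      rcases sq_one_pp hp h2 _ h3 with h3 | h3
      · exact h3
      · exfalso
        have h6 : p ^ (e + 1) ∣ k₁ ^ (2 ^ (v - (i + 1)) * o) + k₂ ^ (2 ^ (v - (i + 1)) * o) := by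
          rw [mul_pow, inv_pow, mul_inv_eq_iff_eq_mul] at h3
          have h7 : ((U (p ^ (e + 1)) k₂ ^ (2 ^ (v - (i + 1)) * o) : (ZMod (p ^ (e + 1)))ˣ) :
              ZMod (p ^ (e + 1))) = ((-1 * U (p ^ (e + 1)) k₁ ^ (2 ^ (v - (i + 1)) * o) :
              (ZMod (p ^ (e + 1)))ˣ) : ZMod (p ^ (e + 1))) := by rw [h3]
          rw [Units.val_mul, Units.val_neg, Units.val_one, Units.val_pow_eq_pow_val,
            Units.val_pow_eq_pow_val, coe_U (hcop _ hpk₁), coe_U (hcop _ hpk₂)] at h7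
          rw [← ZMod.natCast_eq_zero_iff, Nat.cast_add, Nat.cast_pow, Nat.cast_pow, h7]
          ring
        rcases pair_odd_pp hp h2 hk₁ hkn₁ hpk₁ hk₂ hkn₂ hpk₂ h6 with h | h
        · exact h₁ h
        · exact h₂ h
  have h7 := key v le_rfl
  rw [Nat.sub_self, pow_zero, one_mul] at h7
  exact h7

/-- the number of failing columns is at most the odd part of `φ (p ^ (e + 1))` -/
theorem card_fail {p e : ℕ} (hp : p.Prime) (h2 : p ≠ 2) {v o : ℕ}
    (hvo : p ^ e * (p - 1) = 2 ^ v * o) :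
    {k : ℕ | 1 ≤ k ∧ k < p ^ (e + 1) ∧ ¬ p ∣ k ∧
      ¬ Mixed (p ^ (e + 1)) k (p ^ (e + 1))}.ncard ≤ o := by
  classical
  have h1n := one_lt_pp (e := e) hp
  have : NeZero (p ^ (e + 1)) := ⟨by omega⟩
  have hc : IsCyclic (ZMod (p ^ (e + 1)))ˣ := ZMod.isCyclic_units_of_prime_pow p hp h2 (e + 1)
  have hcop : ∀ k, ¬ p ∣ k → Nat.Coprime k (p ^ (e + 1)) := fun k hpk =>
    Nat.Coprime.pow_right _ ((Nat.Prime.coprime_iff_not_dvd hp).2 hpk).symm
  have hp2 := hp.two_le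
  have ho : 0 < o := by
    rcases Nat.eq_zero_or_pos o with h | h
    · rw [h, mul_zero] at hvo
      have h3 : 0 < p ^ e * (p - 1) := Nat.mul_pos (Nat.pow_pos (by omega)) (by omega)
      omega
    · exact h
  obtain ⟨S, hS⟩ : ∃ S : Set ℕ, S = {k : ℕ | 1 ≤ k ∧ k < p ^ (e + 1) ∧ ¬ p ∣ k ∧
      ¬ Mixed (p ^ (e + 1)) k (p ^ (e + 1))} := ⟨_, rfl⟩
  rw [← hS]
  have hmem : ∀ k ∈ S, 1 ≤ k ∧ k < p ^ (e + 1) ∧ ¬ p ∣ k ∧
      ¬ Mixed (p ^ (e + 1)) k (p ^ (e + 1)) := by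
    intro k hk
    rw [hS] at hk
    exact hk
  rcases S.eq_empty_or_nonempty with h | ⟨k₀, hk₀⟩
  · rw [h, Set.ncard_empty]
    exact Nat.zero_le _
  · obtain ⟨a1, a2, a3, a4⟩ := hmem k₀ hk₀
    have hcard := IsCyclic.card_pow_eq_one_le (α := (ZMod (p ^ (e + 1)))ˣ) (n := o) ho
    refine le_trans ?_ hcard
    rw [← Set.ncard_coe_finset]
    refine Set.ncard_le_ncard_of_injOn
      (fun k => U (p ^ (e + 1)) k * (U (p ^ (e + 1)) k₀)⁻¹) ?_ ?_ (Finset.finite_toSet _)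
    · intro k hk
      obtain ⟨b1, b2, b3, b4⟩ := hmem k hk
      rw [Finset.mem_coe, Finset.mem_filter]
      exact ⟨Finset.mem_univ _, pow_eq_of_fail hp h2 a1 a2 a3 b1 b2 b3 a4 b4 hvo⟩
    · intro k hk l hl hkl
      obtain ⟨b1, b2, b3, _⟩ := hmem k hk
      obtain ⟨c1, c2, c3, _⟩ := hmem l hl
      have h5 : U (p ^ (e + 1)) k = U (p ^ (e + 1)) l := mul_right_cancel hkl
      have h6 : (k : ZMod (p ^ (e + 1))) = (l : ZMod (p ^ (e + 1))) := by
        rw [← coe_U (hcop k b3), ← coe_U (hcop l c3), h5]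
      have h7 := (ZMod.natCast_eq_natCast_iff' k l (p ^ (e + 1))).1 h6
      rwa [Nat.mod_eq_of_lt b2, Nat.mod_eq_of_lt c2] at h7

end Pool.Agent.Helper68.CO2
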