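import Mathlib

/-!
MP_418075_nt.  Pairs whose sum has a large prime factor.
-/

set_option autoImplicit false

namespace Pool.Agent.Helper68.CO2

open Finset

/-- few primes in `(z, 2 z]` -/
theorem few_primes {e z : ℕ} (h : 2 ^ e ≤ z) :
    e * ((Finset.Ioc z (2 * z)).filter Nat.Prime).card ≤ 2 * z := by
  have h1 : ∏ q ∈ (Finset.Ioc z (2 * z)).filter Nat.Prime, q ∣ (z + z).choose z := by
    refine Finset.prod_primes_dvd _ (fun q hq => ?_) (fun q hq => ?_)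
    · rw [Finset.mem_filter] at hq
      exact hq.2.prime
    · rw [Finset.mem_filter, Finset.mem_Ioc] at hq
      exact Nat.Prime.dvd_choose_add hq.2 hq.1.1 hq.1.1 (by omega)
  have h2 : ∏ q ∈ (Finset.Ioc z (2 * z)).filter Nat.Prime, q ≤ 2 ^ (2 * z) := by
    refine (Nat.le_of_dvd (Nat.choose_pos (by omega)) h1).trans ?_
    rw [← two_mul]
    exact Nat.choose_le_two_pow _ _
  have h3 : (2 ^ e) ^ ((Finset.Ioc z (2 * z)).filter Nat.Prime).card ≤
      ∏ q ∈ (Finset.Ioc z (2 * z)).filter Nat.Prime, q := by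
    refine Finset.pow_card_le_prod _ _ _ fun q hq => ?_
    rw [Finset.mem_filter, Finset.mem_Ioc] at hq
    omega
  rw [← pow_mul] at h3
  exact (Nat.pow_le_pow_iff_right (by norm_num)).1 (h3.trans h2)

/-- multiples in an interval -/
theorem mult_count (i M q : ℕ) (hq : 0 < q) :
    ((Finset.Icc 1 M).filter (fun j => q ∣ i + j)).card ≤ M / q + 1 := by
  have h1 : ((Finset.Icc 1 M).filter (fun j => q ∣ i + j)).card ≤
      ((Finset.Ioc i (i + M)).filter (fun x => q ∣ x)).card := by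
    refine Finset.card_le_card_of_injOn (fun j => i + j) ?_ ?_
    · intro j hj
      rw [Finset.mem_coe, Finset.mem_filter, Finset.mem_Icc] at hj
      rw [Finset.mem_coe, Finset.mem_filter, Finset.mem_Ioc]
      change (i < i + j ∧ i + j ≤ i + M) ∧ q ∣ i + j
      exact ⟨⟨by omega, by omega⟩, hj.2⟩
    · intro j _ j' _ h
      exact Nat.add_left_cancel h
  have h2 : ((Finset.Ioc 0 i).filter (fun x => q ∣ x)).card +
      ((Finset.Ioc i (i + M)).filter (fun x => q ∣ x)).card =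
      ((Finset.Ioc 0 (i + M)).filter (fun x => q ∣ x)).card := by
    rw [← Finset.card_union_of_disjoint, ← Finset.filter_union,
      Finset.Ioc_union_Ioc_eq_Ioc (Nat.zero_le i) (Nat.le_add_right i M)]
    rw [Finset.disjoint_left]
    intro x hx hx'
    rw [Finset.mem_filter, Finset.mem_Ioc] at hx hx'
    omega
  rw [Nat.Ioc_filter_dvd_card_eq_div, Nat.Ioc_filter_dvd_card_eq_div] at h2
  have h3 : (i + M) / q ≤ i / q + M / q + 1 := by
    have h4 := Nat.div_add_mod i q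
    have h5 := Nat.div_add_mod M q
    have h6 := Nat.mod_lt i hq
    have h7 := Nat.mod_lt M hq
    rw [Nat.div_le_iff_le_mul_add_pred hq]
    have h8 : q * (i / q + M / q + 1) = q * (i / q) + q * (M / q) + q := by ring
    omega
  omega

open Classical in
/-- pairs with a prime factor of the sum in `(z, 2 z]` -/
theorem bad_dyadic {e z M : ℕ} (hz : 0 < z) (h : 2 ^ e ≤ z) :
    e * (((Finset.Icc 1 M) ×ˢ (Finset.Icc 1 M)).filter
      (fun c : ℕ × ℕ => ∃ q : ℕ, q.Prime ∧ z < q ∧ q ≤ 2 * z ∧ q ∣ c.1 + c.2)).card ≤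
      2 * M ^ 2 + 2 * z * M := by
  have h1 : (((Finset.Icc 1 M) ×ˢ (Finset.Icc 1 M)).filter
      (fun c : ℕ × ℕ => ∃ q : ℕ, q.Prime ∧ z < q ∧ q ≤ 2 * z ∧ q ∣ c.1 + c.2)) ⊆
      ((Finset.Ioc z (2 * z)).filter Nat.Prime).biUnion (fun q =>
        ((Finset.Icc 1 M) ×ˢ (Finset.Icc 1 M)).filter (fun c => q ∣ c.1 + c.2)) := by
    intro c hc
    rw [Finset.mem_filter] at hc
    obtain ⟨hc1, q, hq, hzq, hqz, hd⟩ := hc
    rw [Finset.mem_biUnion]
    exact ⟨q, Finset.mem_filter.2 ⟨Finset.mem_Ioc.2 ⟨hzq, hqz⟩, hq⟩, Finset.mem_filter.2 ⟨hc1, hd⟩⟩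
  have h2 : ∀ q ∈ (Finset.Ioc z (2 * z)).filter Nat.Prime,
      (((Finset.Icc 1 M) ×ˢ (Finset.Icc 1 M)).filter (fun c => q ∣ c.1 + c.2)).card ≤
        M * (M / z + 1) := by
    intro q hq
    rw [Finset.mem_filter, Finset.mem_Ioc] at hq
    have h3 : (((Finset.Icc 1 M) ×ˢ (Finset.Icc 1 M)).filter (fun c => q ∣ c.1 + c.2)) ⊆
        (Finset.Icc 1 M).biUnion (fun i =>
          ((Finset.Icc 1 M).filter (fun j => q ∣ i + j)).image (fun j => (i, j))) := by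
      intro c hc
      rw [Finset.mem_filter, Finset.mem_product] at hc
      rw [Finset.mem_biUnion]
      exact ⟨c.1, hc.1.1, Finset.mem_image.2 ⟨c.2, Finset.mem_filter.2 ⟨hc.1.2, hc.2⟩, rfl⟩⟩
    refine (Finset.card_le_card h3).trans ?_
    refine (Finset.card_biUnion_le_card_mul _ _ (M / z + 1) ?_).trans ?_
    · intro i _
      refine Finset.card_image_le.trans ((mult_count i M q (by omega)).trans ?_)
      exact Nat.add_le_add_right (Nat.div_le_div_left (by omega) hz) 1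
    · rw [Nat.card_Icc, Nat.add_sub_cancel]
  have h4 := (Finset.card_le_card h1).trans (Finset.card_biUnion_le_card_mul _ _ _ h2)
  have h5 := few_primes h
  calc e * _ ≤ e * (((Finset.Ioc z (2 * z)).filter Nat.Prime).card * (M * (M / z + 1))) :=
        Nat.mul_le_mul_left e h4
    _ = e * ((Finset.Ioc z (2 * z)).filter Nat.Prime).card * (M * (M / z + 1)) := by ring
    _ ≤ 2 * z * (M * (M / z + 1)) := Nat.mul_le_mul_right _ h5
    _ = 2 * M * (M / z * z) + 2 * z * M := by ring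
    _ ≤ 2 * M * M + 2 * z * M :=
        Nat.add_le_add_right (Nat.mul_le_mul_left _ (Nat.div_mul_le_self M z)) _
    _ = 2 * M ^ 2 + 2 * z * M := by ring

open Classical in
/-- pairs with a prime factor of the sum in `(Y, 2 ^ r Y]` -/
theorem bad_all {e Y M : ℕ} (hY : 0 < Y) (h : 2 ^ e ≤ Y) : ∀ r : ℕ,
    e * (((Finset.Icc 1 M) ×ˢ (Finset.Icc 1 M)).filter
      (fun c : ℕ × ℕ => ∃ q : ℕ, q.Prime ∧ Y < q ∧ q ≤ 2 ^ r * Y ∧ q ∣ c.1 + c.2)).card ≤
      2 * r * M ^ 2 + 2 * (2 ^ r * Y) * M := by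
  intro r
  induction r with
  | zero =>
    have h0 : (((Finset.Icc 1 M) ×ˢ (Finset.Icc 1 M)).filter
      (fun c : ℕ × ℕ => ∃ q : ℕ, q.Prime ∧ Y < q ∧ q ≤ 2 ^ 0 * Y ∧ q ∣ c.1 + c.2)) = ∅ := by
      rw [Finset.filter_eq_empty_iff]
      rintro c _ ⟨q, _, h1, h2, _⟩
      rw [pow_zero, one_mul] at h2
      omega
    rw [h0, Finset.card_empty, mul_zero]
    exact Nat.zero_le _
  | succ r ih =>
    have hz : 0 < 2 ^ r * Y := Nat.mul_pos (Nat.pow_pos (by norm_num)) hY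
    have h2z : 2 ^ (r + 1) * Y = 2 * (2 ^ r * Y) := by rw [pow_succ]; ring
    have hle : 2 ^ e ≤ 2 ^ r * Y := h.trans (Nat.le_mul_of_pos_left Y (Nat.pow_pos (by norm_num)))
    have h1 := bad_dyadic (M := M) hz hle
    have hsub : (((Finset.Icc 1 M) ×ˢ (Finset.Icc 1 M)).filter
        (fun c : ℕ × ℕ => ∃ q : ℕ, q.Prime ∧ Y < q ∧ q ≤ 2 ^ (r + 1) * Y ∧ q ∣ c.1 + c.2)) ⊆
        (((Finset.Icc 1 M) ×ˢ (Finset.Icc 1 M)).filter
          (fun c : ℕ × ℕ => ∃ q : ℕ, q.Prime ∧ Y < q ∧ q ≤ 2 ^ r * Y ∧ q ∣ c.1 + c.2)) ∪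
        (((Finset.Icc 1 M) ×ˢ (Finset.Icc 1 M)).filter
          (fun c : ℕ × ℕ => ∃ q : ℕ, q.Prime ∧ 2 ^ r * Y < q ∧ q ≤ 2 * (2 ^ r * Y) ∧ q ∣ c.1 + c.2)) := by
      intro c hc
      rw [Finset.mem_filter] at hc
      obtain ⟨hc1, q, hq, hYq, hqz, hd⟩ := hc
      rw [Finset.mem_union, Finset.mem_filter, Finset.mem_filter]
      rcases Nat.lt_or_ge (2 ^ r * Y) q with h3 | h3
      · exact Or.inr ⟨hc1, q, hq, h3, by omega, hd⟩
      · exact Or.inl ⟨hc1, q, hq, hYq, h3, hd⟩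
    have h4 := (Finset.card_le_card hsub).trans (Finset.card_union_le _ _)
    calc e * _ ≤ e * (_ + _) := Nat.mul_le_mul_left e h4
      _ = e * _ + e * _ := Nat.mul_add _ _ _
      _ ≤ (2 * r * M ^ 2 + 2 * (2 ^ r * Y) * M) + (2 * M ^ 2 + 2 * (2 ^ r * Y) * M) :=
        Nat.add_le_add ih h1
      _ = 2 * (r + 1) * M ^ 2 + 2 * (2 ^ (r + 1) * Y) * M := by rw [h2z]; ring

/-- the previous bound with an unspecified set of pairs -/
theorem bad_all' {e Y M : ℕ} (hY : 0 < Y) (h : 2 ^ e ≤ Y) (r : ℕ) :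
    ∃ B : Finset (ℕ × ℕ), e * B.card ≤ 2 * r * M ^ 2 + 2 * (2 ^ r * Y) * M ∧
      ∀ c ∈ (Finset.Icc 1 M) ×ˢ (Finset.Icc 1 M),
        (∃ q : ℕ, q.Prime ∧ Y < q ∧ q ≤ 2 ^ r * Y ∧ q ∣ c.1 + c.2) → c ∈ B := by
  classical
  exact ⟨_, bad_all hY h r, fun c hc hq => Finset.mem_filter.2 ⟨hc, hq⟩⟩

end Pool.Agent.Helper68.CO2
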