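import Mathlib

/-!
MP_418075_nt.  Sums of two elements of a short set in a coset of a subgroup of `(ZMod p)ˣ`.
-/

set_option autoImplicit false

namespace Pool.Agent.Helper68.CO2

open Finset

section

variable {p : ℕ} [hp : Fact p.Prime]

/-- the exponential sum of a set -/
noncomputable def hat (S : Finset (ZMod p)) (a : ZMod p) : ℂ :=
  ∑ s ∈ S, ZMod.stdAddChar (a * s)

theorem orth (b : ZMod p) :
    ∑ a : ZMod p, (ZMod.stdAddChar (a * b) : ℂ) = if b = 0 then (p : ℂ) else 0 := by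
  have h := AddChar.sum_mulShift b (ZMod.isPrimitive_stdAddChar p)
  rw [h, ZMod.card]
  split_ifs <;> simp

/-- Parseval -/
theorem parseval (S : Finset (ZMod p)) :
    ∑ a : ZMod p, ‖hat S a‖ ^ 2 = (p : ℝ) * S.card := by
  classical
  have h1 : ∀ a : ZMod p, ((‖hat S a‖ ^ 2 : ℝ) : ℂ) =
      ∑ s ∈ S, ∑ t ∈ S, (ZMod.stdAddChar (a * (s - t)) : ℂ) := by
    intro a
    rw [Complex.ofReal_pow, ← Complex.conj_mul', mul_comm]
    unfold hat
    rw [map_sum, Finset.sum_mul_sum]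
    refine Finset.sum_congr rfl fun s _ => Finset.sum_congr rfl fun t _ => ?_
    rw [← AddChar.map_neg_eq_conj, ← AddChar.map_add_eq_mul]
    congr 1
    ring
  have h2 : ((∑ a : ZMod p, ‖hat S a‖ ^ 2 : ℝ) : ℂ) = ((p : ℝ) * S.card : ℝ) := by
    rw [Complex.ofReal_sum]
    simp only [h1]
    rw [Finset.sum_comm]
    have h3 : ∀ s ∈ S, ∑ a : ZMod p, ∑ t ∈ S, (ZMod.stdAddChar (a * (s - t)) : ℂ) = p := by
      intro s hs
      rw [Finset.sum_comm]
      have h4 : ∀ t ∈ S, ∑ a : ZMod p, (ZMod.stdAddChar (a * (s - t)) : ℂ) =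
          if s = t then (p : ℂ) else 0 := by
        intro t _
        rw [orth]
        by_cases h : s = t
        · rw [if_pos h, if_pos (sub_eq_zero.2 h)]
        · rw [if_neg h, if_neg (sub_ne_zero.2 h)]
      rw [Finset.sum_congr rfl h4, Finset.sum_ite_eq, if_pos hs]
    rw [Finset.sum_congr rfl h3, Finset.sum_const, nsmul_eq_mul]
    push_cast
    ring
  exact_mod_cast h2

/-- the bound for the exponential sums of a set invariant under a subgroup of its size -/
theorem hat_bound (H : Subgroup (ZMod p)ˣ) (S : Finset (ZMod p))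
    (hS : ∀ h ∈ H, ∀ s ∈ S, ((h : (ZMod p)ˣ) : ZMod p) * s ∈ S) (hcard : S.card = Nat.card H)
    {a : ZMod p} (ha : a ≠ 0) : ‖hat S a‖ ^ 2 ≤ p := by
  classical
  have hfin : Fintype H := Fintype.ofFinite H
  have hinv : ∀ h : H, hat S (((h : (ZMod p)ˣ) : ZMod p) * a) = hat S a := by
    intro h
    unfold hat
    refine Finset.sum_bij' (fun s _ => (((h : (ZMod p)ˣ)) : ZMod p) * s)
      (fun s _ => (((h⁻¹ : H) : (ZMod p)ˣ) : ZMod p) * s) ?_ ?_ ?_ ?_ ?_
    · intro s hs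
      exact hS _ h.2 s hs
    · intro s hs
      exact hS _ (h⁻¹).2 s hs
    · intro s _
      rw [← mul_assoc, ← Units.val_mul, ← Subgroup.coe_mul, inv_mul_cancel, Subgroup.coe_one,
        Units.val_one, one_mul]
    · intro s _
      rw [← mul_assoc, ← Units.val_mul, ← Subgroup.coe_mul, mul_inv_cancel, Subgroup.coe_one,
        Units.val_one, one_mul]
    · intro s _
      congr 1
      ring
  have h1 : ∑ h : H, ‖hat S (((h : (ZMod p)ˣ) : ZMod p) * a)‖ ^ 2 ≤
      ∑ b : ZMod p, ‖hat S b‖ ^ 2 := by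
    have hinj : Function.Injective (fun h : H => (((h : (ZMod p)ˣ)) : ZMod p) * a) := by
      intro h h' hh
      have h2 : (((h : (ZMod p)ˣ)) : ZMod p) = (((h' : (ZMod p)ˣ)) : ZMod p) :=
        mul_right_cancel₀ ha hh
      exact Subtype.ext (Units.ext h2)
    rw [← Finset.sum_image (f := fun b : ZMod p => ‖hat S b‖ ^ 2)
      (g := fun h : H => (((h : (ZMod p)ˣ)) : ZMod p) * a) (s := Finset.univ)
      (fun x _ y _ h => hinj h)]
    exact Finset.sum_le_sum_of_subset_of_nonneg (Finset.subset_univ _)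
      (fun _ _ _ => by positivity)
  rw [parseval, Finset.sum_congr rfl (fun h _ => by rw [hinv h]), Finset.sum_const,
    Finset.card_univ, nsmul_eq_mul, hcard, ← Nat.card_eq_fintype_card, mul_comm] at h1
  have h0 : (0 : ℝ) < (Nat.card H : ℝ) := by
    have : 0 < Nat.card H := Nat.card_pos
    exact_mod_cast this
  exact le_of_mul_le_mul_right h1 h0

/-- the number of pairs of a set `I` with sum in `S` -/
theorem pair_count (H : Subgroup (ZMod p)ˣ) (S I : Finset (ZMod p))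
    (hS : ∀ h ∈ H, ∀ s ∈ S, ((h : (ZMod p)ˣ) : ZMod p) * s ∈ S) (hcard : S.card = Nat.card H) :
    |(p : ℝ) * (((I ×ˢ I).filter (fun c => c.1 + c.2 ∈ S)).card : ℝ) -
      (S.card : ℝ) * (I.card : ℝ) ^ 2| ≤ Real.sqrt p * (p * I.card) := by
  classical
  have hN : (((p : ℝ) * (((I ×ˢ I).filter (fun c => c.1 + c.2 ∈ S)).card : ℝ) : ℝ) : ℂ) =
      ∑ a : ZMod p, (hat I a) ^ 2 * (starRingEnd ℂ) (hat S a) := by
    have h1 : ∀ a : ZMod p, (hat I a) ^ 2 * (starRingEnd ℂ) (hat S a) =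
        ∑ c ∈ I ×ˢ I, ∑ s ∈ S, (ZMod.stdAddChar (a * (c.1 + c.2 - s)) : ℂ) := by
      intro a
      unfold hat
      rw [pow_two, Finset.sum_mul_sum, ← Finset.sum_product', map_sum, Finset.sum_mul_sum]
      refine Finset.sum_congr rfl fun c _ => Finset.sum_congr rfl fun s _ => ?_
      rw [← AddChar.map_neg_eq_conj, ← AddChar.map_add_eq_mul, ← AddChar.map_add_eq_mul]
      congr 1
      ring
    simp only [h1]
    rw [Finset.sum_comm]
    have h2 : ∀ c ∈ I ×ˢ I, ∑ a : ZMod p, ∑ s ∈ S, (ZMod.stdAddChar (a * (c.1 + c.2 - s)) : ℂ) =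
        if c.1 + c.2 ∈ S then (p : ℂ) else 0 := by
      intro c _
      rw [Finset.sum_comm]
      have h4 : ∀ s ∈ S, ∑ a : ZMod p, (ZMod.stdAddChar (a * (c.1 + c.2 - s)) : ℂ) =
          if c.1 + c.2 = s then (p : ℂ) else 0 := by
        intro s _
        rw [orth]
        by_cases h : c.1 + c.2 = s
        · rw [if_pos h, if_pos (sub_eq_zero.2 h)]
        · rw [if_neg h, if_neg (sub_ne_zero.2 h)]
      rw [Finset.sum_congr rfl h4, Finset.sum_ite_eq]
    rw [Finset.sum_congr rfl h2, ← Finset.sum_filter, Finset.sum_const, nsmul_eq_mul]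
    push_cast
    ring
  have h0 : hat I (0 : ZMod p) = I.card := by
    unfold hat
    simp
  have h0' : hat S (0 : ZMod p) = S.card := by
    unfold hat
    simp
  have hsplit : ∑ a : ZMod p, (hat I a) ^ 2 * (starRingEnd ℂ) (hat S a) =
      (I.card : ℂ) ^ 2 * S.card +
        ∑ a ∈ Finset.univ.erase (0 : ZMod p), (hat I a) ^ 2 * (starRingEnd ℂ) (hat S a) := by
    rw [← Finset.add_sum_erase _ _ (Finset.mem_univ (0 : ZMod p)), h0, h0', map_natCast]
  have hdiff : (((p : ℝ) * (((I ×ˢ I).filter (fun c => c.1 + c.2 ∈ S)).card : ℝ) -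
      (S.card : ℝ) * (I.card : ℝ) ^ 2 : ℝ) : ℂ) =
        ∑ a ∈ Finset.univ.erase (0 : ZMod p), (hat I a) ^ 2 * (starRingEnd ℂ) (hat S a) := by
    rw [Complex.ofReal_sub, hN, hsplit]
    push_cast
    ring
  have h5 : |(p : ℝ) * (((I ×ˢ I).filter (fun c => c.1 + c.2 ∈ S)).card : ℝ) -
      (S.card : ℝ) * (I.card : ℝ) ^ 2| =
      ‖∑ a ∈ Finset.univ.erase (0 : ZMod p), (hat I a) ^ 2 * (starRingEnd ℂ) (hat S a)‖ := by
    rw [← hdiff, Complex.norm_real, Real.norm_eq_abs]
  rw [h5]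
  calc ‖∑ a ∈ Finset.univ.erase (0 : ZMod p), (hat I a) ^ 2 * (starRingEnd ℂ) (hat S a)‖
      ≤ ∑ a ∈ Finset.univ.erase (0 : ZMod p), ‖(hat I a) ^ 2 * (starRingEnd ℂ) (hat S a)‖ :=
        norm_sum_le _ _
    _ ≤ ∑ a ∈ Finset.univ.erase (0 : ZMod p), Real.sqrt p * ‖hat I a‖ ^ 2 := by
        refine Finset.sum_le_sum fun a ha => ?_
        rw [Finset.mem_erase] at ha
        rw [norm_mul, norm_pow, RCLike.norm_conj, mul_comm]
        refine mul_le_mul_of_nonneg_right ?_ (by positivity)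
        exact Real.le_sqrt_of_sq_le (hat_bound H S hS hcard ha.1)
    _ = Real.sqrt p * ∑ a ∈ Finset.univ.erase (0 : ZMod p), ‖hat I a‖ ^ 2 := by
        rw [Finset.mul_sum]
    _ ≤ Real.sqrt p * ∑ a : ZMod p, ‖hat I a‖ ^ 2 := by
        refine mul_le_mul_of_nonneg_left ?_ (Real.sqrt_nonneg _)
        exact Finset.sum_le_sum_of_subset_of_nonneg (Finset.subset_univ _)
          (fun _ _ _ => by positivity)
    _ = Real.sqrt p * (p * I.card) := by rw [parseval]

end

end Pool.Agent.Helper68.CO2
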