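import Mathlib

/-!
MP_418075_nt.  The choice of parameters for the bound on the number of failing columns.
-/

set_option autoImplicit false

namespace Pool.Agent.Helper68.CO2

theorem numer_fin {p h T X : ℕ} (h1 : h ^ 2 ≤ X * p) (h2 : X ^ 11 ≤ T ^ 33 * p ^ 9) :
    h ^ 22 ≤ T ^ 33 * p ^ 20 := by
  calc h ^ 22 = (h ^ 2) ^ 11 := by rw [← pow_mul]
    _ ≤ (X * p) ^ 11 := Nat.pow_le_pow_left h1 11
    _ = X ^ 11 * p ^ 11 := mul_pow _ _ _
    _ ≤ (T ^ 33 * p ^ 9) * p ^ 11 := Nat.mul_le_mul_right _ h2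
    _ = T ^ 33 * p ^ 20 := by rw [mul_assoc, ← pow_add]

/-- from `p ≤ c * m` and `h ^ 2 * m ^ 2 ≤ p ^ 3` -/
theorem numer_sq {p h m c : ℕ} (hp : 0 < p) (h1 : p ≤ c * m) (h2 : h ^ 2 * m ^ 2 ≤ p ^ 3) :
    h ^ 2 ≤ c ^ 2 * p := by
  have h3 : h ^ 2 * p ^ 2 ≤ c ^ 2 * p * p ^ 2 := by
    calc h ^ 2 * p ^ 2 ≤ h ^ 2 * (c * m) ^ 2 := Nat.mul_le_mul_left _ (Nat.pow_le_pow_left h1 2)
      _ = c ^ 2 * (h ^ 2 * m ^ 2) := by ring
      _ ≤ c ^ 2 * p ^ 3 := Nat.mul_le_mul_left _ h2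
      _ = c ^ 2 * p * p ^ 2 := by ring
  exact Nat.le_of_mul_le_mul_right h3 (Nat.pow_pos hp)

/-- the last case -/
theorem numer_last {p Y M s e r : ℕ} (hs1 : 1 ≤ s) (hs : s ^ 2 ≤ p) (hM : M = 36 * (s + 1))
    (he : Y < 2 ^ (e + 1)) (hr : 2 ^ r * Y ≤ 4 * M) (h9 : 2 * e < 9 * r) :
    (64 * Y ^ 2) ^ 11 ≤ 2 ^ 221 * p ^ 9 := by
  have h1 : Y ^ 2 ≤ 2 * 2 ^ (9 * r) := by
    calc Y ^ 2 ≤ (2 ^ (e + 1)) ^ 2 := Nat.pow_le_pow_left he.le 2
      _ = 2 ^ (2 * e + 2) := by rw [← pow_mul]; ring_nf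
      _ ≤ 2 ^ (9 * r + 1) := Nat.pow_le_pow_right (by norm_num) (by omega)
      _ = 2 * 2 ^ (9 * r) := by rw [pow_succ]; ring
  have h2 : Y ^ 11 ≤ 2 * (4 * M) ^ 9 := by
    calc Y ^ 11 = Y ^ 2 * Y ^ 9 := by rw [← pow_add]
      _ ≤ (2 * 2 ^ (9 * r)) * Y ^ 9 := Nat.mul_le_mul_right _ h1
      _ = 2 * (2 ^ r * Y) ^ 9 := by rw [mul_pow, ← pow_mul, mul_comm r 9]; ring
      _ ≤ 2 * (4 * M) ^ 9 := Nat.mul_le_mul_left _ (Nat.pow_le_pow_left hr 9)
  have h3 : 16 * M ^ 2 ≤ 2 ^ 17 * p := by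
    have h4 : (s + 1) ^ 2 ≤ 4 * s ^ 2 := by nlinarith
    calc 16 * M ^ 2 = 20736 * (s + 1) ^ 2 := by rw [hM]; ring
      _ ≤ 20736 * (4 * s ^ 2) := Nat.mul_le_mul_left _ h4
      _ ≤ 20736 * (4 * p) := Nat.mul_le_mul_left _ (Nat.mul_le_mul_left _ hs)
      _ ≤ 2 ^ 17 * p := by
          have : 20736 * 4 ≤ 2 ^ 17 := by norm_num
          calc 20736 * (4 * p) = (20736 * 4) * p := by ring
            _ ≤ 2 ^ 17 * p := Nat.mul_le_mul_right _ this
  calc (64 * Y ^ 2) ^ 11 = 64 ^ 11 * (Y ^ 11) ^ 2 := by rw [mul_pow, ← pow_mul, ← pow_mul]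
    _ ≤ 64 ^ 11 * (2 * (4 * M) ^ 9) ^ 2 := Nat.mul_le_mul_left _ (Nat.pow_le_pow_left h2 2)
    _ = 64 ^ 11 * 4 * (16 * M ^ 2) ^ 9 := by ring
    _ ≤ 64 ^ 11 * 4 * (2 ^ 17 * p) ^ 9 := Nat.mul_le_mul_left _ (Nat.pow_le_pow_left h3 9)
    _ = (64 ^ 11 * 4 * (2 ^ 17) ^ 9) * p ^ 9 := by rw [mul_pow, ← mul_assoc]
    _ = 2 ^ 221 * p ^ 9 := by norm_num

theorem numerics {p h T : ℕ} (hT : T = 2 ^ 289) (hp7 : 7 ≤ p) (hh : 1 ≤ h) (h2h : 2 * h < p)
    (G : ℕ → Prop)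
    (hgood : ∀ M d : ℕ, 0 < M → 2 * M < p → p ^ 3 < h ^ 2 * M ^ 2 → 0 < d → d * (2 * M) < p → G d)
    (hcontra : ∀ M Y e r : ℕ, Y < p → (∀ d, 0 < d → d ≤ Y → G d) → 2 * M < p →
      1296 * p < M ^ 2 → 2 * M ≤ 2 ^ r * Y → 2 ^ r * Y ≤ 4 * M → 9 * r ≤ 2 * e → 288 ≤ e →
      2 ^ e ≤ Y → False) :
    h ^ 22 ≤ T ^ 33 * p ^ 20 := by
  have hT221 : 2 ^ 221 ≤ T := by
    rw [hT]
    exact Nat.pow_le_pow_right (by norm_num) (by norm_num)
  have hT145 : 145 ≤ T := le_trans (by norm_num) hT221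
  have hp0 : 0 < p := by omega
  have hT33 : T ≤ T ^ 33 := Nat.le_self_pow (by norm_num) T
  have hTp : ∀ x : ℕ, x ≤ x * p ^ 9 := fun x => Nat.le_mul_of_pos_right _ (Nat.pow_pos hp0)
  have hex : ∃ M, p ^ 3 < h ^ 2 * M ^ 2 := by
    refine ⟨p ^ 2, ?_⟩
    have h1 : p ^ 3 < p ^ 4 := Nat.pow_lt_pow_right (by omega) (by norm_num)
    have h2 : p ^ 4 ≤ h ^ 2 * (p ^ 2) ^ 2 := by
      rw [← pow_mul]
      exact Nat.le_mul_of_pos_left _ (Nat.pow_pos hh)
    omega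
  obtain ⟨M0, hM0, hmin⟩ : ∃ M0, p ^ 3 < h ^ 2 * M0 ^ 2 ∧ ∀ m < M0, h ^ 2 * m ^ 2 ≤ p ^ 3 := by
    classical
    refine ⟨Nat.find hex, Nat.find_spec hex, fun m hm => ?_⟩
    exact Nat.not_lt.1 (Nat.find_min hex hm)
  have hM2 : 2 ≤ M0 := by
    by_contra hlt
    have h1 : M0 ≤ 1 := by omega
    have h2 : h ^ 2 * M0 ^ 2 ≤ p ^ 3 := by
      calc h ^ 2 * M0 ^ 2 ≤ h ^ 2 * 1 ^ 2 := Nat.mul_le_mul_left _ (Nat.pow_le_pow_left h1 2)
        _ = h ^ 2 := by ring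
        _ ≤ p ^ 2 := Nat.pow_le_pow_left (by omega) 2
        _ ≤ p ^ 3 := Nat.pow_le_pow_right hp0 (by norm_num)
    omega
  obtain ⟨m, rfl⟩ : ∃ m, M0 = m + 1 := ⟨M0 - 1, by omega⟩
  have hm := hmin m (by omega)
  rcases Nat.lt_or_ge (2 * (m + 1)) p with hA | hA
  · -- the main case
    obtain ⟨Y0, hY0⟩ : ∃ Y0, Y0 = (p - 1) / (2 * (m + 1)) := ⟨_, rfl⟩
    have hY0a : Y0 * (2 * (m + 1)) ≤ p - 1 := by
      rw [hY0]
      exact Nat.div_mul_le_self _ _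
    have hY0b : p ≤ (Y0 + 1) * (2 * (m + 1)) := by
      have h1 := Nat.lt_div_mul_add (a := p - 1) (b := 2 * (m + 1)) (by omega)
      rw [← hY0] at h1
      have h2 : (Y0 + 1) * (2 * (m + 1)) = Y0 * (2 * (m + 1)) + 2 * (m + 1) := by ring
      omega
    have hY01 : 1 ≤ Y0 := by
      rw [hY0]
      exact Nat.div_pos (by omega) (by omega)
    have hpm : p ≤ 8 * Y0 * m := by
      calc p ≤ (Y0 + 1) * (2 * (m + 1)) := hY0b
        _ ≤ (2 * Y0) * (4 * m) := Nat.mul_le_mul (by omega) (by omega)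
        _ = 8 * Y0 * m := by ring
    have hX : h ^ 2 ≤ (64 * Y0 ^ 2) * p := by
      have h1 := numer_sq hp0 hpm hm
      calc h ^ 2 ≤ (8 * Y0) ^ 2 * p := h1
        _ = (64 * Y0 ^ 2) * p := by ring
    have hG : ∀ d, 0 < d → d ≤ Y0 → G d := by
      intro d hd hdY
      refine hgood (m + 1) d (by omega) hA hM0 hd ?_
      have h1 : d * (2 * (m + 1)) ≤ Y0 * (2 * (m + 1)) := Nat.mul_le_mul_right _ hdY
      omega
    rcases Nat.lt_or_ge Y0 T with hB | hB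
    · refine numer_fin hX ?_
      calc (64 * Y0 ^ 2) ^ 11 ≤ (T * T ^ 2) ^ 11 :=
            Nat.pow_le_pow_left (Nat.mul_le_mul (by omega) (Nat.pow_le_pow_left hB.le 2)) 11
        _ = T ^ 33 := by rw [← pow_succ', ← pow_mul]
        _ ≤ T ^ 33 * p ^ 9 := hTp _
    · rcases Nat.lt_or_ge p (T ^ 2) with hC | hC
      · calc h ^ 22 ≤ p ^ 22 := Nat.pow_le_pow_left (by omega) 22
          _ = p ^ 2 * p ^ 20 := by rw [← pow_add]
          _ ≤ (T ^ 2) ^ 2 * p ^ 20 := Nat.mul_le_mul_right _ (Nat.pow_le_pow_left hC.le 2)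
          _ ≤ T ^ 33 * p ^ 20 := by
              rw [← pow_mul]
              exact Nat.mul_le_mul_right _ (Nat.pow_le_pow_right (by omega) (by norm_num))
      · obtain ⟨s, hs⟩ : ∃ s, s = Nat.sqrt p := ⟨_, rfl⟩
        have hsT : T ≤ s := by
          rw [hs]
          exact Nat.le_sqrt'.2 hC
        have hs2 : s ^ 2 ≤ p := by
          rw [hs]
          exact Nat.sqrt_le' p
        have hs3 : p < (s + 1) ^ 2 := by
          rw [hs]
          exact Nat.lt_succ_sqrt' p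
        obtain ⟨M, hM⟩ : ∃ M, M = 36 * (s + 1) := ⟨_, rfl⟩
        have h2M : 2 * M < p := by
          have h1 : 145 * s ≤ s ^ 2 := by
            rw [pow_two]
            exact Nat.mul_le_mul_right _ (by omega)
          omega
        have hMp : 1296 * p < M ^ 2 := by
          have h1 : M ^ 2 = 1296 * (s + 1) ^ 2 := by rw [hM]; ring
          omega
        obtain ⟨Y, hY⟩ : ∃ Y, Y = min Y0 (2 * M) := ⟨_, rfl⟩
        have hYT : T ≤ Y := by
          rw [hY]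
          exact le_min hB (by omega)
        have hY1 : Y ≤ Y0 := by
          rw [hY]
          exact min_le_left _ _
        have hY2 : Y ≤ 2 * M := by
          rw [hY]
          exact min_le_right _ _
        obtain ⟨e, he⟩ : ∃ e, e = Nat.log 2 Y := ⟨_, rfl⟩
        have he1 : 2 ^ e ≤ Y := by
          rw [he]
          exact Nat.pow_log_le_self 2 (by omega)
        have he2 : Y < 2 ^ (e + 1) := by
          rw [he]
          exact Nat.lt_pow_succ_log_self (by norm_num) Y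
        have he3 : 288 ≤ e := by
          rw [he]
          refine Nat.le_log_of_pow_le (by norm_num) ?_
          refine le_trans ?_ hYT
          rw [hT]
          exact Nat.pow_le_pow_right (by norm_num) (by norm_num)
        have hexr : ∃ r, 2 * M ≤ 2 ^ r * Y := by
          refine ⟨2 * M, ?_⟩
          have h1 : 2 * M < 2 ^ (2 * M) := Nat.lt_two_pow_self
          have h2 : 2 ^ (2 * M) ≤ 2 ^ (2 * M) * Y := Nat.le_mul_of_pos_right _ (by omega)
          omega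
        obtain ⟨r, hr1, hrmin⟩ : ∃ r, 2 * M ≤ 2 ^ r * Y ∧ ∀ i < r, 2 ^ i * Y < 2 * M := by
          classical
          refine ⟨Nat.find hexr, Nat.find_spec hexr, fun i hi => ?_⟩
          exact Nat.not_le.1 (Nat.find_min hexr hi)
        have hr2 : 2 ^ r * Y ≤ 4 * M := by
          rcases r with _ | i
          · rw [pow_zero, one_mul]
            omega
          · have h1 := hrmin i (by omega)
            rw [pow_succ]
            have h2 : 2 ^ i * 2 * Y = 2 * (2 ^ i * Y) := by ring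
            omega
        rcases Nat.lt_or_ge (2 * e) (9 * r) with hD | hD
        · have hYY : Y = Y0 := by
            have h1 := hrmin 0 (by omega)
            rw [pow_zero, one_mul] at h1
            rcases min_choice Y0 (2 * M) with h2 | h2
            · rw [hY, h2]
            · rw [hY, h2] at h1
              omega
          refine numer_fin hX ?_
          rw [← hYY]
          refine (numer_last (by omega) hs2 hM he2 hr2 hD).trans ?_
          exact Nat.mul_le_mul_right _ (hT221.trans hT33)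
        · exact absurd (hcontra M Y e r (by omega) (fun d hd hdY => hG d hd (hdY.trans hY1)) h2M hMp
            hr1 hr2 hD he3 he1) id
  · have hpm : p ≤ 4 * m := by omega
    have hX := numer_sq hp0 hpm hm
    refine numer_fin hX ?_
    calc (4 ^ 2) ^ 11 ≤ T ^ 11 := Nat.pow_le_pow_left (by omega) 11
      _ ≤ T ^ 33 := Nat.pow_le_pow_right (by omega) (by norm_num)
      _ ≤ T ^ 33 * p ^ 9 := hTp _

end Pool.Agent.Helper68.CO2
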