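import Mathlib
import Pool.Agent.Helper68.CO2.Count
import Pool.Agent.Helper68.CO2.Four
import Pool.Agent.Helper68.CO2.Dyad
import Pool.Agent.Helper68.CO2.Numer

/-!
MP_418075_nt.  The number of columns without both parities modulo a prime.
-/

set_option autoImplicit false

namespace Pool.Agent.Helper68.CO2

open ArithmeticFunction

section

variable {p : ℕ} [hp : Fact p.Prime]

/-- a coset of a subgroup as a set of residues -/
theorem cosetSet_exists (H : Subgroup (ZMod p)ˣ) (u : (ZMod p)ˣ) :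
    ∃ S : Finset (ZMod p), S.card = Nat.card H ∧
      ∀ x, x ∈ S ↔ ∃ h ∈ H, ((h * u : (ZMod p)ˣ) : ZMod p) = x := by
  classical
  obtain ⟨T, hT⟩ : ∃ T : Set (ZMod p),
      T = (fun h : (ZMod p)ˣ => ((h * u : (ZMod p)ˣ) : ZMod p)) '' (H : Set (ZMod p)ˣ) := ⟨_, rfl⟩
  have hfin : T.Finite := Set.toFinite T
  refine ⟨hfin.toFinset, ?_, ?_⟩
  · rw [← Set.ncard_eq_toFinset_card T hfin, hT, Set.ncard_image_of_injective]
    · exact (Nat.card_coe_set_eq _).symm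
    · intro a b h
      exact mul_right_cancel (Units.ext h)
  · intro x
    rw [Set.Finite.mem_toFinset, hT]
    rfl

theorem cosetSet_stable (H : Subgroup (ZMod p)ˣ) (u : (ZMod p)ˣ) {S : Finset (ZMod p)}
    (hmem : ∀ x, x ∈ S ↔ ∃ h ∈ H, ((h * u : (ZMod p)ˣ) : ZMod p) = x) :
    ∀ h ∈ H, ∀ s ∈ S, ((h : (ZMod p)ˣ) : ZMod p) * s ∈ S := by
  intro h hh s hs
  obtain ⟨g, hg, rfl⟩ := (hmem s).1 hs
  exact (hmem _).2 ⟨h * g, mul_mem hh hg, by rw [mul_assoc, Units.val_mul]⟩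

theorem card_interval {M : ℕ} (hM : M < p) :
    ((Finset.Icc 1 M).image (fun i : ℕ => (i : ZMod p))).card = M := by
  rw [Finset.card_image_of_injOn, Nat.card_Icc, Nat.add_sub_cancel]
  intro i hi j hj h
  rw [Finset.mem_coe, Finset.mem_Icc] at hi hj
  have h1 := (ZMod.natCast_eq_natCast_iff' i j p).1 h
  rwa [Nat.mod_eq_of_lt (by omega), Nat.mod_eq_of_lt (by omega)] at h1

/-- every coset of a large subgroup has a small positive representative -/
theorem small_rep (H : Subgroup (ZMod p)ˣ) {M : ℕ} (hM : 0 < M) (h2M : 2 * M < p)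
    (hh : p ^ 3 < (Nat.card H) ^ 2 * M ^ 2) (u : (ZMod p)ˣ) :
    ∃ g ∈ H, ((g * u : (ZMod p)ˣ) : ZMod p).val ≤ 2 * M := by
  classical
  obtain ⟨S, hcard, hmem⟩ := cosetSet_exists H u
  have hS := cosetSet_stable H u hmem
  obtain ⟨I, hI⟩ : ∃ I : Finset (ZMod p), I = (Finset.Icc 1 M).image (fun i : ℕ => (i : ZMod p)) :=
    ⟨_, rfl⟩
  have hIc : I.card = M := by
    rw [hI]
    exact card_interval (by omega)
  by_cases hE : (((I ×ˢ I).filter (fun c => c.1 + c.2 ∈ S)).card) = 0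
  · exfalso
    have h1 := pair_count H S I hS hcard
    rw [hE, hcard, hIc, Nat.cast_zero, mul_zero, zero_sub, abs_neg] at h1
    have h2 : (Nat.card H : ℝ) * (M : ℝ) ^ 2 ≤ Real.sqrt p * (p * M) := (le_abs_self _).trans h1
    have hM' : (0 : ℝ) < M := by exact_mod_cast hM
    have h3 : (Nat.card H : ℝ) * M ≤ Real.sqrt p * p := by
      have h4 : ((Nat.card H : ℝ) * M) * M ≤ (Real.sqrt p * p) * M := by
        calc ((Nat.card H : ℝ) * M) * M = (Nat.card H : ℝ) * (M : ℝ) ^ 2 := by ring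
          _ ≤ Real.sqrt p * (p * M) := h2
          _ = (Real.sqrt p * p) * M := by ring
      exact le_of_mul_le_mul_right h4 hM'
    have h4 : ((Nat.card H : ℝ) * M) ^ 2 ≤ (Real.sqrt p * p) ^ 2 :=
      pow_le_pow_left₀ (by positivity) h3 2
    rw [mul_pow, mul_pow, Real.sq_sqrt (by positivity)] at h4
    have h5 : (Nat.card H) ^ 2 * M ^ 2 ≤ p * p ^ 2 := by exact_mod_cast h4
    have h6 : p * p ^ 2 = p ^ 3 := by ring
    omega
  · obtain ⟨c, hc⟩ := Finset.card_pos.1 (Nat.pos_of_ne_zero hE)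
    rw [Finset.mem_filter, Finset.mem_product, hI, Finset.mem_image, Finset.mem_image] at hc
    obtain ⟨⟨⟨i, hi, hi'⟩, ⟨j, hj, hj'⟩⟩, hcS⟩ := hc
    rw [Finset.mem_Icc] at hi hj
    obtain ⟨g, hg, hgu⟩ := (hmem _).1 hcS
    refine ⟨g, hg, ?_⟩
    rw [hgu, ← hi', ← hj', ← Nat.cast_add, ZMod.val_natCast_of_lt (by omega)]
    omega

/-- small numbers are in the stabilizer when it is large -/
theorem good_of_card [hn : Fact (1 < p)] {M : ℕ} (hM : 0 < M) (h2M : 2 * M < p)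
    (hh : p ^ 3 < (Nat.card (HH p lam cm_lam)) ^ 2 * M ^ 2) {d : ℕ} (hd : 0 < d)
    (hdM : d * (2 * M) < p) : U p d ∈ HH p lam cm_lam := by
  have hdp : d < p := lt_of_le_of_lt (Nat.le_mul_of_pos_right d (by omega)) hdM
  have hcop : Nat.Coprime d p := (Nat.coprime_of_lt_prime hd.ne' hdp hp.out).symm
  rw [mem_HH]
  intro u
  rw [FF_U lam hcop hdp]
  obtain ⟨g, hg, hgu⟩ := small_rep (HH p lam cm_lam) hM h2M hh u
  exact transport cm_lam hg
    (FF_small cm_lam hd hcop _ (lt_of_le_of_lt (Nat.mul_le_mul_left d hgu) hdM))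

/-- a stabilizer of index at least `2` does not contain all numbers up to `Y` -/
theorem contra_level [hn : Fact (1 < p)] {M Y e r : ℕ} (hY : Y < p)
    (hgood : ∀ d, 0 < d → d ≤ Y → U p d ∈ HH p lam cm_lam)
    (h2h : 2 * Nat.card (HH p lam cm_lam) < p) (h2M : 2 * M < p) (hMp : 1296 * p < M ^ 2)
    (hr1 : 2 * M ≤ 2 ^ r * Y) (hr2 : 2 ^ r * Y ≤ 4 * M) (h9 : 9 * r ≤ 2 * e) (he : 288 ≤ e)
    (heY : 2 ^ e ≤ Y) : False := by
  classical
  obtain ⟨S, hcard, hmem⟩ := cosetSet_exists (HH p lam cm_lam) 1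
  have hS := cosetSet_stable (HH p lam cm_lam) 1 hmem
  obtain ⟨I, hI⟩ : ∃ I : Finset (ZMod p), I = (Finset.Icc 1 M).image (fun i : ℕ => (i : ZMod p)) :=
    ⟨_, rfl⟩
  have hIc : I.card = M := by
    rw [hI]
    exact card_interval (by omega)
  have hYpos : 0 < Y := lt_of_lt_of_le (Nat.pow_pos (by norm_num)) heY
  obtain ⟨B, hB1, hB2⟩ := bad_all' (M := M) hYpos heY r
  obtain ⟨A, hA⟩ : ∃ A : Finset (ℕ × ℕ), A = ((Finset.Icc 1 M) ×ˢ (Finset.Icc 1 M)).filter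
      (fun c : ℕ × ℕ => (c.1 : ZMod p) + (c.2 : ZMod p) ∈ S) := ⟨_, rfl⟩
  have hAc : A.card ≤ ((I ×ˢ I).filter (fun c => c.1 + c.2 ∈ S)).card := by
    refine Finset.card_le_card_of_injOn (fun c => ((c.1 : ZMod p), (c.2 : ZMod p))) ?_ ?_
    · intro c hc
      rw [Finset.mem_coe, hA, Finset.mem_filter, Finset.mem_product] at hc
      rw [Finset.mem_coe, Finset.mem_filter, Finset.mem_product, hI]
      exact ⟨⟨Finset.mem_image_of_mem _ hc.1.1, Finset.mem_image_of_mem _ hc.1.2⟩, hc.2⟩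
    · rintro ⟨a, b⟩ hc ⟨a', b'⟩ hc' h
      rw [Finset.mem_coe, hA, Finset.mem_filter, Finset.mem_product, Finset.mem_Icc,
        Finset.mem_Icc] at hc hc'
      rw [Prod.mk.injEq] at h
      have h1 := (ZMod.natCast_eq_natCast_iff' a a' p).1 h.1
      have h2 := (ZMod.natCast_eq_natCast_iff' b b' p).1 h.2
      have ha : a < p := by have := hc.1.1.2; simp only at this; omega
      have ha' : a' < p := by have := hc'.1.1.2; simp only at this; omega
      have hb : b < p := by have := hc.1.2.2; simp only at this; omega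
      have hb' : b' < p := by have := hc'.1.2.2; simp only at this; omega
      rw [Nat.mod_eq_of_lt ha, Nat.mod_eq_of_lt ha'] at h1
      rw [Nat.mod_eq_of_lt hb, Nat.mod_eq_of_lt hb'] at h2
      rw [h1, h2]
  have hcover : (Finset.Icc 1 M) ×ˢ (Finset.Icc 1 M) ⊆ A ∪ B := by
    intro c hc
    rw [Finset.mem_union]
    by_cases hq : ∃ q : ℕ, q.Prime ∧ Y < q ∧ q ≤ 2 ^ r * Y ∧ q ∣ c.1 + c.2
    · exact Or.inr (hB2 c hc hq)
    · left
      rw [hA, Finset.mem_filter]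
      refine ⟨hc, ?_⟩
      rw [Finset.mem_product, Finset.mem_Icc, Finset.mem_Icc] at hc
      have hpos : c.1 + c.2 ≠ 0 := by omega
      have hsm : ∀ q : ℕ, q.Prime → q ∣ c.1 + c.2 → q < Y + 1 := by
        intro q hqp hqd
        by_contra hlt
        have h1 := Nat.le_of_dvd (by omega) hqd
        exact hq ⟨q, hqp, by omega, by omega, hqd⟩
      obtain ⟨s1, s2, _⟩ := smooth_val (n := p) cm_lam (Y + 1) (by omega)
        (fun d h0 h1 => (Nat.coprime_of_lt_prime h0.ne' (by omega) hp.out).symm)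
        (fun d h0 h1 => hgood d h0 (by omega)) (c.1 + c.2) hpos hsm
      refine (hmem _).2 ⟨_, s2, ?_⟩
      rw [mul_one, coe_U s1, Nat.cast_add]
  have hM2 : M ^ 2 ≤ A.card + B.card := by
    have h1 := (Finset.card_le_card hcover).trans (Finset.card_union_le _ _)
    rw [Finset.card_product, Nat.card_Icc, Nat.add_sub_cancel] at h1
    rw [pow_two]
    exact h1
  have hcnt := pair_count (HH p lam cm_lam) S I hS hcard
  rw [hcard, hIc] at hcnt
  have hMpos : 0 < M := by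
    rcases Nat.eq_zero_or_pos M with h | h
    · rw [h] at hMp
      omega
    · exact h
  -- real inequalities
  have hMR : (0 : ℝ) < M := by exact_mod_cast hMpos
  have hpR : (0 : ℝ) < p := by exact_mod_cast hp.out.pos
  have hsq : Real.sqrt p ≤ (M : ℝ) / 36 := by
    rw [Real.sqrt_le_iff]
    refine ⟨by positivity, ?_⟩
    have h1 : (1296 * p : ℝ) ≤ (M : ℝ) ^ 2 := by exact_mod_cast hMp.le
    rw [div_pow]
    linarith
  have hN1 : (p : ℝ) * (A.card : ℝ) ≤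
      (p : ℝ) * (((I ×ˢ I).filter (fun c => c.1 + c.2 ∈ S)).card : ℝ) :=
    mul_le_mul_of_nonneg_left (by exact_mod_cast hAc) hpR.le
  have hN2 := (abs_le.1 hcnt).2
  have hN3 : Real.sqrt p * (p * M) ≤ (M : ℝ) / 36 * (p * M) :=
    mul_le_mul_of_nonneg_right hsq (by positivity)
  have hhR : (Nat.card (HH p lam cm_lam) : ℝ) < p / 2 := by
    have h1 : (2 * (Nat.card (HH p lam cm_lam) : ℝ)) < p := by exact_mod_cast h2h
    linarith
  have hN4 : (Nat.card (HH p lam cm_lam) : ℝ) * (M : ℝ) ^ 2 < p / 2 * (M : ℝ) ^ 2 :=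
    mul_lt_mul_of_pos_right hhR (by positivity)
  have hN5 : (p : ℝ) * (A.card : ℝ) < p * (19 / 36 * (M : ℝ) ^ 2) := by
    have h1 : (p : ℝ) * (19 / 36 * (M : ℝ) ^ 2) =
        p / 2 * (M : ℝ) ^ 2 + (M : ℝ) / 36 * (p * M) := by ring
    rw [h1]
    linarith
  have hN6 : (A.card : ℝ) < 19 / 36 * (M : ℝ) ^ 2 := lt_of_mul_lt_mul_left hN5 hpR.le
  have hM2R : (M : ℝ) ^ 2 ≤ A.card + B.card := by exact_mod_cast hM2
  have hB3 : (17 / 36 : ℝ) * (M : ℝ) ^ 2 < B.card := by linarith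
  have heR : (288 : ℝ) ≤ e := by exact_mod_cast he
  have hB4 : (e : ℝ) * B.card ≤ 2 * r * (M : ℝ) ^ 2 + 8 * (M : ℝ) ^ 2 := by
    have h1 : e * B.card ≤ 2 * r * M ^ 2 + 8 * M ^ 2 := by
      refine hB1.trans (Nat.add_le_add_left ?_ _)
      calc 2 * (2 ^ r * Y) * M ≤ 2 * (4 * M) * M :=
            Nat.mul_le_mul_right _ (Nat.mul_le_mul_left _ hr2)
        _ = 8 * M ^ 2 := by ring
    exact_mod_cast h1
  have h9R : (9 * r : ℝ) ≤ 2 * e := by exact_mod_cast h9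
  have hB5 : (e : ℝ) * ((17 / 36 : ℝ) * (M : ℝ) ^ 2) < e * B.card :=
    mul_lt_mul_of_pos_left hB3 (by linarith)
  have hB6 : (2 * r + 8 : ℝ) * (M : ℝ) ^ 2 ≤ (17 / 36 * e : ℝ) * (M : ℝ) ^ 2 :=
    mul_le_mul_of_nonneg_right (by linarith) (by positivity)
  nlinarith [hB4, hB5, hB6]

end

/-- the stabilizer is not everything -/
theorem contra_prime {p : ℕ} (hp : p.Prime) (h7 : 7 ≤ p) [hn : Fact (1 < p)]
    (hg : ∀ d, 0 < d → d < p → U p d ∈ HH p lam cm_lam) : False := by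
  have key : ∀ n : ℕ, n = p ^ (0 + 1) → ∀ hn : Fact (1 < n),
      (∀ d, 0 < d → d < p → U n d ∈ @HH _ _ n hn lam cm_lam) → False := by
    rintro n rfl hn hg
    exact contra_prime_pow hp h7 hg
  exact key p (by rw [zero_add, pow_one]) hn hg

/-- the ratio of two failing columns is in the stabilizer -/
theorem ratio_mem {n : ℕ} [hn : Fact (1 < n)] {k₁ k₂ : ℕ} (hk₁ : 1 ≤ k₁) (hkn₁ : k₁ < n)
    (hc₁ : Nat.Coprime k₁ n) (hk₂ : 1 ≤ k₂) (hkn₂ : k₂ < n) (hc₂ : Nat.Coprime k₂ n)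
    (h₁ : ¬ Mixed n k₁ n) (h₂ : ¬ Mixed n k₂ n) :
    U n k₂ * (U n k₁)⁻¹ ∈ HH n lam cm_lam := by
  obtain ⟨s₁, hs₁⟩ := const_of_not_mixed h₁
  obtain ⟨s₂, hs₂⟩ := const_of_not_mixed h₂
  have e₁ := const_class' hk₁ hkn₁ hc₁ hs₁
  have e₂ := const_class' hk₂ hkn₂ hc₂ hs₂
  have hstep : ∀ u : (ZMod n)ˣ,
      FF n lam ((U n k₂ * (U n k₁)⁻¹) * u) = (s₂ * s₁⁻¹) * FF n lam u := by
    intro u
    have h1 := pair_value cm_lam le_rfl (U n k₁) e₁ u
    have h2 := pair_value cm_lam le_rfl (U n k₂) e₂ ((U n k₂ * (U n k₁)⁻¹) * u)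
    have h3 : U n k₂ * ((U n k₂ * (U n k₁)⁻¹) * u)⁻¹ = U n k₁ * u⁻¹ := by
      rw [mul_inv, mul_inv, inv_inv]
      rw [← mul_assoc, ← mul_assoc, mul_inv_cancel, one_mul]
    rw [h3] at h2
    have h4 : s₂ * FF n lam u = FF n lam (U n k₂ * (U n k₁)⁻¹ * u) * s₁ := by
      rw [← h1, ← h2]
      simp only [mul_comm, mul_assoc]
    have h5 : s₂ * s₁⁻¹ * FF n lam u = s₂ * FF n lam u * s₁⁻¹ := mul_right_comm _ _ _
    rw [h5, h4, mul_inv_cancel_right]
  have h1 := hstep 1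
  rw [mul_one, FF_one cm_lam, mul_one] at h1
  rw [mem_HH]
  intro u
  rw [hstep u, h1]

/-- the number of failing columns is at most the order of the stabilizer -/
theorem fail_le_card {p : ℕ} (hp : p.Prime) [hn : Fact (1 < p)] :
    {k : ℕ | 1 ≤ k ∧ k < p ∧ ¬ Mixed p k p}.ncard ≤ Nat.card (HH p lam cm_lam) := by
  classical
  have : NeZero p := ⟨hp.ne_zero⟩
  have hcop : ∀ k, 1 ≤ k → k < p → Nat.Coprime k p := fun k h0 h1 =>
    (Nat.coprime_of_lt_prime (by omega) h1 hp).symm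
  obtain ⟨S, hS⟩ : ∃ S : Set ℕ, S = {k : ℕ | 1 ≤ k ∧ k < p ∧ ¬ Mixed p k p} := ⟨_, rfl⟩
  rw [← hS]
  have hmem : ∀ k ∈ S, 1 ≤ k ∧ k < p ∧ ¬ Mixed p k p := by
    intro k hk
    rw [hS] at hk
    exact hk
  rcases S.eq_empty_or_nonempty with h | ⟨k₀, hk₀⟩
  · rw [h, Set.ncard_empty]
    exact Nat.zero_le _
  · obtain ⟨a1, a2, a3⟩ := hmem k₀ hk₀
    have h1 : (HH p lam cm_lam : Set (ZMod p)ˣ).ncard = Nat.card (HH p lam cm_lam) :=
      (Nat.card_coe_set_eq _).symm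
    rw [← h1]
    refine Set.ncard_le_ncard_of_injOn (fun k => U p k * (U p k₀)⁻¹) ?_ ?_ (Set.toFinite _)
    · intro k hk
      obtain ⟨b1, b2, b3⟩ := hmem k hk
      exact ratio_mem a1 a2 (hcop _ a1 a2) b1 b2 (hcop _ b1 b2) a3 b3
    · intro k hk l hl hkl
      obtain ⟨b1, b2, _⟩ := hmem k hk
      obtain ⟨c1, c2, _⟩ := hmem l hl
      have h5 : U p k = U p l := mul_right_cancel hkl
      have h6 : (k : ZMod p) = (l : ZMod p) := by
        rw [← coe_U (hcop k b1 b2), ← coe_U (hcop l c1 c2), h5]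
      have h7 := (ZMod.natCast_eq_natCast_iff' k l p).1 h6
      rwa [Nat.mod_eq_of_lt b2, Nat.mod_eq_of_lt c2] at h7

theorem card_stab {p : ℕ} (hp : p.Prime) (h7 : 7 ≤ p) [hn : Fact (1 < p)] :
    2 * Nat.card (HH p lam cm_lam) < p := by
  have : Fact p.Prime := ⟨hp⟩
  have hne : HH p lam cm_lam ≠ ⊤ := by
    intro h
    refine contra_prime hp h7 fun d _ _ => ?_
    rw [h]
    exact Subgroup.mem_top _
  have h1 := (HH p lam cm_lam).card_mul_index
  have h2 : (HH p lam cm_lam).index ≠ 1 := fun h => hne (Subgroup.index_eq_one.1 h)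
  have h3 : (HH p lam cm_lam).index ≠ 0 := Subgroup.index_ne_zero_of_finite
  rw [Nat.card_eq_fintype_card (α := (ZMod p)ˣ), ZMod.card_units p] at h1
  have h4 : Nat.card (HH p lam cm_lam) * 2 ≤ p - 1 := by
    rw [← h1]
    exact Nat.mul_le_mul_left _ (by omega)
  omega

theorem fail_pow_bound {p : ℕ} (hp : p.Prime) :
    {k : ℕ | 1 ≤ k ∧ k < p ∧ ¬ Mixed p k p}.ncard ^ 11 ≤ (2 ^ 289) ^ 17 * p ^ 10 := by
  obtain ⟨T, hT⟩ : ∃ T : ℕ, T = 2 ^ 289 := ⟨_, rfl⟩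
  rw [← hT]
  have hT7 : 7 ≤ T := by
    rw [hT]
    have h3 : 2 ^ 3 ≤ 2 ^ 289 := Nat.pow_le_pow_right (by norm_num) (by norm_num)
    omega
  rcases Nat.lt_or_ge p 7 with h | h
  · have h1 : {k : ℕ | 1 ≤ k ∧ k < p ∧ ¬ Mixed p k p}.ncard ≤ p := by
      have h2 : {k : ℕ | 1 ≤ k ∧ k < p ∧ ¬ Mixed p k p} ⊆ (Finset.range p : Set ℕ) := by
        intro k hk
        rw [Finset.mem_coe, Finset.mem_range]
        exact hk.2.1
      have h3 := Set.ncard_le_ncard h2 (Finset.finite_toSet _)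
      rwa [Set.ncard_coe_finset, Finset.card_range] at h3
    calc {k : ℕ | 1 ≤ k ∧ k < p ∧ ¬ Mixed p k p}.ncard ^ 11 ≤ p ^ 11 := Nat.pow_le_pow_left h1 11
      _ = p * p ^ 10 := by rw [← pow_succ']
      _ ≤ T ^ 17 * p ^ 10 := by
          refine Nat.mul_le_mul_right _ ?_
          exact (by omega : p ≤ T).trans (Nat.le_self_pow (by norm_num) T)
  · have hpf : Fact p.Prime := ⟨hp⟩
    have hn : Fact (1 < p) := ⟨hp.one_lt⟩
    have h1 := fail_le_card hp
    have h2 := card_stab hp h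
    have h3 : 1 ≤ Nat.card (HH p lam cm_lam) := Nat.card_pos
    have h4 := numerics hT h h3 h2 (fun d => U p d ∈ HH p lam cm_lam)
      (fun M d hM h2M hh hd hdM => good_of_card hM h2M hh hd hdM)
      (fun M Y e r hY hg h2M hMp hr1 hr2 h9 he heY =>
        contra_level hY hg h2 h2M hMp hr1 hr2 h9 he heY)
    have h5 : (Nat.card (HH p lam cm_lam) ^ 11) ^ 2 ≤ (T ^ 17 * p ^ 10) ^ 2 := by
      rw [mul_pow, ← pow_mul, ← pow_mul, ← pow_mul]
      refine h4.trans (Nat.mul_le_mul_right _ (Nat.pow_le_pow_right (by omega) (by norm_num)))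
    have h6 := (Nat.pow_le_pow_iff_left (by norm_num)).1 h5
    exact (Nat.pow_le_pow_left h1 11).trans h6

end Pool.Agent.Helper68.CO2
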