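import Mathlib

/-!
MP_418075_nt.  The number of primes up to `y` exceeds every constant times `y ^ (10 / 11)`.
-/

set_option autoImplicit false

namespace Pool.Agent.Helper68.CO2

open Filter Asymptotics

theorem pi_real (c K : ℝ) (hc : 0 ≤ c) (hK : 0 ≤ K) : ∃ B : ℝ, ∀ y : ℝ, B ≤ y →
    c * y ^ (10 / 11 : ℝ) + K ≤ (y * Real.log 2 - Real.log (y + 1)) / Real.log y := by
  have hl2 : (0 : ℝ) < Real.log 2 := Real.log_pos (by norm_num)
  have h1 : (fun y : ℝ => y ^ (10 / 11 : ℝ) * Real.log y) =o[atTop]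
      (fun y : ℝ => y ^ (10 / 11 : ℝ) * y ^ (1 / 11 : ℝ)) :=
    (isBigO_refl _ _).mul_isLittleO (isLittleO_log_rpow_atTop (by norm_num))
  have h2 : (Real.log) =o[atTop] (fun y : ℝ => y) := Real.isLittleO_log_id_atTop
  have e1 := h1.bound (show 0 < Real.log 2 / (4 * (c + 1)) by positivity)
  have e2 := h2.bound (show 0 < Real.log 2 / (4 * (K + 2)) by positivity)
  have key : ∀ᶠ y : ℝ in atTop,
      c * y ^ (10 / 11 : ℝ) + K ≤ (y * Real.log 2 - Real.log (y + 1)) / Real.log y := by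
    filter_upwards [e1, e2, eventually_ge_atTop (3 : ℝ)] with y h1 h2 h3
    have hy0 : 0 < y := by linarith
    have hlog : 0 < Real.log y := Real.log_pos (by linarith)
    have hpow : y ^ (10 / 11 : ℝ) * y ^ (1 / 11 : ℝ) = y := by
      rw [← Real.rpow_add hy0]
      norm_num
    rw [hpow, Real.norm_of_nonneg (by positivity), Real.norm_of_nonneg hy0.le] at h1
    rw [Real.norm_of_nonneg hlog.le, Real.norm_of_nonneg hy0.le] at h2
    rw [le_div_iff₀ hlog]
    have h4 : c * (y ^ (10 / 11 : ℝ) * Real.log y) ≤ Real.log 2 / 4 * y := by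
      have h5 : c * (Real.log 2 / (4 * (c + 1)) * y) ≤ Real.log 2 / 4 * y := by
        have h6 : c * (Real.log 2 / (4 * (c + 1)) * y) =
            (c / (c + 1)) * (Real.log 2 / 4 * y) := by
          field_simp
        rw [h6]
        have h7 : c / (c + 1) ≤ 1 := by
          rw [div_le_one (by linarith)]
          linarith
        have h8 : 0 ≤ Real.log 2 / 4 * y := by positivity
        nlinarith
      exact (mul_le_mul_of_nonneg_left h1 hc).trans h5
    have h5 : (K + 2) * Real.log y ≤ Real.log 2 / 4 * y := by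
      have h6 : (K + 2) * (Real.log 2 / (4 * (K + 2)) * y) = Real.log 2 / 4 * y := by
        field_simp
      rw [← h6]
      exact mul_le_mul_of_nonneg_left h2 (by linarith)
    have h6 : Real.log (y + 1) ≤ 2 * Real.log y := by
      have h7 : Real.log (y + 1) ≤ Real.log (y ^ 2) :=
        Real.log_le_log (by linarith) (by nlinarith)
      rwa [Real.log_pow, Nat.cast_ofNat] at h7
    have h7 : (c * y ^ (10 / 11 : ℝ) + K) * Real.log y =
        c * (y ^ (10 / 11 : ℝ) * Real.log y) + K * Real.log y := by ring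
    rw [h7]
    have h8 : 0 ≤ Real.log 2 * y := by positivity
    linarith
  obtain ⟨B, hB⟩ := eventually_atTop.1 key
  exact ⟨B, fun y hy => hB y hy⟩

theorem pi_growth (C K : ℕ) : ∃ B : ℕ, ∀ y : ℕ, B ≤ y →
    (C + 1) * y ^ 10 ≤ (Nat.primeCounting y + 1 - K) ^ 11 := by
  obtain ⟨B, hB⟩ := pi_real ((C : ℝ) + 1) K (by positivity) (by positivity)
  refine ⟨⌈B⌉₊ + 1, fun y hy => ?_⟩
  have hyB : B ≤ (y : ℝ) := by
    have h1 : B ≤ (⌈B⌉₊ : ℝ) := Nat.le_ceil B
    have h2 : ((⌈B⌉₊ + 1 : ℕ) : ℝ) ≤ (y : ℝ) := by exact_mod_cast hy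
    push_cast at h2
    linarith
  have h1 := (hB y hyB).trans (Chebyshev.pi_ge y)
  have hy0 : (0 : ℝ) ≤ (y : ℝ) := by positivity
  have h2 : ((C : ℝ) + 1) * (y : ℝ) ^ (10 / 11 : ℝ) ≤
      ((Nat.primeCounting y + 1 - K : ℕ) : ℝ) := by
    have h3 : (Nat.primeCounting y : ℝ) ≤ ((Nat.primeCounting y + 1 - K : ℕ) : ℝ) + K := by
      have h4 : Nat.primeCounting y ≤ (Nat.primeCounting y + 1 - K) + K := by omega
      exact_mod_cast h4
    linarith
  have h3 : (((C : ℝ) + 1) * (y : ℝ) ^ (10 / 11 : ℝ)) ^ 11 ≤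
      ((Nat.primeCounting y + 1 - K : ℕ) : ℝ) ^ 11 := pow_le_pow_left₀ (by positivity) h2 11
  have h4 : ((y : ℝ) ^ (10 / 11 : ℝ)) ^ 11 = (y : ℝ) ^ 10 := by
    rw [← Real.rpow_natCast, ← Real.rpow_mul hy0]
    norm_num
  rw [mul_pow, h4] at h3
  have h5 : ((C : ℝ) + 1) * (y : ℝ) ^ 10 ≤ ((C : ℝ) + 1) ^ 11 * (y : ℝ) ^ 10 := by
    refine mul_le_mul_of_nonneg_right ?_ (by positivity)
    refine le_self_pow₀ ?_ (by norm_num)
    have : (0 : ℝ) ≤ C := by positivity
    linarith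
  have h6 := h5.trans h3
  exact_mod_cast h6

end Pool.Agent.Helper68.CO2
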