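import Mathlib
import Pool.Agent.Helper68.CO2.Almost
import Pool.Agent.Helper68.CO2.PiGrow

/-!
MP_418075_nt.  At most `C p ^ (1 / 2 + ε)` columns modulo a prime `p` miss one parity.
-/

set_option autoImplicit false

namespace Pool.Agent.Helper68.CO2

open ArithmeticFunction

theorem exists_level {p h : ℕ} (hp7 : 7 ≤ p) (hh : 1 ≤ h) (h2h : 2 * h < p)
    (G : ℕ → Prop) (hG1 : G 1)
    (hgood : ∀ M d : ℕ, 0 < M → 2 * M < p → p ^ 3 < h ^ 2 * M ^ 2 → 0 < d → d * (2 * M) < p → G d) :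
    ∃ Y0, (∀ d, 0 < d → d ≤ Y0 → G d) ∧ h ^ 2 ≤ (64 * Y0 ^ 2) * p := by
  have hp0 : 0 < p := by omega
  have hex : ∃ M, p ^ 3 < h ^ 2 * M ^ 2 := by
    refine ⟨p ^ 2, ?_⟩
    have h1 : p ^ 3 < p ^ 4 := Nat.pow_lt_pow_right (by omega) (by norm_num)
    have h2 : p ^ 4 ≤ h ^ 2 * (p ^ 2) ^ 2 := by
      rw [← pow_mul]
      exact Nat.le_mul_of_pos_left _ (Nat.pow_pos hh)
    omega
  obtain ⟨M0, hM0, hmin⟩ : ∃ M0, p ^ 3 < h ^ 2 * M0 ^ 2 ∧ ∀ m < M0, h ^ 2 * m ^ 2 ≤ p ^ 3 := by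
    classical
    refine ⟨Nat.find hex, Nat.find_spec hex, fun m hm => ?_⟩
    exact Nat.not_lt.1 (Nat.find_min hex hm)
  have hM2 : 2 ≤ M0 := by
    by_contra hlt
    have h1 : M0 ≤ 1 := by omega
    have h2 : h ^ 2 * M0 ^ 2 ≤ p ^ 3 := by
      calc h ^ 2 * M0 ^ 2 ≤ h ^ 2 * 1 ^ 2 := Nat.mul_le_mul_left _ (Nat.pow_le_pow_left h1 2)
        _ = h ^ 2 := by ring
        _ ≤ p ^ 2 := Nat.pow_le_pow_left (by omega) 2
        _ ≤ p ^ 3 := Nat.pow_le_pow_right hp0 (by norm_num)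
    omega
  obtain ⟨m, rfl⟩ : ∃ m, M0 = m + 1 := ⟨M0 - 1, by omega⟩
  have hm := hmin m (by omega)
  rcases Nat.lt_or_ge (2 * (m + 1)) p with hA | hA
  · obtain ⟨Y0, hY0⟩ : ∃ Y0, Y0 = (p - 1) / (2 * (m + 1)) := ⟨_, rfl⟩
    have hY0a : Y0 * (2 * (m + 1)) ≤ p - 1 := by
      rw [hY0]
      exact Nat.div_mul_le_self _ _
    have hY0b : p ≤ (Y0 + 1) * (2 * (m + 1)) := by
      have h1 := Nat.lt_div_mul_add (a := p - 1) (b := 2 * (m + 1)) (by omega)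
      rw [← hY0] at h1
      have h2 : (Y0 + 1) * (2 * (m + 1)) = Y0 * (2 * (m + 1)) + 2 * (m + 1) := by ring
      omega
    have hY01 : 1 ≤ Y0 := by
      rw [hY0]
      exact Nat.div_pos (by omega) (by omega)
    have hpm : p ≤ 8 * Y0 * m := by
      calc p ≤ (Y0 + 1) * (2 * (m + 1)) := hY0b
        _ ≤ (2 * Y0) * (4 * m) := Nat.mul_le_mul (by omega) (by omega)
        _ = 8 * Y0 * m := by ring
    refine ⟨Y0, ?_, ?_⟩
    · intro d hd hdY
      refine hgood (m + 1) d (by omega) hA hM0 hd ?_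
      have h1 : d * (2 * (m + 1)) ≤ Y0 * (2 * (m + 1)) := Nat.mul_le_mul_right _ hdY
      omega
    · have h1 := numer_sq hp0 hpm hm
      calc h ^ 2 ≤ (8 * Y0) ^ 2 * p := h1
        _ = (64 * Y0 ^ 2) * p := by ring
  · refine ⟨1, ?_, ?_⟩
    · intro d hd hd1
      obtain rfl : d = 1 := by omega
      exact hG1
    · have hpm : p ≤ 4 * m := by omega
      have h1 := numer_sq hp0 hpm hm
      refine h1.trans (Nat.mul_le_mul_right _ (by norm_num))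

/-- products of `K` distinct primes up to `y` are in the stabilizer -/
theorem card_ge_choose {p y K : ℕ} [hp : Fact p.Prime] [hn : Fact (1 < p)] (hK : 1 ≤ K)
    (hy1 : 1 ≤ y) (hy : y ^ K < p)
    (hgood : ∀ d, 0 < d → d ≤ y → U p d ∈ HH p lam cm_lam) :
    (Nat.primeCounting y).choose K ≤ Nat.card (HH p lam cm_lam) := by
  classical
  obtain ⟨P, hP⟩ : ∃ P : Finset ℕ, P = (Finset.range (y + 1)).filter Nat.Prime := ⟨_, rfl⟩
  have hPc : P.card = Nat.primeCounting y := by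
    rw [hP, ← Nat.count_eq_card_filter_range]
    rfl
  have hyp : y < p := lt_of_le_of_lt (Nat.le_self_pow (by omega) y) hy
  have hPm : ∀ q ∈ P, q.Prime ∧ q ≤ y := by
    intro q hq
    rw [hP, Finset.mem_filter, Finset.mem_range] at hq
    exact ⟨hq.2, by omega⟩
  have hprod : ∀ s ∈ Finset.powersetCard K P, (∏ q ∈ s, q) ≠ 0 ∧ (∏ q ∈ s, q) < p ∧
      (∏ q ∈ s, q).primeFactors = s := by
    intro s hs
    rw [Finset.mem_powersetCard] at hs
    refine ⟨?_, ?_, ?_⟩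
    · exact Finset.prod_ne_zero_iff.2 fun q hq => (hPm q (hs.1 hq)).1.ne_zero
    · refine lt_of_le_of_lt ?_ hy
      rw [← hs.2]
      exact Finset.prod_le_pow_card _ _ _ fun q hq => (hPm q (hs.1 hq)).2
    · exact Nat.primeFactors_prod fun q hq => (hPm q (hs.1 hq)).1
  have hsv : ∀ s ∈ Finset.powersetCard K P, Nat.Coprime (∏ q ∈ s, q) p ∧
      U p (∏ q ∈ s, q) ∈ HH p lam cm_lam := by
    intro s hs
    obtain ⟨h1, h2, h3⟩ := hprod s hs
    have hsP := (Finset.mem_powersetCard.1 hs).1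
    obtain ⟨s1, s2, _⟩ := smooth_val (n := p) cm_lam (y + 1) (by omega)
      (fun d h0 h1 => (Nat.coprime_of_lt_prime h0.ne' (by omega) hp.out).symm)
      (fun d h0 h1 => hgood d h0 (by omega)) (∏ q ∈ s, q) h1 (by
        intro q hq hqd
        have h4 : q ∈ s := by
          rw [← h3, Nat.mem_primeFactors]
          exact ⟨hq, hqd, h1⟩
        have h5 := (hPm q (hsP h4)).2
        omega)
    exact ⟨s1, s2⟩
  have h1 : (HH p lam cm_lam : Set (ZMod p)ˣ).ncard = Nat.card (HH p lam cm_lam) :=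
    (Nat.card_coe_set_eq _).symm
  rw [← h1, ← hPc, ← Finset.card_powersetCard, ← Set.ncard_coe_finset]
  refine Set.ncard_le_ncard_of_injOn (fun s => U p (∏ q ∈ s, q)) ?_ ?_ (Set.toFinite _)
  · intro s hs
    exact (hsv s hs).2
  · intro s hs t ht hst
    obtain ⟨a1, a2, a3⟩ := hprod s hs
    obtain ⟨b1, b2, b3⟩ := hprod t ht
    have h6 : ((∏ q ∈ s, q : ℕ) : ZMod p) = ((∏ q ∈ t, q : ℕ) : ZMod p) := by
      rw [← coe_U (hsv s hs).1, ← coe_U (hsv t ht).1]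
      exact congrArg _ hst
    have h7 := (ZMod.natCast_eq_natCast_iff' _ _ p).1 h6
    rw [Nat.mod_eq_of_lt a2, Nat.mod_eq_of_lt b2] at h7
    rw [← a3, ← b3, h7]

/-- the order of the stabilizer -/
theorem stab_pow_bound (K : ℕ) (hK : 1 ≤ K) : ∃ C : ℕ, ∀ p : ℕ, p.Prime → 7 ≤ p →
    ∀ hn : Fact (1 < p), (Nat.card (HH p lam cm_lam)) ^ (2 * K) ≤ C * p ^ (K + 2) := by
  obtain ⟨T, hT⟩ : ∃ T : ℕ, T = 2 ^ 289 := ⟨_, rfl⟩
  have hT7 : 7 ≤ T := by
    rw [hT]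
    have h3 : 2 ^ 3 ≤ 2 ^ 289 := Nat.pow_le_pow_right (by norm_num) (by norm_num)
    omega
  obtain ⟨C1, hC1⟩ : ∃ C1 : ℕ, C1 = K.factorial ^ 11 * T ^ 17 * 2 ^ (10 * K) := ⟨_, rfl⟩
  obtain ⟨B, hB⟩ := pi_growth C1 K
  refine ⟨64 ^ K + ((2 * B) ^ K) ^ (2 * K), fun p hp h7 hn => ?_⟩
  have hpf : Fact p.Prime := ⟨hp⟩
  obtain ⟨h, hhdef⟩ : ∃ h, h = Nat.card (HH p lam cm_lam) := ⟨_, rfl⟩
  have h2 : 2 * h < p := by
    rw [hhdef]
    exact card_stab hp h7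
  have h3 : 1 ≤ h := by
    rw [hhdef]
    exact Nat.card_pos
  have hgoodM : ∀ M d : ℕ, 0 < M → 2 * M < p → p ^ 3 < h ^ 2 * M ^ 2 → 0 < d → d * (2 * M) < p →
      U p d ∈ HH p lam cm_lam := by
    intro M d hM h2M hh hd hdM
    rw [hhdef] at hh
    exact good_of_card hM h2M hh hd hdM
  have h22 := numerics hT h7 h3 h2 (fun d => U p d ∈ HH p lam cm_lam) hgoodM
    (fun M Y e r hY hg h2M hMp hr1 hr2 h9 he heY =>
      contra_level hY hg (by rw [← hhdef]; exact h2) h2M hMp hr1 hr2 h9 he heY)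
  have h11 : h ^ 11 ≤ T ^ 17 * p ^ 10 := by
    have h5 : (h ^ 11) ^ 2 ≤ (T ^ 17 * p ^ 10) ^ 2 := by
      rw [mul_pow, ← pow_mul, ← pow_mul, ← pow_mul]
      refine h22.trans (Nat.mul_le_mul_right _ (Nat.pow_le_pow_right (by omega) (by norm_num)))
    exact (Nat.pow_le_pow_iff_left (by norm_num)).1 h5
  have hG1 : U p 1 ∈ HH p lam cm_lam := by
    have h4 : U p 1 = 1 := by
      apply Units.ext
      rw [coe_U (Nat.coprime_one_left p), Nat.cast_one, Units.val_one]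
    rw [h4]
    exact one_mem _
  obtain ⟨Y0, hY0, hYh⟩ := exists_level h7 h3 h2 (fun d => U p d ∈ HH p lam cm_lam) hG1 hgoodM
  rw [← hhdef]
  -- the integer part of the `K`-th root
  have hexy : ∃ y, p ≤ (y + 1) ^ K := by
    refine ⟨p, ?_⟩
    exact (Nat.le_succ p).trans (Nat.le_self_pow (by omega) (p + 1))
  obtain ⟨y, hy1, hymin⟩ : ∃ y, p ≤ (y + 1) ^ K ∧ ∀ z < y, (z + 1) ^ K < p := by
    classical
    refine ⟨Nat.find hexy, Nat.find_spec hexy, fun z hz => ?_⟩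
    exact Nat.not_le.1 (Nat.find_min hexy hz)
  have hy0 : 1 ≤ y := by
    rcases Nat.eq_zero_or_pos y with h0 | h0
    · rw [h0, zero_add, one_pow] at hy1
      omega
    · exact h0
  have hyK : y ^ K < p := by
    have := hymin (y - 1) (by omega)
    rwa [Nat.sub_add_cancel hy0] at this
  have hp2y : p ≤ (2 * y) ^ K := hy1.trans (Nat.pow_le_pow_left (by omega) K)
  rcases Nat.lt_or_ge Y0 y with hA | hA
  · calc h ^ (2 * K) = (h ^ 2) ^ K := by rw [pow_mul]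
      _ ≤ ((64 * Y0 ^ 2) * p) ^ K := Nat.pow_le_pow_left hYh K
      _ = 64 ^ K * (Y0 ^ K) ^ 2 * p ^ K := by
          rw [mul_pow, mul_pow, ← pow_mul, ← pow_mul, mul_comm 2 K]
      _ ≤ 64 ^ K * p ^ 2 * p ^ K := by
          refine Nat.mul_le_mul_right _ (Nat.mul_le_mul_left _ (Nat.pow_le_pow_left ?_ 2))
          exact (Nat.pow_le_pow_left hA.le K).trans hyK.le
      _ = 64 ^ K * p ^ (K + 2) := by rw [mul_assoc, ← pow_add, add_comm 2 K]
      _ ≤ (64 ^ K + ((2 * B) ^ K) ^ (2 * K)) * p ^ (K + 2) :=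
          Nat.mul_le_mul_right _ (Nat.le_add_right _ _)
  · have hch : (Nat.primeCounting y).choose K ≤ h := by
      rw [hhdef]
      exact card_ge_choose hK hy0 hyK fun d hd hdy => hY0 d hd (hdy.trans hA)
    have hpi : (Nat.primeCounting y + 1 - K) ^ K ≤ K.factorial * h := by
      have h4 := Nat.pow_sub_le_descFactorial (Nat.primeCounting y) K
      rw [Nat.descFactorial_eq_factorial_mul_choose] at h4
      exact h4.trans (Nat.mul_le_mul_left _ hch)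
    have hyB : y < B := by
      by_contra hlt
      have h4 := hB y (by omega)
      have h5 : (C1 + 1) ^ K * y ^ (10 * K) ≤ C1 * y ^ (10 * K) := by
        calc (C1 + 1) ^ K * y ^ (10 * K) = ((C1 + 1) * y ^ 10) ^ K := by
              rw [mul_pow, ← pow_mul]
          _ ≤ ((Nat.primeCounting y + 1 - K) ^ 11) ^ K := Nat.pow_le_pow_left h4 K
          _ = ((Nat.primeCounting y + 1 - K) ^ K) ^ 11 := by
              rw [← pow_mul, ← pow_mul, mul_comm 11 K]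
          _ ≤ (K.factorial * h) ^ 11 := Nat.pow_le_pow_left hpi 11
          _ = K.factorial ^ 11 * h ^ 11 := mul_pow _ _ _
          _ ≤ K.factorial ^ 11 * (T ^ 17 * p ^ 10) := Nat.mul_le_mul_left _ h11
          _ ≤ K.factorial ^ 11 * (T ^ 17 * ((2 * y) ^ K) ^ 10) :=
              Nat.mul_le_mul_left _ (Nat.mul_le_mul_left _ (Nat.pow_le_pow_left hp2y 10))
          _ = C1 * y ^ (10 * K) := by
              rw [hC1, ← pow_mul, mul_comm K 10, mul_pow]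
              ring
      have h6 : (C1 + 1) ^ K ≤ C1 := Nat.le_of_mul_le_mul_right h5 (Nat.pow_pos hy0)
      have h7 : C1 + 1 ≤ (C1 + 1) ^ K := Nat.le_self_pow (by omega) _
      omega
    calc h ^ (2 * K) ≤ p ^ (2 * K) := Nat.pow_le_pow_left (by omega) _
      _ ≤ ((2 * B) ^ K) ^ (2 * K) :=
          Nat.pow_le_pow_left (hp2y.trans (Nat.pow_le_pow_left (by omega) K)) _
      _ ≤ ((2 * B) ^ K) ^ (2 * K) * p ^ (K + 2) :=
          Nat.le_mul_of_pos_right _ (Nat.pow_pos hp.pos)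
      _ ≤ (64 ^ K + ((2 * B) ^ K) ^ (2 * K)) * p ^ (K + 2) :=
          Nat.mul_le_mul_right _ (Nat.le_add_left _ _)

/-- the number of failing columns, natural exponents -/
theorem fail_bound_K (K : ℕ) (hK : 1 ≤ K) : ∃ C : ℕ, ∀ p : ℕ, p.Prime →
    {k : ℕ | 1 ≤ k ∧ k < p ∧ ¬ Mixed p k p}.ncard ^ (2 * K) ≤ C * p ^ (K + 2) := by
  obtain ⟨C, hC⟩ := stab_pow_bound K hK
  refine ⟨C + 7 ^ (2 * K), fun p hp => ?_⟩
  have hn : Fact (1 < p) := ⟨hp.one_lt⟩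
  rcases Nat.lt_or_ge p 7 with h | h
  · have h1 : {k : ℕ | 1 ≤ k ∧ k < p ∧ ¬ Mixed p k p}.ncard ≤ p := by
      have h2 : {k : ℕ | 1 ≤ k ∧ k < p ∧ ¬ Mixed p k p} ⊆ (Finset.range p : Set ℕ) := by
        intro k hk
        rw [Finset.mem_coe, Finset.mem_range]
        exact hk.2.1
      have h3 := Set.ncard_le_ncard h2 (Finset.finite_toSet _)
      rwa [Set.ncard_coe_finset, Finset.card_range] at h3
    calc {k : ℕ | 1 ≤ k ∧ k < p ∧ ¬ Mixed p k p}.ncard ^ (2 * K) ≤ 7 ^ (2 * K) :=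
          Nat.pow_le_pow_left (by omega) _
      _ ≤ 7 ^ (2 * K) * p ^ (K + 2) := Nat.le_mul_of_pos_right _ (Nat.pow_pos hp.pos)
      _ ≤ (C + 7 ^ (2 * K)) * p ^ (K + 2) := Nat.mul_le_mul_right _ (Nat.le_add_left _ _)
  · calc {k : ℕ | 1 ≤ k ∧ k < p ∧ ¬ Mixed p k p}.ncard ^ (2 * K) ≤
          (Nat.card (HH p lam cm_lam)) ^ (2 * K) := Nat.pow_le_pow_left (fail_le_card hp) _
      _ ≤ C * p ^ (K + 2) := hC p hp h hn
      _ ≤ (C + 7 ^ (2 * K)) * p ^ (K + 2) := Nat.mul_le_mul_right _ (Nat.le_add_right _ _)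

/-- the number of failing columns is `O (p ^ (1 / 2 + ε))` -/
theorem fail_bound_eps (ε : ℝ) (hε : 0 < ε) : ∃ C : ℝ, ∀ p : ℕ, p.Prime →
    ({k : ℕ | 1 ≤ k ∧ k < p ∧ ¬ Mixed p k p}.ncard : ℝ) ≤ C * (p : ℝ) ^ (1 / 2 + ε) := by
  obtain ⟨K, hK⟩ := exists_nat_gt (1 / ε)
  have hK0 : (0 : ℝ) < K := lt_trans (by positivity) hK
  have hK1 : 1 ≤ K := by
    have : 0 < K := by exact_mod_cast hK0
    exact this
  obtain ⟨C, hC⟩ := fail_bound_K K hK1
  refine ⟨(C : ℝ) ^ (1 / (2 * K : ℝ)), fun p hp => ?_⟩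
  have hp1 : (1 : ℝ) ≤ p := by exact_mod_cast hp.one_lt.le
  have hp0 : (0 : ℝ) ≤ p := by linarith
  have h1 : (({k : ℕ | 1 ≤ k ∧ k < p ∧ ¬ Mixed p k p}.ncard : ℕ) : ℝ) ^ (2 * K) ≤
      (C : ℝ) * (p : ℝ) ^ (K + 2) := by exact_mod_cast hC p hp
  have h2 : (({k : ℕ | 1 ≤ k ∧ k < p ∧ ¬ Mixed p k p}.ncard : ℕ) : ℝ) =
      ((({k : ℕ | 1 ≤ k ∧ k < p ∧ ¬ Mixed p k p}.ncard : ℕ) : ℝ) ^ (2 * K)) ^ (1 / (2 * K : ℝ)) := by
    rw [← Real.rpow_natCast, ← Real.rpow_mul (by positivity)]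
    have h3 : ((2 * K : ℕ) : ℝ) * (1 / (2 * K : ℝ)) = 1 := by
      push_cast
      field_simp
    rw [h3, Real.rpow_one]
  rw [h2]
  refine (Real.rpow_le_rpow (by positivity) h1 (by positivity)).trans ?_
  rw [Real.mul_rpow (by positivity) (by positivity)]
  refine mul_le_mul_of_nonneg_left ?_ (by positivity)
  rw [← Real.rpow_natCast, ← Real.rpow_mul hp0]
  refine Real.rpow_le_rpow_of_exponent_le hp1 ?_
  have h4 : ((K + 2 : ℕ) : ℝ) * (1 / (2 * K : ℝ)) = 1 / 2 + 1 / K := by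
    push_cast
    field_simp
  rw [h4]
  have h5 : 1 / (K : ℝ) ≤ ε := by
    rw [div_le_iff₀ hK0]
    have := (div_lt_iff₀ hε).1 hK
    linarith
  linarith

end Pool.Agent.Helper68.CO2
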