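import Mathlib
import Pool.Agent.Helper68.CO2.Eps

/-!
MP_418075_nt.  Odd prime powers: all failing columns miss the same parity.
-/

set_option autoImplicit false

namespace Pool.Agent.Helper68.CO2

open ArithmeticFunction

/-- two constant columns give a translation relation -/
theorem ratio_step {n : ℕ} [hn : Fact (1 < n)] {k₁ k₂ : ℕ} {s₁ s₂ : ℤˣ} (hk₁ : 1 ≤ k₁)
    (hkn₁ : k₁ < n) (hc₁ : Nat.Coprime k₁ n) (hk₂ : 1 ≤ k₂) (hkn₂ : k₂ < n)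
    (hc₂ : Nat.Coprime k₂ n) (hs₁ : ∀ j < n, lam (j * n + k₁) = s₁)
    (hs₂ : ∀ j < n, lam (j * n + k₂) = s₂) (u : (ZMod n)ˣ) :
    FF n lam ((U n k₂ * (U n k₁)⁻¹) * u) = (s₂ * s₁⁻¹) * FF n lam u := by
  have e₁ := const_class' hk₁ hkn₁ hc₁ hs₁
  have e₂ := const_class' hk₂ hkn₂ hc₂ hs₂
  have h1 := pair_value cm_lam le_rfl (U n k₁) e₁ u
  have h2 := pair_value cm_lam le_rfl (U n k₂) e₂ ((U n k₂ * (U n k₁)⁻¹) * u)
  have h3 : U n k₂ * ((U n k₂ * (U n k₁)⁻¹) * u)⁻¹ = U n k₁ * u⁻¹ := by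
    rw [mul_inv, mul_inv, inv_inv]
    rw [← mul_assoc, ← mul_assoc, mul_inv_cancel, one_mul]
  rw [h3] at h2
  have h4 : s₂ * FF n lam u = FF n lam (U n k₂ * (U n k₁)⁻¹ * u) * s₁ := by
    rw [← h1, ← h2]
    simp only [mul_comm, mul_assoc]
  have h5 : s₂ * s₁⁻¹ * FF n lam u = s₂ * FF n lam u * s₁⁻¹ := mul_right_comm _ _ _
  rw [h5, h4, mul_inv_cancel_right]

theorem ratio_pow {n : ℕ} [hn : Fact (1 < n)] {t : (ZMod n)ˣ} {s : ℤˣ}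
    (h : ∀ u : (ZMod n)ˣ, FF n lam (t * u) = s * FF n lam u) (i : ℕ) (u : (ZMod n)ˣ) :
    FF n lam (t ^ i * u) = s ^ i * FF n lam u := by
  induction i generalizing u with
  | zero => rw [pow_zero, pow_zero, one_mul, one_mul]
  | succ i ih => rw [pow_succ, mul_assoc, ih, h, pow_succ, mul_assoc]

/-- odd prime powers: there are not both a column with only even and a column with only odd
entries -/
theorem same_parity {p e : ℕ} (hp : p.Prime) (h2 : p ≠ 2) {k₁ k₂ : ℕ} (hk₁ : 1 ≤ k₁)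
    (hkn₁ : k₁ < p ^ (e + 1)) (hpk₁ : ¬ p ∣ k₁) (hk₂ : 1 ≤ k₂) (hkn₂ : k₂ < p ^ (e + 1))
    (hpk₂ : ¬ p ∣ k₂) : (∃ j < p ^ (e + 1), Odd (cardFactors (j * p ^ (e + 1) + k₁))) ∨
      (∃ j < p ^ (e + 1), Even (cardFactors (j * p ^ (e + 1) + k₂))) := by
  by_contra hcon
  rw [not_or] at hcon
  obtain ⟨c1, c2⟩ := hcon
  have hn : Fact (1 < p ^ (e + 1)) := ⟨one_lt_pp hp⟩
  have hcop : ∀ k, ¬ p ∣ k → Nat.Coprime k (p ^ (e + 1)) := fun k hpk =>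
    Nat.Coprime.pow_right _ ((Nat.Prime.coprime_iff_not_dvd hp).2 hpk).symm
  push Not at c1 c2
  have hs₁ : ∀ j < p ^ (e + 1), lam (j * p ^ (e + 1) + k₁) = 1 := fun j hj =>
    (lam_eq_one_iff _).2 (Nat.not_odd_iff_even.1 (c1 j hj))
  have hs₂ : ∀ j < p ^ (e + 1), lam (j * p ^ (e + 1) + k₂) = -1 := fun j hj =>
    (lam_eq_neg_one_iff _).2 (Nat.not_even_iff_odd.1 (c2 j hj))
  have f₁ : ¬ Mixed (p ^ (e + 1)) k₁ (p ^ (e + 1)) := by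
    rintro ⟨_, j, hj, hj2⟩
    exact c1 j hj hj2
  have f₂ : ¬ Mixed (p ^ (e + 1)) k₂ (p ^ (e + 1)) := by
    rintro ⟨⟨j, hj, hj2⟩, _⟩
    exact c2 j hj hj2
  have hφ : p ^ e * (p - 1) ≠ 0 := by
    have h3 := hp.two_le
    exact Nat.mul_ne_zero (pow_ne_zero _ hp.ne_zero) (by omega)
  obtain ⟨v, o, ho, hvo⟩ := Nat.exists_eq_two_pow_mul_odd hφ
  have ht := pow_eq_of_fail hp h2 hk₁ hkn₁ hpk₁ hk₂ hkn₂ hpk₂ f₁ f₂ hvo
  have hstep := ratio_step hk₁ hkn₁ (hcop _ hpk₁) hk₂ hkn₂ (hcop _ hpk₂) hs₁ hs₂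
  have h3 := ratio_pow hstep o 1
  rw [ht, one_mul, inv_one, mul_one, ho.neg_one_pow, neg_mul, one_mul] at h3
  rw [FF_one cm_lam] at h3
  exact absurd h3 (by decide)

end Pool.Agent.Helper68.CO2
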