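import Mathlib

/-!
MP_418075_nt.  Numbers prime to `n` in short stretches of arithmetic progressions.
-/

set_option autoImplicit false

namespace Pool.Agent.Helper68.CO2

/-- every `J` consecutive natural numbers contain one prime to `n` -/
def JP (n J : ℕ) : Prop := ∀ a : ℕ, ∃ i < J, Nat.Coprime (a + i) n

/-- the same in progressions whose modulus is composed of primes dividing `n` -/
theorem jac_ap {n J : ℕ} (hn : n ≠ 0) (hJ : JP n J) {g : ℕ} {c : ℕ}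
    (hc : Nat.Coprime c g) (t₀ : ℕ) : ∃ i < J, Nat.Coprime (c + g * (t₀ + i)) n := by
  classical
  obtain ⟨m, hm⟩ : ∃ m, m = ∏ l ∈ n.primeFactors.filter (fun l => ¬ l ∣ g), l := ⟨_, rfl⟩
  have hgm : Nat.Coprime g m := by
    rw [hm]
    refine Nat.Coprime.prod_right fun l hl => ?_
    rw [Finset.mem_filter, Nat.mem_primeFactors] at hl
    exact ((Nat.Prime.coprime_iff_not_dvd hl.1.1).2 hl.2).symm
  have hm0 : m ≠ 0 := by
    rw [hm, Finset.prod_ne_zero_iff]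
    intro l hl
    rw [Finset.mem_filter, Nat.mem_primeFactors] at hl
    exact hl.1.1.ne_zero
  have : NeZero m := ⟨hm0⟩
  obtain ⟨w, hw⟩ : ∃ w : ℕ, (g : ZMod m) * (w : ZMod m) = (c : ZMod m) := by
    refine ⟨((c : ZMod m) * (g : ZMod m)⁻¹).val, ?_⟩
    rw [ZMod.natCast_zmod_val, mul_left_comm, ZMod.coe_mul_inv_eq_one g hgm, mul_one]
  obtain ⟨i, hi, hcop⟩ := hJ (w + t₀)
  refine ⟨i, hi, ?_⟩
  by_contra hnc
  obtain ⟨l, hl, h1, h2⟩ := Nat.Prime.not_coprime_iff_dvd.1 hnc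
  by_cases hlg : l ∣ g
  · have h3 : l ∣ c := (Nat.dvd_add_left (Dvd.dvd.mul_right hlg _)).1 h1
    have h4 : l ∣ Nat.gcd c g := Nat.dvd_gcd h3 hlg
    rw [hc] at h4
    exact hl.one_lt.ne' (Nat.dvd_one.1 h4)
  · have hlm : l ∣ m := by
      rw [hm]
      exact Finset.dvd_prod_of_mem (fun l => l)
        (Finset.mem_filter.2 ⟨Nat.mem_primeFactors.2 ⟨hl, h2, hn⟩, hlg⟩)
    have h5 : ((c + g * (t₀ + i) : ℕ) : ZMod m) = ((g * (w + t₀ + i) : ℕ) : ZMod m) := by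
      push_cast
      rw [← hw]
      ring
    have h6 : c + g * (t₀ + i) ≡ g * (w + t₀ + i) [MOD m] := (ZMod.natCast_eq_natCast_iff _ _ _).1 h5
    have h7 := h6.of_dvd hlm
    have h8 : l ∣ g * (w + t₀ + i) := (h7.dvd_iff dvd_rfl).1 h1
    rcases hl.dvd_mul.1 h8 with h9 | h9
    · exact hlg h9
    · have h10 : l ∣ Nat.gcd (w + t₀ + i) n := Nat.dvd_gcd h9 h2
      rw [hcop] at h10
      exact hl.one_lt.ne' (Nat.dvd_one.1 h10)

/-- splitting off the part prime to `n` -/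
theorem split_coprime (n : ℕ) : ∀ q : ℕ, q ≠ 0 →
    ∃ g r : ℕ, q = g * r ∧ Nat.Coprime r n ∧ ∀ l : ℕ, l.Prime → l ∣ g → l ∣ n := by
  intro q
  induction q using Nat.recOnMul with
  | zero => intro h; exact absurd rfl h
  | one =>
    intro _
    refine ⟨1, 1, rfl, Nat.coprime_one_left n, ?_⟩
    intro l hl hd
    exact absurd (Nat.dvd_one.1 hd) hl.one_lt.ne'
  | prime q hq =>
    intro _
    by_cases h : q ∣ n
    · refine ⟨q, 1, (mul_one q).symm, Nat.coprime_one_left n, ?_⟩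
      intro l hl hd
      rw [(Nat.prime_dvd_prime_iff_eq hl hq).1 hd]
      exact h
    · refine ⟨1, q, (one_mul q).symm, (Nat.Prime.coprime_iff_not_dvd hq).2 h, ?_⟩
      intro l hl hd
      exact absurd (Nat.dvd_one.1 hd) hl.one_lt.ne'
  | mul a b iha ihb =>
    intro h0
    obtain ⟨g₁, r₁, e₁, c₁, d₁⟩ := iha (left_ne_zero_of_mul h0)
    obtain ⟨g₂, r₂, e₂, c₂, d₂⟩ := ihb (right_ne_zero_of_mul h0)
    refine ⟨g₁ * g₂, r₁ * r₂, by rw [e₁, e₂]; ring, Nat.Coprime.mul_left c₁ c₂, ?_⟩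
    intro l hl hd
    rcases hl.dvd_mul.1 hd with h | h
    · exact d₁ l hl h
    · exact d₂ l hl h

theorem JP.pos {n J : ℕ} (hJ : JP n J) : 0 < J := by
  obtain ⟨i, hi, _⟩ := hJ 0
  omega

end Pool.Agent.Helper68.CO2
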