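import Mathlib
import Pool.Agent.Helper68.CO2.Class
import Pool.Agent.Helper68.CO2.Jac

/-!
MP_418075_nt.  Every coset of the stabilizer contains a small residue, if the stabilizer contains
all numbers below `d` prime to `n`.
-/

set_option autoImplicit false

namespace Pool.Agent.Helper68.CO2

variable {A : Type*} [CommGroup A]

theorem dirichlet (x n Q : ℕ) (hn : 0 < n) (hQ : 0 < Q) :
    ∃ q : ℕ, ∃ j : ℤ, 1 ≤ q ∧ q ≤ Q ∧ |(q : ℤ) * x - n * j| * (Q + 1) ≤ n := by
  obtain ⟨j, k, hk0, hkQ, h⟩ := Real.exists_int_int_abs_mul_sub_le ((x : ℝ) / n) hQ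
  refine ⟨k.toNat, j, by omega, by omega, ?_⟩
  have hk : ((k.toNat : ℕ) : ℤ) = k := Int.toNat_of_nonneg hk0.le
  rw [hk]
  have hn' : (0 : ℝ) < n := by exact_mod_cast hn
  have hQ' : (0 : ℝ) < (Q : ℝ) + 1 := by positivity
  rw [le_div_iff₀ hQ'] at h
  have h1 : (((k * x - n * j : ℤ)) : ℝ) = n * ((k : ℝ) * ((x : ℝ) / n) - j) := by
    push_cast
    field_simp
  have h2 : ((|k * x - n * j| * (Q + 1) : ℤ) : ℝ) ≤ ((n : ℤ) : ℝ) := by
    rw [Int.cast_mul, Int.cast_abs, h1, abs_mul, abs_of_pos hn']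
    push_cast
    calc (n : ℝ) * |(k : ℝ) * ((x : ℝ) / n) - j| * ((Q : ℝ) + 1)
        = n * (|(k : ℝ) * ((x : ℝ) / n) - j| * ((Q : ℝ) + 1)) := by ring
      _ ≤ n * 1 := mul_le_mul_of_nonneg_left h hn'.le
      _ = n := mul_one _
  exact_mod_cast h2

/-- the points of the lattice on a line -/
theorem line {n : ℕ} {x : ℕ} {w : ZMod n} (hw : w = (x : ZMod n)) {g : ℕ} {j r a b β q : ℤ}
    (h1 : (g : ℤ) * x - n * j = r) (h2 : (g : ℤ) * b - a * j = 1) (h3 : (g : ℤ) ∣ q - β * a) :
    ∃ R : ℤ, (g : ℤ) * R = r * q - β * n ∧ (q : ZMod n) * w = (R : ZMod n) := by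
  obtain ⟨t, ht⟩ := h3
  refine ⟨β * (a * x - n * b) + t * r, ?_, ?_⟩
  · have e1 : q = β * a + g * t := by linear_combination ht
    rw [e1]
    linear_combination (β * a) * h1 - (β * n) * h2
  · have e2 : q * x = β * (a * x - n * b) + t * r + n * (β * b + t * j) := by
      linear_combination (x : ℤ) * ht + t * h1
    rw [hw]
    have e3 : ((q * x : ℤ) : ZMod n) = ((β * (a * x - n * b) + t * r : ℤ) : ZMod n) := by
      rw [e2, Int.cast_add _ ((n : ℤ) * _), Int.cast_mul (n : ℤ), Int.cast_natCast (n := n),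
        ZMod.natCast_self, zero_mul, add_zero]
    rw [← e3]
    push_cast
    ring

theorem pick_up {n J : ℕ} (hn : n ≠ 0) (hJ : JP n J) {g c M B : ℕ} (hc : Nat.Coprime c g)
    (hcg : c < g) (hM : 0 < M) :
    ∃ h t : ℕ, Nat.Coprime h n ∧ h = c + g * t ∧ B * n < M * h ∧ M * h ≤ B * n + M * (g * J) := by
  classical
  have hg : 0 < g := by omega
  have hex : ∃ t, B * n < M * (c + g * t) := by
    refine ⟨B * n + 1, ?_⟩
    calc B * n < B * n + 1 := Nat.lt_succ_self _
      _ ≤ g * (B * n + 1) := Nat.le_mul_of_pos_left _ hg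
      _ ≤ c + g * (B * n + 1) := Nat.le_add_left _ _
      _ ≤ M * (c + g * (B * n + 1)) := Nat.le_mul_of_pos_left _ hM
  obtain ⟨i, hi, hcop⟩ := jac_ap hn hJ hc (Nat.find hex)
  refine ⟨_, Nat.find hex + i, hcop, rfl, ?_, ?_⟩
  · refine lt_of_lt_of_le (Nat.find_spec hex) (Nat.mul_le_mul_left M ?_)
    exact Nat.add_le_add_left (Nat.mul_le_mul_left g (Nat.le_add_right _ _)) _
  · rcases Nat.eq_zero_or_pos (Nat.find hex) with h0 | h0
    · rw [h0, zero_add]
      refine le_trans (Nat.mul_le_mul_left M ?_) (Nat.le_add_left _ _)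
      calc c + g * i ≤ g + g * i := Nat.add_le_add_right hcg.le _
        _ = g * (i + 1) := by ring
        _ ≤ g * J := Nat.mul_le_mul_left g hi
    · have hmin := Nat.find_min hex (m := Nat.find hex - 1) (by omega)
      push Not at hmin
      have e1 : c + g * (Nat.find hex + i) = (c + g * (Nat.find hex - 1)) + g * (i + 1) := by
        have : Nat.find hex + i = (Nat.find hex - 1) + (i + 1) := by omega
        rw [this]
        ring
      rw [e1, Nat.mul_add]
      exact Nat.add_le_add hmin (Nat.mul_le_mul_left M (Nat.mul_le_mul_left g hi))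

theorem pick_down {n J : ℕ} (hn : n ≠ 0) (hJ : JP n J) {g c M B : ℕ} (hc : Nat.Coprime c g)
    (hcg : c < g) (hM : 0 < M) (hMg : M * (g * J) ≤ B * n) :
    ∃ h t : ℕ, Nat.Coprime h n ∧ h = c + g * t ∧ M * h < B * n ∧ B * n ≤ M * h + M * (g * J) := by
  classical
  have hg : 0 < g := by omega
  have hex : ∃ t, B * n ≤ M * (c + g * t) := by
    refine ⟨B * n, ?_⟩
    calc B * n ≤ g * (B * n) := Nat.le_mul_of_pos_left _ hg
      _ ≤ c + g * (B * n) := Nat.le_add_left _ _
      _ ≤ M * (c + g * (B * n)) := Nat.le_mul_of_pos_left _ hM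
  have hT : J ≤ Nat.find hex := by
    by_contra hlt
    push Not at hlt
    have h1 := Nat.find_spec hex
    have h2 : c + g * Nat.find hex < g * J := by
      calc c + g * Nat.find hex < g + g * Nat.find hex := Nat.add_lt_add_right hcg _
        _ = g * (Nat.find hex + 1) := by ring
        _ ≤ g * J := Nat.mul_le_mul_left g hlt
    have h3 : M * (c + g * Nat.find hex) < M * (g * J) := Nat.mul_lt_mul_of_pos_left h2 hM
    omega
  obtain ⟨i, hi, hcop⟩ := jac_ap hn hJ hc (Nat.find hex - J)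
  refine ⟨_, Nat.find hex - J + i, hcop, rfl, ?_, ?_⟩
  · have hmin := Nat.find_min hex (m := Nat.find hex - J + i) (by omega)
    push Not at hmin
    exact hmin
  · have h1 := Nat.find_spec hex
    refine h1.trans ?_
    rw [← Nat.mul_add]
    refine Nat.mul_le_mul_left M ?_
    rw [add_assoc, ← Nat.mul_add]
    exact Nat.add_le_add_left (Nat.mul_le_mul_left g (by omega)) _

end Pool.Agent.Helper68.CO2
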