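import Mathlib
import Pool.Agent.Helper68.CO2.Reach

/-!
MP_418075_nt.  Every coset of the stabilizer contains a small residue (main step).
-/

set_option autoImplicit false

namespace Pool.Agent.Helper68.CO2

variable {A : Type*} [CommGroup A]

/-- the auxiliary multiplier -/
theorem scale {n q₀ ρ d B : ℕ} (hq₀ : 2 ≤ q₀) (hρ : 0 < ρ) (hd : 0 < d) :
    ∃ i, 2 * (B * n) ≤ d * (ρ * q₀ ^ i) ∧ (i = 0 ∨ d * (ρ * q₀ ^ i) < 2 * (B * n) * q₀) := by
  classical
  have hex : ∃ i, 2 * (B * n) ≤ d * (ρ * q₀ ^ i) := by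
    refine ⟨2 * (B * n), ?_⟩
    calc 2 * (B * n) ≤ q₀ ^ (2 * (B * n)) := (Nat.lt_pow_self (by omega)).le
      _ ≤ ρ * q₀ ^ (2 * (B * n)) := Nat.le_mul_of_pos_left _ hρ
      _ ≤ d * (ρ * q₀ ^ (2 * (B * n))) := Nat.le_mul_of_pos_left _ hd
  refine ⟨Nat.find hex, Nat.find_spec hex, ?_⟩
  rcases Nat.eq_zero_or_pos (Nat.find hex) with h0 | h0
  · exact Or.inl h0
  · right
    have hmin := Nat.find_min hex (m := Nat.find hex - 1) (by omega)
    push Not at hmin
    have e1 : Nat.find hex = (Nat.find hex - 1) + 1 := by omega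
    have e2 : d * (ρ * q₀ ^ Nat.find hex) = d * (ρ * q₀ ^ (Nat.find hex - 1)) * q₀ := by
      rw [e1, pow_succ, Nat.add_sub_cancel]
      ring
    rw [e2]
    exact Nat.mul_lt_mul_of_pos_right hmin (by omega)

theorem U_mul {n a b : ℕ} (ha : Nat.Coprime a n) (hb : Nat.Coprime b n) :
    U n (a * b) = U n a * U n b := by
  apply Units.ext
  rw [coe_U (Nat.Coprime.mul_left ha hb), Units.val_mul, coe_U ha, coe_U hb, Nat.cast_mul]

theorem U_pow {n a : ℕ} (ha : Nat.Coprime a n) (i : ℕ) : U n (a ^ i) = U n a ^ i := by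
  apply Units.ext
  rw [coe_U (Nat.Coprime.pow_left i ha), Units.val_pow_eq_pow_val, coe_U ha, Nat.cast_pow]

/-- a short vector whose first coordinate is composed of primes dividing `n` -/
theorem short_vector {n : ℕ} [hn : Fact (1 < n)] {f : ℕ → A} (hf : CM f) {Q d : ℕ} (hQ : 0 < Q)
    (hQd : Q < d) (hdn : d ≤ n)
    (hH : ∀ e, 0 < e → e < d → Nat.Coprime e n → U n e ∈ HH n f hf) (u : (ZMod n)ˣ) :
    ∃ (g : ℕ) (h : (ZMod n)ˣ) (j r a b : ℤ), 1 ≤ g ∧ g ≤ Q ∧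
      (∀ l : ℕ, l.Prime → l ∣ g → l ∣ n) ∧ h ∈ HH n f hf ∧ |r| * (Q + 1) ≤ n ∧ r ≠ 0 ∧
      (g : ℤ) * ((h * u : (ZMod n)ˣ) : ZMod n).val - n * j = r ∧ (g : ℤ) * b - a * j = 1 := by
  classical
  have hn1 := hn.out
  have : NeZero n := ⟨by omega⟩
  obtain ⟨S, hS⟩ : ∃ S : ℕ → Prop, S = fun g => 1 ≤ g ∧ g ≤ Q ∧
      (∀ l : ℕ, l.Prime → l ∣ g → l ∣ n) ∧ ∃ h ∈ HH n f hf, ∃ j : ℤ,
        |(g : ℤ) * ((h * u : (ZMod n)ˣ) : ZMod n).val - n * j| * (Q + 1) ≤ n := ⟨_, rfl⟩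
  have hex : ∃ g, S g := by
    obtain ⟨q, j, hq1, hqQ, hqj⟩ := dirichlet (u : ZMod n).val n Q (by omega) hQ
    obtain ⟨g, q', hgq, hcop, hgn⟩ := split_coprime n q (by omega)
    have hg1 : 1 ≤ g := by
      rcases Nat.eq_zero_or_pos g with h | h
      · rw [h, zero_mul] at hgq
        omega
      · exact h
    have hq'1 : 1 ≤ q' := by
      rcases Nat.eq_zero_or_pos q' with h | h
      · rw [h, mul_zero] at hgq
        omega
      · exact h
    have hgQ : g ≤ Q := by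
      have : g ≤ g * q' := Nat.le_mul_of_pos_right g hq'1
      omega
    have hq'Q : q' ≤ Q := by
      have : q' ≤ g * q' := Nat.le_mul_of_pos_left q' hg1
      omega
    refine ⟨g, ?_⟩
    rw [hS]
    refine ⟨hg1, hgQ, hgn, U n q', hH q' hq'1 (by omega) hcop, ?_⟩
    -- the new numerator
    have h1 : (((g : ℤ) * ((U n q' * u : (ZMod n)ˣ) : ZMod n).val - ((q : ℤ) * (u : ZMod n).val)
        : ℤ) : ZMod n) = 0 := by
      push_cast
      rw [ZMod.natCast_zmod_val, ZMod.natCast_zmod_val, coe_U hcop, hgq]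
      push_cast
      ring
    rw [ZMod.intCast_zmod_eq_zero_iff_dvd] at h1
    obtain ⟨t, ht⟩ := h1
    refine ⟨j + t, ?_⟩
    have h2 : (g : ℤ) * ((U n q' * u : (ZMod n)ˣ) : ZMod n).val - n * (j + t) =
        (q : ℤ) * (u : ZMod n).val - n * j := by linear_combination ht
    rw [h2]
    exact hqj
  have hspec := Nat.find_spec hex
  have hmin : ∀ m, m < Nat.find hex → ¬ S m := fun m hm => Nat.find_min hex hm
  generalize Nat.find hex = g at hspec hmin
  rw [hS] at hspec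
  obtain ⟨hg1, hgQ, hgn, h, hh, j, hj⟩ := hspec
  obtain ⟨r, hr⟩ : ∃ r : ℤ, r = (g : ℤ) * ((h * u : (ZMod n)ˣ) : ZMod n).val - n * j := ⟨_, rfl⟩
  rw [← hr] at hj
  have hr0 : r ≠ 0 := by
    intro h0
    rw [h0] at hr
    have h1 : ((g : ℕ) : ZMod n) * ((h * u : (ZMod n)ˣ) : ZMod n) = 0 := by
      have h2 : ((0 : ℤ) : ZMod n) = (((g : ℤ) * ((h * u : (ZMod n)ˣ) : ZMod n).val - n * j : ℤ) :
          ZMod n) := by rw [← hr]
      push_cast at h2
      rw [ZMod.natCast_zmod_val, ZMod.natCast_self, zero_mul, sub_zero] at h2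
      rw [Units.val_mul]
      exact h2.symm
    rw [Units.mul_left_eq_zero, ZMod.natCast_eq_zero_iff] at h1
    have := Nat.le_of_dvd (by omega) h1
    omega
  have hcop : IsCoprime (g : ℤ) j := by
    rw [Int.isCoprime_iff_gcd_eq_one]
    by_contra hk
    obtain ⟨k, hkdef⟩ : ∃ k, k = Int.gcd (g : ℤ) j := ⟨_, rfl⟩
    rw [← hkdef] at hk
    obtain ⟨g', hg'⟩ : (k : ℤ) ∣ (g : ℤ) := by rw [hkdef]; exact Int.gcd_dvd_left _ _
    obtain ⟨j', hj'⟩ : (k : ℤ) ∣ j := by rw [hkdef]; exact Int.gcd_dvd_right _ _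
    have hk0 : 0 < k := by
      rcases Nat.eq_zero_or_pos k with h0 | h0
      · rw [h0, Nat.cast_zero, zero_mul] at hg'
        have : g = 0 := by exact_mod_cast hg'
        omega
      · exact h0
    have hk0' : (0 : ℤ) < k := by exact_mod_cast hk0
    have hg'0 : 0 < g' := by
      have h1 : (0 : ℤ) < (k : ℤ) * g' := by
        rw [← hg']
        exact_mod_cast hg1
      exact (mul_pos_iff_of_pos_left hk0').1 h1
    obtain ⟨m, rfl⟩ : ∃ m : ℕ, g' = m := ⟨g'.toNat, (Int.toNat_of_nonneg hg'0.le).symm⟩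
    have hm : g = k * m := by exact_mod_cast hg'
    have hm0 : 0 < m := by exact_mod_cast hg'0
    have hmg : m < g := by
      rw [hm]
      have hk2 : 2 ≤ k := by omega
      calc m < 2 * m := by omega
        _ ≤ k * m := Nat.mul_le_mul_right m hk2
    refine hmin m hmg ?_
    rw [hS]
    refine ⟨hm0, by omega, fun l hl hd => hgn l hl (by rw [hm]; exact Dvd.dvd.mul_left hd k), h, hh,
      j', ?_⟩
    have h3 : r = k * ((m : ℤ) * ((h * u : (ZMod n)ˣ) : ZMod n).val - n * j') := by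
      rw [hr, hg', hj']
      ring
    have h4 : |(m : ℤ) * ((h * u : (ZMod n)ˣ) : ZMod n).val - n * j'| ≤ |r| := by
      rw [h3, abs_mul, abs_of_pos hk0']
      exact le_mul_of_one_le_left (abs_nonneg _) hk0'
    refine le_trans (mul_le_mul_of_nonneg_right h4 ?_) hj
    positivity
  obtain ⟨b, a, hab⟩ := hcop
  exact ⟨g, h, j, r, -a, b, hg1, hgQ, hgn, hh, hj, hr0, hr.symm, by linear_combination hab⟩

end Pool.Agent.Helper68.CO2
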