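import Mathlib
import Pool.Agent.Helper68.CO2.Reach2
import Pool.Agent.Helper68.CO2.Arith

/-!
MP_418075_nt.  Every homomorphism from `(ZMod n)ˣ` to `±1` is a Jacobi symbol `J(D | ·)` on the odd
numbers prime to `n`, with `D` dividing `n`.
-/

set_option autoImplicit false

namespace Pool.Agent.Helper68.CO2

open ZMod

theorem units_eq_of_mul {x y : ℤˣ} (h : x * y = 1) : y = x := by
  rcases Int.units_eq_one_or x with rfl | rfl <;> rcases Int.units_eq_one_or y with rfl | rfl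
  · rfl
  · exact absurd h (by decide)
  · exact absurd h (by decide)
  · rfl

theorem units_odd_pow {x : ℤˣ} {N : ℕ} (hN : Odd N) (h : x ^ N = 1) : x = 1 := by
  rcases Int.units_eq_one_or x with rfl | rfl
  · rfl
  · rw [hN.neg_one_pow] at h
    exact absurd h (by decide)

theorem cover_two' {a : ℤ} (ha : (8 : ℤ) ∣ 1 - a) (s : ℕ) : ∃ i : ℕ, (8 * 2 ^ s : ℤ) ∣ 9 ^ i - a := by
  have h := cover (p := 2) Nat.prime_two (M := 8) (a := a) (b := 9) (by norm_num) (by norm_num)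
    ha ?_ s
  · exact_mod_cast h
  · intro s
    induction s with
    | zero => exact ⟨1, by norm_num, by norm_num⟩
    | succ s ih =>
      obtain ⟨t, ht, htp⟩ := ih
      refine ⟨t + 4 * 2 ^ s * t ^ 2, ?_, ?_⟩
      · rw [pow_succ 2 s, pow_mul, ht]
        push_cast
        ring
      · intro h
        apply htp
        have h1 : ((2 : ℕ) : ℤ) ∣ 4 * 2 ^ s * t ^ 2 :=
          Dvd.dvd.mul_right (Dvd.dvd.mul_right (by norm_num) _) _
        exact (dvd_add_left h1).1 h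

/-- a real homomorphism modulo `2 ^ k` is trivial on `1 mod 8` -/
theorem two_trivial {k : ℕ} (F : (ZMod (2 ^ k))ˣ →* ℤˣ) {q : ℕ} (hq : q % 8 = 1) :
    F (U (2 ^ k) q) = 1 := by
  have hq2 : Nat.Coprime q (2 ^ k) :=
    Nat.Coprime.pow_right _ (Nat.coprime_two_right.2 (by rw [Nat.odd_iff]; omega))
  have h3 : Nat.Coprime 3 (2 ^ k) := Nat.Coprime.pow_right _ (by norm_num)
  obtain ⟨i, hi⟩ := cover_two' (a := q) (by omega) k
  have h1 : U (2 ^ k) q = U (2 ^ k) 3 ^ (2 * i) := by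
    apply Units.ext
    rw [coe_U hq2, Units.val_pow_eq_pow_val, coe_U h3]
    have h4 : (((9 : ℤ) ^ i - q : ℤ) : ZMod (2 ^ k)) = 0 := by
      rw [ZMod.intCast_zmod_eq_zero_iff_dvd]
      push_cast
      exact (Dvd.intro_left 8 rfl).trans hi
    push_cast at h4 ⊢
    rw [pow_mul]
    have h5 : (3 : ZMod (2 ^ k)) ^ 2 = 9 := by norm_num
    rw [h5]
    exact (sub_eq_zero.1 h4).symm
  rw [h1, map_pow, pow_mul, pow_two, Int.units_mul_self, one_pow]

theorem real_two (k : ℕ) (hk : 0 < k) (F : (ZMod (2 ^ k))ˣ →* ℤˣ) :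
    ∃ D : ℤ, D ≠ 0 ∧ D.natAbs ∣ 2 ^ k ∧ ∀ q : ℕ, Odd q → Nat.Coprime q (2 ^ k) →
      ((F (U (2 ^ k) q) : ℤˣ) : ℤ) = jacobiSym D q := by
  have hcop : ∀ q : ℕ, q % 2 = 1 → Nat.Coprime q (2 ^ k) := fun q hq =>
    Nat.Coprime.pow_right _ (Nat.coprime_two_right.2 (Nat.odd_iff.2 hq))
  have h2k : 2 ∣ 2 ^ k := dvd_pow_self 2 hk.ne'
  have v3 : ∀ q : ℕ, q % 8 = 3 → F (U (2 ^ k) q) = F (U (2 ^ k) 3) := by
    intro q hq
    have h := two_trivial F (q := 3 * q) (by omega)
    rw [U_mul (hcop 3 rfl) (hcop q (by omega)), map_mul] at h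
    exact units_eq_of_mul h
  have v5 : ∀ q : ℕ, q % 8 = 5 → F (U (2 ^ k) q) = F (U (2 ^ k) 5) := by
    intro q hq
    have h := two_trivial F (q := 5 * q) (by omega)
    rw [U_mul (hcop 5 rfl) (hcop q (by omega)), map_mul] at h
    exact units_eq_of_mul h
  have v7 : ∀ q : ℕ, q % 8 = 7 → F (U (2 ^ k) q) = F (U (2 ^ k) 3) * F (U (2 ^ k) 5) := by
    intro q hq
    have h := two_trivial F (q := (3 * 5) * q) (by omega)
    rw [U_mul (hcop (3 * 5) rfl) (hcop q (by omega)), map_mul] at h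
    have h2 := units_eq_of_mul h
    rw [U_mul (hcop 3 rfl) (hcop 5 rfl), map_mul] at h2
    exact h2
  have v1 : ∀ q : ℕ, q % 8 = 1 → F (U (2 ^ k) q) = 1 := fun q hq => two_trivial F hq
  have hc : ∀ q : ℕ, Odd q → q % 8 = 1 ∨ q % 8 = 3 ∨ q % 8 = 5 ∨ q % 8 = 7 := by
    intro q hq
    rw [Nat.odd_iff] at hq
    omega
  rcases Int.units_eq_one_or (F (U (2 ^ k) 3)) with h3 | h3 <;>
  rcases Int.units_eq_one_or (F (U (2 ^ k) 5)) with h5 | h5
  · refine ⟨1, by norm_num, by simp, ?_⟩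
    intro q hq _
    rw [jacobiSym.one_left]
    rcases hc q hq with h | h | h | h
    · rw [v1 q h]; rfl
    · rw [v3 q h, h3]; rfl
    · rw [v5 q h, h5]; rfl
    · rw [v7 q h, h3, h5]; rfl
  · refine ⟨-2, by norm_num, by simpa using h2k, ?_⟩
    intro q hq _
    rw [jacobiSym.at_neg_two hq, χ₈'_nat_eq_if_mod_eight]
    rcases hc q hq with h | h | h | h
    · rw [v1 q h, if_neg (by omega), if_pos (by omega)]; rfl
    · rw [v3 q h, h3, if_neg (by omega), if_pos (by omega)]; rfl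
    · rw [v5 q h, h5, if_neg (by omega), if_neg (by omega)]; rfl
    · rw [v7 q h, h3, h5, if_neg (by omega), if_neg (by omega)]; rfl
  · refine ⟨-1, by norm_num, by simp, ?_⟩
    intro q hq _
    rw [jacobiSym.at_neg_one hq, χ₄_nat_eq_if_mod_four]
    rcases hc q hq with h | h | h | h
    · rw [v1 q h, if_neg (by omega), if_pos (by omega)]; rfl
    · rw [v3 q h, h3, if_neg (by omega), if_neg (by omega)]; rfl
    · rw [v5 q h, h5, if_neg (by omega), if_pos (by omega)]; rfl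
    · rw [v7 q h, h3, h5, if_neg (by omega), if_neg (by omega)]; rfl
  · refine ⟨2, by norm_num, by simpa using h2k, ?_⟩
    intro q hq _
    rw [jacobiSym.at_two hq, χ₈_nat_eq_if_mod_eight]
    rcases hc q hq with h | h | h | h
    · rw [v1 q h, if_neg (by omega), if_pos (by omega)]; rfl
    · rw [v3 q h, h3, if_neg (by omega), if_neg (by omega)]; rfl
    · rw [v5 q h, h5, if_neg (by omega), if_neg (by omega)]; rfl
    · rw [v7 q h, h3, h5, if_neg (by omega), if_pos (by omega)]; rfl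

end Pool.Agent.Helper68.CO2
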