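import Mathlib
import Pool.Agent.Helper68.CO2.Real

/-!
MP_418075_nt.  Classification of the homomorphisms from `(ZMod n)ˣ` to `±1`, odd prime powers and
coprime products.
-/

set_option autoImplicit false

namespace Pool.Agent.Helper68.CO2

open ZMod

/-- a real homomorphism modulo an odd prime power is trivial on quadratic residues -/
theorem odd_trivial {p e : ℕ} [hp : Fact p.Prime] (h2 : p ≠ 2) (F : (ZMod (p ^ (e + 1)))ˣ →* ℤˣ)
    {q : ℕ} (hq : ¬ p ∣ q) (hs : IsSquare (q : ZMod p)) : F (U (p ^ (e + 1)) q) = 1 := by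
  obtain ⟨z, hz⟩ := hs
  have hq0 : (q : ZMod p) ≠ 0 := by
    rw [Ne, ZMod.natCast_eq_zero_iff]
    exact hq
  have hz0 : z ≠ 0 := by
    rintro rfl
    rw [mul_zero] at hz
    exact hq0 hz
  have hcop : ∀ x : ℕ, ¬ p ∣ x → Nat.Coprime x (p ^ (e + 1)) := fun x hx =>
    Nat.Coprime.pow_right _ ((Nat.Prime.coprime_iff_not_dvd hp.out).2 hx).symm
  have hzp : ¬ p ∣ z.val := by
    intro h
    have h1 : ((z.val : ℕ) : ZMod p) = 0 := (ZMod.natCast_eq_zero_iff _ _).2 h
    rw [ZMod.natCast_zmod_val] at h1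
    exact hz0 h1
  have h1 : (p : ℤ) ∣ (q : ℤ) - (z.val : ℤ) ^ 2 := by
    rw [← ZMod.intCast_zmod_eq_zero_iff_dvd]
    push_cast
    rw [ZMod.natCast_zmod_val, hz]
    ring
  have h3 := dvd_sub_pow_of_dvd_sub h1 e
  have hNodd : Odd (p ^ e) := by
    refine Odd.pow ?_
    rcases hp.out.eq_two_or_odd' with h | h
    · exact absurd h h2
    · exact h
  have h4 : U (p ^ (e + 1)) q ^ (p ^ e) = U (p ^ (e + 1)) z.val ^ (2 * p ^ e) := by
    apply Units.ext
    rw [Units.val_pow_eq_pow_val, Units.val_pow_eq_pow_val, coe_U (hcop q hq), coe_U (hcop _ hzp)]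
    have h5 : (((q : ℤ) ^ p ^ e - ((z.val : ℤ) ^ 2) ^ p ^ e : ℤ) : ZMod (p ^ (e + 1))) = 0 := by
      rw [ZMod.intCast_zmod_eq_zero_iff_dvd]
      push_cast
      exact h3
    push_cast at h5 ⊢
    rw [pow_mul]
    exact sub_eq_zero.1 h5
  have h6 : F (U (p ^ (e + 1)) q) ^ (p ^ e) = 1 := by
    rw [← map_pow, h4, map_pow, pow_mul, pow_two, Int.units_mul_self, one_pow]
  exact units_odd_pow hNodd h6

/-- reciprocity in the required form -/
theorem recip {p : ℕ} [hp : Fact p.Prime] (h2 : p ≠ 2) : ∃ D : ℤ, D ≠ 0 ∧ D.natAbs = p ∧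
    ∀ q : ℕ, Odd q → jacobiSym D q = legendreSym p q := by
  have hodd : p % 2 = 1 := by
    rcases hp.out.eq_two_or_odd with h | h
    · exact absurd h h2
    · exact h
  have hp0 : (p : ℤ) ≠ 0 := by exact_mod_cast hp.out.ne_zero
  have h4 : p % 4 = 1 ∨ p % 4 = 3 := by omega
  rcases h4 with h4 | h4
  · refine ⟨p, hp0, Int.natAbs_natCast p, ?_⟩
    intro q hq
    rw [jacobiSym.legendreSym.to_jacobiSym, jacobiSym.quadratic_reciprocity_one_mod_four h4 hq]
  · refine ⟨-p, neg_ne_zero.2 hp0, by rw [Int.natAbs_neg, Int.natAbs_natCast], ?_⟩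
    intro q hq
    rw [jacobiSym.legendreSym.to_jacobiSym, jacobiSym.neg _ hq]
    have hq' := hq
    rw [Nat.odd_iff] at hq'
    have hq4 : q % 4 = 1 ∨ q % 4 = 3 := by omega
    rcases hq4 with hq4 | hq4
    · rw [χ₄_nat_one_mod_four hq4, one_mul,
        ← jacobiSym.quadratic_reciprocity_one_mod_four hq4 (Nat.odd_iff.2 hodd)]
    · rw [χ₄_nat_three_mod_four hq4, jacobiSym.quadratic_reciprocity_three_mod_four h4 hq4]
      ring

theorem real_odd {p e : ℕ} (hp' : p.Prime) (h2 : p ≠ 2) (F : (ZMod (p ^ (e + 1)))ˣ →* ℤˣ) :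
    ∃ D : ℤ, D ≠ 0 ∧ D.natAbs ∣ p ^ (e + 1) ∧ ∀ q : ℕ, Odd q → Nat.Coprime q (p ^ (e + 1)) →
      ((F (U (p ^ (e + 1)) q) : ℤˣ) : ℤ) = jacobiSym D q := by
  have hp : Fact p.Prime := ⟨hp'⟩
  have hcop : ∀ x : ℕ, ¬ p ∣ x → Nat.Coprime x (p ^ (e + 1)) := fun x hx =>
    Nat.Coprime.pow_right _ ((Nat.Prime.coprime_iff_not_dvd hp').2 hx).symm
  have hnd : ∀ x : ℕ, Nat.Coprime x (p ^ (e + 1)) → ¬ p ∣ x := by
    intro x hx h
    have h1 : p ∣ Nat.gcd x (p ^ (e + 1)) := Nat.dvd_gcd h (dvd_pow_self p (Nat.succ_ne_zero e))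
    rw [hx] at h1
    exact hp'.one_lt.ne' (Nat.dvd_one.1 h1)
  by_cases hF : ∀ q : ℕ, Nat.Coprime q (p ^ (e + 1)) → F (U (p ^ (e + 1)) q) = 1
  · refine ⟨1, by norm_num, by simp, ?_⟩
    intro q _ hq
    rw [jacobiSym.one_left, hF q hq]
    rfl
  · push Not at hF
    obtain ⟨m, hm, hFm⟩ := hF
    have hFm' : F (U (p ^ (e + 1)) m) = -1 := (Int.units_eq_one_or _).resolve_left hFm
    have hmp := hnd m hm
    have hms : ¬ IsSquare (m : ZMod p) := fun h => hFm (odd_trivial h2 F hmp h)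
    have hm0 : ((m : ℤ) : ZMod p) ≠ 0 := by
      rw [Int.cast_natCast, Ne, ZMod.natCast_eq_zero_iff]
      exact hmp
    have hlm : legendreSym p m = -1 := by
      rcases legendreSym.eq_one_or_neg_one p hm0 with h | h
      · rw [legendreSym.eq_one_iff p hm0, Int.cast_natCast] at h
        exact absurd h hms
      · exact h
    obtain ⟨D, hD0, hDp, hD⟩ := recip (p := p) h2
    refine ⟨D, hD0, by rw [hDp]; exact dvd_pow_self p (Nat.succ_ne_zero e), ?_⟩
    intro q hqo hq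
    rw [hD q hqo]
    have hqp := hnd q hq
    have hq0 : ((q : ℤ) : ZMod p) ≠ 0 := by
      rw [Int.cast_natCast, Ne, ZMod.natCast_eq_zero_iff]
      exact hqp
    rcases legendreSym.eq_one_or_neg_one p hq0 with h | h
    · rw [h]
      rw [legendreSym.eq_one_iff p hq0, Int.cast_natCast] at h
      rw [odd_trivial h2 F hqp h]
      rfl
    · rw [h]
      have h3 : legendreSym p ((m * q : ℕ) : ℤ) = 1 := by
        rw [Nat.cast_mul, legendreSym.mul, hlm, h]
        norm_num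
      have hmq : ¬ p ∣ m * q := by
        intro hd
        rcases hp'.dvd_mul.1 hd with hd | hd
        · exact hmp hd
        · exact hqp hd
      have hmq0 : (((m * q : ℕ) : ℤ) : ZMod p) ≠ 0 := by
        rw [Int.cast_natCast, Ne, ZMod.natCast_eq_zero_iff]
        exact hmq
      rw [legendreSym.eq_one_iff p hmq0, Int.cast_natCast] at h3
      have h4 := odd_trivial h2 F hmq h3
      rw [U_mul hm hq, map_mul] at h4
      rw [units_eq_of_mul h4, hFm']
      rfl

/-- the classification -/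
theorem real_class : ∀ n : ℕ, n ≠ 0 → ∀ F : (ZMod n)ˣ →* ℤˣ,
    ∃ D : ℤ, D ≠ 0 ∧ D.natAbs ∣ n ∧ ∀ q : ℕ, Odd q → Nat.Coprime q n →
      ((F (U n q) : ℤˣ) : ℤ) = jacobiSym D q := by
  intro n
  induction n using Nat.recOnPosPrimePosCoprime with
  | zero => intro h; exact absurd rfl h
  | one =>
    intro _ F
    refine ⟨1, by norm_num, by simp, ?_⟩
    intro q _ _
    have h1 : U 1 q = 1 := Subsingleton.elim _ _
    rw [jacobiSym.one_left, h1, map_one]
    rfl
  | prime_pow p k hp hk =>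
    intro _ F
    by_cases h2 : p = 2
    · subst h2
      exact real_two k hk F
    · obtain ⟨e, rfl⟩ : ∃ e, k = e + 1 := ⟨k - 1, by omega⟩
      exact real_odd hp h2 F
  | coprime a b ha hb hab iha ihb =>
    intro _ F
    obtain ⟨E, hE⟩ : ∃ E : (ZMod (a * b))ˣ ≃* (ZMod a)ˣ × (ZMod b)ˣ,
        E = (Units.mapEquiv (ZMod.chineseRemainder hab).toMulEquiv).trans MulEquiv.prodUnits :=
      ⟨_, rfl⟩
    obtain ⟨D₁, h1, h2, h3⟩ := iha (by omega)
      (F.comp (E.symm.toMonoidHom.comp (MonoidHom.inl (ZMod a)ˣ (ZMod b)ˣ)))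
    obtain ⟨D₂, k1, k2, k3⟩ := ihb (by omega)
      (F.comp (E.symm.toMonoidHom.comp (MonoidHom.inr (ZMod a)ˣ (ZMod b)ˣ)))
    refine ⟨D₁ * D₂, mul_ne_zero h1 k1, by rw [Int.natAbs_mul]; exact mul_dvd_mul h2 k2, ?_⟩
    intro q hq hqab
    have hqa : Nat.Coprime q a := Nat.Coprime.coprime_mul_right_right hqab
    have hqb : Nat.Coprime q b := Nat.Coprime.coprime_mul_left_right hqab
    have h4 : E (U (a * b) q) = (U a q, 1) * (1, U b q) := by
      rw [hE]
      refine Prod.ext ?_ ?_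
      · apply Units.ext
        have : (((ZMod.chineseRemainder hab) ((U (a * b) q : (ZMod (a * b))ˣ) : ZMod (a * b))).1 :
            ZMod a) = ((U a q : (ZMod a)ˣ) : ZMod a) := by
          rw [coe_U hqab, coe_U hqa, map_natCast]
          rfl
        rw [Prod.fst_mul, mul_one]
        exact this
      · apply Units.ext
        have : (((ZMod.chineseRemainder hab) ((U (a * b) q : (ZMod (a * b))ˣ) : ZMod (a * b))).2 :
            ZMod b) = ((U b q : (ZMod b)ˣ) : ZMod b) := by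
          rw [coe_U hqab, coe_U hqb, map_natCast]
          rfl
        rw [Prod.snd_mul, one_mul]
        exact this
    have h5 : U (a * b) q = E.symm (U a q, 1) * E.symm (1, U b q) := by
      rw [← map_mul, ← h4, MulEquiv.symm_apply_apply]
    rw [jacobiSym.mul_left, ← h3 q hq hqa, ← k3 q hq hqb, h5, map_mul, Units.val_mul]
    rfl

end Pool.Agent.Helper68.CO2
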