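import Mathlib
import Pool.Agent.Helper68.CO2.Reach2

/-!
MP_418075_nt.  Rigidity for arbitrary moduli.
-/

set_option autoImplicit false

namespace Pool.Agent.Helper68.CO2

variable {A : Type*} [CommGroup A]

theorem star_two {n J B q₀ Q d ρ i : ℕ} (hB : B ≤ 2 * J) (hq : q₀ ≤ J + 1)
    (hQ2 : d ≤ (Q + 1) * (2 * (J + 1) ^ 2)) (hρ : ρ * (Q + 1) ≤ n)
    (hi : i = 0 ∨ d * (ρ * q₀ ^ i) < 2 * (B * n) * q₀) :
    d * (ρ * q₀ ^ i) ≤ 4 * (J + 1) ^ 2 * n := by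
  rcases hi with rfl | hi
  · rw [pow_zero, mul_one]
    calc d * ρ ≤ (Q + 1) * (2 * (J + 1) ^ 2) * ρ := Nat.mul_le_mul_right ρ hQ2
      _ = 2 * (J + 1) ^ 2 * (ρ * (Q + 1)) := by ring
      _ ≤ 2 * (J + 1) ^ 2 * n := Nat.mul_le_mul_left _ hρ
      _ ≤ 4 * (J + 1) ^ 2 * n :=
        Nat.mul_le_mul_right n (Nat.mul_le_mul_right _ (by norm_num))
  · refine hi.le.trans ?_
    calc 2 * (B * n) * q₀ ≤ 2 * (2 * J * n) * (J + 1) :=
          Nat.mul_le_mul (Nat.mul_le_mul_left 2 (Nat.mul_le_mul_right n hB)) hq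
      _ = 4 * (J * (J + 1)) * n := by ring
      _ ≤ 4 * ((J + 1) * (J + 1)) * n :=
        Nat.mul_le_mul_right n (Nat.mul_le_mul_left 4 (Nat.mul_le_mul_right _ (Nat.le_succ J)))
      _ = 4 * (J + 1) ^ 2 * n := by ring

theorem star_three {n J B q₀ Q d ρ i g : ℕ} (hJB : J ≤ B) (hq : q₀ ≤ J + 1) (hd : 0 < d)
    (hQ1 : Q * (2 * (J + 1) ^ 2) ≤ d) (hρ : ρ * (Q + 1) ≤ n) (hgQ : g ≤ Q)
    (hi : i = 0 ∨ d * (ρ * q₀ ^ i) < 2 * (B * n) * q₀) :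
    (ρ * q₀ ^ i) * (g * J) ≤ B * n := by
  rcases hi with rfl | hi
  · rw [pow_zero, mul_one]
    calc ρ * (g * J) ≤ ρ * ((Q + 1) * J) :=
          Nat.mul_le_mul_left ρ (Nat.mul_le_mul_right J (hgQ.trans (Nat.le_succ Q)))
      _ = ρ * (Q + 1) * J := by ring
      _ ≤ n * B := Nat.mul_le_mul hρ hJB
      _ = B * n := Nat.mul_comm _ _
  · refine Nat.le_of_mul_le_mul_left ?_ hd
    calc d * (ρ * q₀ ^ i * (g * J)) = d * (ρ * q₀ ^ i) * (g * J) := by ring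
      _ ≤ 2 * (B * n) * q₀ * (g * J) := Nat.mul_le_mul_right _ hi.le
      _ ≤ 2 * (B * n) * (J + 1) * (Q * (J + 1)) :=
        Nat.mul_le_mul (Nat.mul_le_mul_left _ hq) (Nat.mul_le_mul hgQ (Nat.le_succ J))
      _ = Q * (2 * (J + 1) ^ 2) * (B * n) := by ring
      _ ≤ d * (B * n) := Nat.mul_le_mul_right _ hQ1

/-- the bound for the second multiplier -/
theorem small_mult {n J B Q d M g h : ℕ} (hJ : 0 < J) (hM : 0 < M) (hQ0 : 0 < Q)
    (hQ1 : Q * (2 * (J + 1) ^ 2) ≤ d) (hgQ : g ≤ Q) (h1 : 2 * (B * n) ≤ d * M)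
    (h2 : M * h ≤ B * n + M * (g * J)) : h < d := by
  have h3 : 2 * (g * J) < d := by
    calc 2 * (g * J) ≤ 2 * (Q * J) := Nat.mul_le_mul_left 2 (Nat.mul_le_mul_right J hgQ)
      _ < 2 * (Q * (J + 1) ^ 2) := by
        refine Nat.mul_lt_mul_of_pos_left (Nat.mul_lt_mul_of_pos_left ?_ hQ0) (by norm_num)
        nlinarith
      _ = Q * (2 * (J + 1) ^ 2) := by ring
      _ ≤ d := hQ1
  have h4 : M * (2 * h) < M * (2 * d) := by
    calc M * (2 * h) = 2 * (M * h) := by ring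
      _ ≤ 2 * (B * n + M * (g * J)) := Nat.mul_le_mul_left 2 h2
      _ = 2 * (B * n) + M * (2 * (g * J)) := by ring
      _ ≤ d * M + M * (2 * (g * J)) := Nat.add_le_add_right h1 _
      _ < d * M + M * d := Nat.add_lt_add_left (Nat.mul_lt_mul_of_pos_left h3 hM) _
      _ = M * (2 * d) := by ring
  have h5 := Nat.lt_of_mul_lt_mul_left h4
  omega

/-- the value at the end -/
theorem finish_bound {n J d M g : ℕ} {R s : ℤ} (hg : 0 < g) (hR : (g : ℤ) * R = s) 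
    (hs : s ≤ (M : ℤ) * (g * J)) (h2 : d * M ≤ 4 * (J + 1) ^ 2 * n) :
    R * d ≤ (4 * (J + 1) ^ 3 * n : ℕ) := by
  have hg' : (0 : ℤ) < g := by exact_mod_cast hg
  have h3 : R ≤ (M : ℤ) * J := by
    have h4 : (g : ℤ) * R ≤ (g : ℤ) * ((M : ℤ) * J) := by
      rw [hR]
      refine hs.trans (le_of_eq ?_)
      ring
    exact le_of_mul_le_mul_left h4 hg'
  have h5 : ((d * M * J : ℕ) : ℤ) ≤ ((4 * (J + 1) ^ 3 * n : ℕ) : ℤ) := by
    rw [Int.ofNat_le]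
    calc d * M * J ≤ 4 * (J + 1) ^ 2 * n * (J + 1) := Nat.mul_le_mul h2 (Nat.le_succ J)
      _ = 4 * (J + 1) ^ 3 * n := by ring
  refine le_trans ?_ h5
  push_cast
  calc R * d ≤ (M * J) * d := mul_le_mul_of_nonneg_right h3 (by positivity)
    _ = d * M * J := by ring

/-- every coset of the stabilizer contains a residue below `4 (J + 1) ^ 3 n / d` -/
theorem reach {n : ℕ} [hn : Fact (1 < n)] {f : ℕ → A} (hf : CM f) {J : ℕ} (hJ : JP n J) {d : ℕ}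
    (hdn : d ≤ n) (hd : 2 * (J + 1) ^ 2 ≤ d)
    (hH : ∀ e, 0 < e → e < d → Nat.Coprime e n → U n e ∈ HH n f hf) (u : (ZMod n)ˣ) :
    ∃ h ∈ HH n f hf, ((h * u : (ZMod n)ˣ) : ZMod n).val * d ≤ 4 * (J + 1) ^ 3 * n := by
  have hn1 := hn.out
  have hn0 : n ≠ 0 := by omega
  have : NeZero n := ⟨hn0⟩
  have hJ0 := hJ.pos
  have hJ1 : J + 1 < 2 * (J + 1) ^ 2 := by nlinarith
  have hd0 : 0 < d := by omega
  obtain ⟨Q, hQ⟩ : ∃ Q, Q = d / (2 * (J + 1) ^ 2) := ⟨_, rfl⟩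
  have hpos : 0 < 2 * (J + 1) ^ 2 := by positivity
  have hQ1 : Q * (2 * (J + 1) ^ 2) ≤ d := by rw [hQ]; exact Nat.div_mul_le_self _ _
  have hQ2 : d ≤ (Q + 1) * (2 * (J + 1) ^ 2) := by
    have h1 := Nat.div_add_mod d (2 * (J + 1) ^ 2)
    have h2 := Nat.mod_lt d hpos
    rw [← hQ] at h1
    have h3 : (Q + 1) * (2 * (J + 1) ^ 2) = 2 * (J + 1) ^ 2 * Q + 2 * (J + 1) ^ 2 := by ring
    omega
  have hQ0 : 0 < Q := by rw [hQ]; exact Nat.div_pos hd hpos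
  have hQd : Q < d := by
    calc Q < Q * (2 * (J + 1) ^ 2) := by
          refine lt_mul_of_one_lt_right hQ0 ?_
          omega
      _ ≤ d := hQ1
  obtain ⟨g, h₀, j, r, a, b, hg1, hgQ, hgn, hh₀, hr, hr0, e1, e2⟩ :=
    short_vector hf hQ0 hQd hdn hH u
  obtain ⟨ρ, hρ⟩ : ∃ ρ : ℕ, ρ = r.natAbs := ⟨_, rfl⟩
  have hρ0 : 0 < ρ := by rw [hρ]; exact Int.natAbs_pos.2 hr0
  have hρn : ρ * (Q + 1) ≤ n := by
    rw [← Int.natCast_natAbs, ← hρ] at hr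
    exact_mod_cast hr
  -- the auxiliary numbers
  obtain ⟨i₁, hi₁, hBcop⟩ := hJ (J + 1)
  obtain ⟨i₂, hi₂, hqcop⟩ := hJ 2
  obtain ⟨B, hB⟩ : ∃ B, B = J + 1 + i₁ := ⟨_, rfl⟩
  obtain ⟨q₀, hq₀⟩ : ∃ q₀, q₀ = 2 + i₂ := ⟨_, rfl⟩
  rw [← hB] at hBcop
  rw [← hq₀] at hqcop
  have hJB : J ≤ B := by omega
  have hB2 : B ≤ 2 * J := by omega
  have hq2 : 2 ≤ q₀ := by omega
  have hqJ : q₀ ≤ J + 1 := by omega
  have hq₀H : U n q₀ ∈ HH n f hf := hH q₀ (by omega) (by omega) hqcop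
  obtain ⟨i, hi1, hi2⟩ := scale (n := n) (B := B) hq2 hρ0 hd0
  have hs2 := star_two hB2 hqJ hQ2 hρn hi2
  have hs3 := star_three hJB hqJ hd0 hQ1 hρn hgQ hi2
  obtain ⟨h₁, hh₁⟩ : ∃ h₁, h₁ = q₀ ^ i := ⟨_, rfl⟩
  rw [← hh₁] at hi1 hi2 hs2 hs3
  have hc₁ : Nat.Coprime h₁ n := by rw [hh₁]; exact Nat.Coprime.pow_left i hqcop
  have hh₁pos : 0 < h₁ := by rw [hh₁]; exact Nat.pow_pos (by omega)
  have hU₁ : U n h₁ ∈ HH n f hf := by
    rw [hh₁, U_pow hqcop]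
    exact pow_mem hq₀H i
  obtain ⟨M, hMdef⟩ : ∃ M, M = ρ * h₁ := ⟨_, rfl⟩
  rw [← hMdef] at hi1 hs2 hs3
  have hM0 : 0 < M := by rw [hMdef]; exact Nat.mul_pos hρ0 hh₁pos
  -- coprimality to `g`
  have hcg : ∀ x : ℕ, Nat.Coprime x n → Nat.Coprime x g := by
    intro x hx
    by_contra hnc
    obtain ⟨l, hl, h1, h2⟩ := Nat.Prime.not_coprime_iff_dvd.1 hnc
    have h3 : l ∣ Nat.gcd x n := Nat.dvd_gcd h1 (hgn l hl h2)
    rw [hx] at h3
    exact hl.one_lt.ne' (Nat.dvd_one.1 h3)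
  have hag : IsCoprime a (g : ℤ) := ⟨-j, b, by linear_combination e2⟩
  -- the residue for the second multiplier, for both signs
  have hres : ∀ β : ℤ, β.natAbs = B → ∃ c : ℕ, c < g ∧ Nat.Coprime c g ∧
      (g : ℤ) ∣ (h₁ : ℤ) * c - β * a := by
    intro β hβ
    have : NeZero g := ⟨by omega⟩
    refine ⟨(((β * a : ℤ) : ZMod g) * (h₁ : ZMod g)⁻¹).val, ZMod.val_lt _, ?_, ?_⟩
    · have hu : IsUnit (((β * a : ℤ) : ZMod g) * (h₁ : ZMod g)⁻¹) := by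
        have h1 : IsCoprime (β * a) (g : ℤ) := by
          refine IsCoprime.mul_left ?_ hag
          rw [Int.isCoprime_iff_gcd_eq_one, Int.gcd_eq_natAbs, hβ, Int.natAbs_natCast]
          exact hcg B hBcop
        have h2 : IsUnit ((β * a : ℤ) : ZMod g) := by
          have := (ZMod.isUnit_iff_coprime (β * a).natAbs g).2 (by
            rw [Int.isCoprime_iff_gcd_eq_one, Int.gcd_eq_natAbs, Int.natAbs_natCast] at h1
            exact h1)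
          rcases Int.natAbs_eq (β * a) with h3 | h3
          · rw [h3, Int.cast_natCast]
            exact this
          · rw [h3, Int.cast_neg, Int.cast_natCast]
            exact this.neg
        have h3 : IsUnit ((h₁ : ZMod g)⁻¹) := by
          have h4 := ZMod.coe_mul_inv_eq_one h₁ (hcg h₁ hc₁)
          exact IsUnit.of_mul_eq_one (h₁ : ZMod g) (by rw [mul_comm]; exact h4)
        exact h2.mul h3
      obtain ⟨w, hw⟩ := hu
      rw [← hw]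
      exact ZMod.val_coe_unit_coprime w
    · rw [← ZMod.intCast_zmod_eq_zero_iff_dvd]
      push_cast
      rw [ZMod.natCast_zmod_val, mul_left_comm, ZMod.coe_mul_inv_eq_one h₁ (hcg h₁ hc₁), mul_one,
        sub_self]
  -- conclusion from a point on the line
  have hfin : ∀ (β : ℤ) (c h₂ t : ℕ) (s : ℤ), (g : ℤ) ∣ (h₁ : ℤ) * c - β * a →
      Nat.Coprime h₂ n → h₂ = c + g * t → h₂ < d → s = r * (h₁ * h₂ : ℕ) - β * n → 0 < s →
      s ≤ (M : ℤ) * (g * J) →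
      ∃ h ∈ HH n f hf, ((h * u : (ZMod n)ˣ) : ZMod n).val * d ≤ 4 * (J + 1) ^ 3 * n := by
    intro β c h₂ t s hdvd hc₂ hh₂ hh₂d hs hs0 hsM
    have hh₂0 : 0 < h₂ := by
      rcases Nat.eq_zero_or_pos h₂ with h0 | h0
      · rw [h0, Nat.coprime_zero_left] at hc₂
        omega
      · exact h0
    have hdvd2 : (g : ℤ) ∣ ((h₁ * h₂ : ℕ) : ℤ) - β * a := by
      have e3 : ((h₁ * h₂ : ℕ) : ℤ) - β * a = ((h₁ : ℤ) * c - β * a) + g * (h₁ * t) := by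
        rw [hh₂]
        push_cast
        ring
      rw [e3]
      exact dvd_add hdvd (dvd_mul_right _ _)
    obtain ⟨R, hR1, hR2⟩ := line (n := n) (w := ((h₀ * u : (ZMod n)ˣ) : ZMod n))
      (x := ((h₀ * u : (ZMod n)ˣ) : ZMod n).val) (by rw [ZMod.natCast_zmod_val]) e1 e2 hdvd2
    rw [← hs] at hR1
    have hRpos : 0 < R := by
      have hg' : (0 : ℤ) < g := by exact_mod_cast hg1
      rw [← hR1] at hs0
      exact (mul_pos_iff_of_pos_left hg').1 hs0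
    have hb := finish_bound (d := d) hg1 hR1 hsM hs2
    refine ⟨U n h₁ * U n h₂ * h₀, mul_mem (mul_mem hU₁ (hH h₂ hh₂0 hh₂d hc₂)) hh₀, ?_⟩
    obtain ⟨m, rfl⟩ : ∃ m : ℕ, R = m := ⟨R.toNat, (Int.toNat_of_nonneg hRpos.le).symm⟩
    have h5 : ((U n h₁ * U n h₂ * h₀ * u : (ZMod n)ˣ) : ZMod n) = (m : ZMod n) := by
      have h6 : ((U n h₁ * U n h₂ * h₀ * u : (ZMod n)ˣ) : ZMod n) =
          (((h₁ * h₂ : ℕ) : ℤ) : ZMod n) * ((h₀ * u : (ZMod n)ˣ) : ZMod n) := by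
        rw [Units.val_mul, Units.val_mul, Units.val_mul, Units.val_mul, coe_U hc₁, coe_U hc₂]
        push_cast
        ring
      rw [h6, hR2, Int.cast_natCast]
    rw [h5, ZMod.val_natCast]
    have h7 : m * d ≤ 4 * (J + 1) ^ 3 * n := by exact_mod_cast hb
    exact le_trans (Nat.mul_le_mul_right d (Nat.mod_le m n)) h7
  rcases lt_or_gt_of_ne hr0 with hneg | hposr
  · -- negative numerator
    have hrρ : r = -(ρ : ℤ) := by rw [hρ]; omega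
    obtain ⟨c, hc1, hc2, hc3⟩ := hres (-(B : ℤ)) (by rw [Int.natAbs_neg, Int.natAbs_natCast])
    obtain ⟨h₂, t, k1, k2, k3, k4⟩ := pick_down hn0 hJ hc2 hc1 hM0 hs3
    refine hfin (-(B : ℤ)) c h₂ t _ hc3 k1 k2 ?_ rfl ?_ ?_
    · exact small_mult hJ0 hM0 hQ0 hQ1 hgQ hi1 (by omega)
    · have k5 : ((M * h₂ : ℕ) : ℤ) < ((B * n : ℕ) : ℤ) := by exact_mod_cast k3
      rw [hMdef] at k5
      push_cast at k5
      rw [hrρ]
      push_cast
      linarith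
    · have k5 : ((B * n : ℕ) : ℤ) ≤ ((M * h₂ + M * (g * J) : ℕ) : ℤ) := by exact_mod_cast k4
      rw [hMdef] at k5 ⊢
      push_cast at k5
      rw [hrρ]
      push_cast
      linarith
  · have hrρ : r = (ρ : ℤ) := by rw [hρ]; omega
    obtain ⟨c, hc1, hc2, hc3⟩ := hres (B : ℤ) (Int.natAbs_natCast B)
    obtain ⟨h₂, t, k1, k2, k3, k4⟩ := pick_up (B := B) hn0 hJ hc2 hc1 hM0
    refine hfin (B : ℤ) c h₂ t _ hc3 k1 k2 ?_ rfl ?_ ?_
    · exact small_mult hJ0 hM0 hQ0 hQ1 hgQ hi1 k4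
    · have k5 : ((B * n : ℕ) : ℤ) < ((M * h₂ : ℕ) : ℤ) := by exact_mod_cast k3
      rw [hMdef] at k5
      push_cast at k5
      rw [hrρ]
      push_cast
      linarith
    · have k5 : ((M * h₂ : ℕ) : ℤ) ≤ ((B * n + M * (g * J) : ℕ) : ℤ) := by exact_mod_cast k4
      rw [hMdef] at k5 ⊢
      push_cast at k5
      rw [hrρ]
      push_cast
      linarith

end Pool.Agent.Helper68.CO2
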