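import Mathlib
import Pool.Agent.Helper68.CO2.Reach3

/-!
MP_418075_nt.  Rigidity for arbitrary moduli: the function is a homomorphism.
-/

set_option autoImplicit false

namespace Pool.Agent.Helper68.CO2

variable {A : Type*} [CommGroup A]

/-- every number below `n` prime to `n` is in the stabilizer -/
theorem all_mem {n : ℕ} [hn : Fact (1 < n)] {f : ℕ → A} (hf : CM f) {J : ℕ} (hJ : JP n J)
    (hper : ∀ a, 0 < a → a ≤ 4 * (J + 1) ^ 3 * n → Nat.Coprime a n → f a = FF n f (U n a)) :
    ∀ d, 0 < d → d < n → Nat.Coprime d n → U n d ∈ HH n f hf := by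
  have hn1 := hn.out
  have : NeZero n := ⟨by omega⟩
  intro d
  induction d using Nat.strong_induction_on with
  | _ d ih =>
    intro hd0 hdn hcd
    have key : ∀ u : (ZMod n)ˣ, d * (u : ZMod n).val ≤ 4 * (J + 1) ^ 3 * n →
        FF n f (U n d * u) = f d * FF n f u := by
      intro u hu
      have h1 := val_pos u
      have h2 := val_coprime u
      have h3 := hper (d * (u : ZMod n).val) (Nat.mul_pos hd0 h1) hu (Nat.Coprime.mul_left hcd h2)
      have h4 : U n (u : ZMod n).val = u := by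
        apply Units.ext
        rw [coe_U h2, ZMod.natCast_zmod_val]
      rw [U_mul hcd h2, h4, hf _ _ hd0.ne' h1.ne'] at h3
      exact h3.symm
    rw [mem_HH]
    intro u
    rw [FF_U f hcd hdn]
    rcases Nat.lt_or_ge d (2 * (J + 1) ^ 2) with h | h
    · apply key
      have h5 : 2 * (J + 1) ^ 2 ≤ 4 * (J + 1) ^ 3 := by
        calc 2 * (J + 1) ^ 2 ≤ 4 * (J + 1) ^ 2 := Nat.mul_le_mul_right _ (by norm_num)
          _ ≤ 4 * (J + 1) ^ 3 :=
            Nat.mul_le_mul_left 4 (Nat.pow_le_pow_right (Nat.succ_pos J) (by norm_num))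
      exact Nat.mul_le_mul (by omega) (val_lt u).le
    · obtain ⟨t, ht, h6⟩ := reach hf hJ hdn.le h
        (fun e he0 hed hce => ih e hed he0 (by omega) hce) u
      refine transport hf ht (key (t * u) ?_)
      rw [mul_comm d]
      exact h6

/-- the homomorphism -/
theorem exists_hom {n : ℕ} [hn : Fact (1 < n)] {f : ℕ → A} (hf : CM f) {J : ℕ} (hJ : JP n J)
    (hper : ∀ a, 0 < a → a ≤ 4 * (J + 1) ^ 3 * n → Nat.Coprime a n → f a = FF n f (U n a)) :
    ∃ F : (ZMod n)ˣ →* A, ∀ a, 0 < a → a ≤ 4 * (J + 1) ^ 3 * n → Nat.Coprime a n →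
      f a = F (U n a) := by
  have hn1 := hn.out
  have : NeZero n := ⟨by omega⟩
  have hall := all_mem hf hJ hper
  refine ⟨MonoidHom.mk' (fun u => FF n f u) ?_, fun a h0 h1 h2 => hper a h0 h1 h2⟩
  intro u v
  have h2 := val_coprime u
  have h4 : U n (u : ZMod n).val = u := by
    apply Units.ext
    rw [coe_U h2, ZMod.natCast_zmod_val]
  have h5 := mem_HH.1 (hall (u : ZMod n).val (val_pos u) (val_lt u) h2) v
  rw [h4] at h5
  exact h5

end Pool.Agent.Helper68.CO2
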