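import Mathlib
import Pool.Agent.Helper68.CO2.Jac

/-!
MP_418075_nt.  Explicit bounds: numbers prime to `n` in short intervals, and values of `x ^ 2 - D`
prime to `2 n`.
-/

set_option autoImplicit false

namespace Pool.Agent.Helper68.CO2

theorem JP.mono {n J K : ℕ} (h : JP n J) (hJK : J ≤ K) : JP n K := by
  intro a
  obtain ⟨i, hi, hc⟩ := h a
  exact ⟨i, by omega, hc⟩

/-- the product of the primes dividing `n` up to `y` -/
theorem small_prod_le (n y : ℕ) : ∏ l ∈ n.primeFactors.filter (fun l => l ≤ y), l ≤ 4 ^ y := by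
  refine le_trans ?_ (primorial_le_four_pow y)
  unfold primorial
  refine Finset.prod_le_prod_of_subset_of_one_le' ?_ ?_
  · intro l hl
    rw [Finset.mem_filter, Nat.mem_primeFactors] at hl
    rw [Finset.mem_filter, Finset.mem_range]
    exact ⟨by omega, hl.1.1⟩
  · intro l hl _
    rw [Finset.mem_filter] at hl
    exact hl.2.one_lt.le

theorem succ_le_four_pow (s : ℕ) : s + 1 ≤ 4 ^ s := Nat.lt_pow_self (by norm_num)

/-- an explicit Jacobsthal bound -/
theorem jp_explicit {n : ℕ} (hn : n ≠ 0) : JP n (4 ^ (2 * n.primeFactors.card + 1)) := by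
  classical
  obtain ⟨s, hs⟩ : ∃ s, s = n.primeFactors.card := ⟨_, rfl⟩
  rw [← hs]
  obtain ⟨R, hR⟩ : ∃ R, R = ∏ l ∈ n.primeFactors.filter (fun l => l ≤ s + 1), l := ⟨_, rfl⟩
  have hR4 : R ≤ 4 ^ (s + 1) := by rw [hR]; exact small_prod_le n (s + 1)
  have hR0 : 0 < R := by
    rw [hR]
    refine Finset.prod_pos fun l hl => ?_
    rw [Finset.mem_filter, Nat.mem_primeFactors] at hl
    exact hl.1.1.pos
  have hJ : JP n (R * (s + 1)) := by
    intro a
    -- a start which is `1` modulo `R`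
    obtain ⟨i₀, hi₀, hmod⟩ : ∃ i₀, i₀ < R ∧ ∃ z : ℤ, ((a + i₀ : ℕ) : ℤ) = 1 + R * z := by
      refine ⟨((1 - (a : ℤ)) % R).toNat, ?_, ?_⟩
      · have h1 := Int.emod_lt_of_pos (1 - (a : ℤ)) (b := (R : ℤ)) (by exact_mod_cast hR0)
        have h2 := Int.emod_nonneg (1 - (a : ℤ)) (b := (R : ℤ)) (by exact_mod_cast hR0.ne')
        omega
      · have h2 := Int.emod_nonneg (1 - (a : ℤ)) (b := (R : ℤ)) (by exact_mod_cast hR0.ne')
        have h3 := Int.emod_add_mul_ediv (1 - (a : ℤ)) R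
        refine ⟨-((1 - (a : ℤ)) / R), ?_⟩
        rw [Nat.cast_add, Int.toNat_of_nonneg h2]
        linear_combination h3
    obtain ⟨z, hz⟩ := hmod
    by_contra hcon
    push Not at hcon
    have hbad : ∀ t : Fin (s + 1), ∃ l : ℕ, l ∈ n.primeFactors ∧ l ∣ a + (i₀ + R * t) := by
      intro t
      have ht : i₀ + R * (t : ℕ) < R * (s + 1) := by
        have h1 : (t : ℕ) ≤ s := Nat.lt_succ_iff.1 t.2
        calc i₀ + R * (t : ℕ) < R + R * (t : ℕ) := Nat.add_lt_add_right hi₀ _
          _ ≤ R + R * s := Nat.add_le_add_left (Nat.mul_le_mul_left R h1) _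
          _ = R * (s + 1) := by ring
      obtain ⟨l, hl, h1, h2⟩ := Nat.Prime.not_coprime_iff_dvd.1 (hcon _ ht)
      exact ⟨l, Nat.mem_primeFactors.2 ⟨hl, h2, hn⟩, h1⟩
    choose L hL1 hL2 using hbad
    -- the bad primes are large
    have hlarge : ∀ t, s + 1 < L t := by
      intro t
      by_contra hsm
      push Not at hsm
      have hLR : L t ∣ R := by
        rw [hR]
        exact Finset.dvd_prod_of_mem (fun l => l) (Finset.mem_filter.2 ⟨hL1 t, hsm⟩)
      have h1 : ((L t : ℕ) : ℤ) ∣ 1 := by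
        have h2 : ((L t : ℕ) : ℤ) ∣ ((a + (i₀ + R * (t : ℕ)) : ℕ) : ℤ) := by exact_mod_cast hL2 t
        have h3 : ((a + (i₀ + R * (t : ℕ)) : ℕ) : ℤ) = 1 + R * (z + (t : ℕ)) := by
          push_cast at hz ⊢
          linear_combination hz
        rw [h3] at h2
        have h4 : ((L t : ℕ) : ℤ) ∣ (R : ℤ) * (z + (t : ℕ)) :=
          Dvd.dvd.mul_right (by exact_mod_cast hLR) _
        exact (dvd_add_left h4).1 h2
      have h5 : L t ∣ 1 := by exact_mod_cast h1
      have := (Nat.mem_primeFactors.1 (hL1 t)).1.one_lt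
      exact this.ne' (Nat.dvd_one.1 h5)
    have hinj : Function.Injective L := by
      intro t t' htt
      by_contra hne
      have hp := (Nat.mem_primeFactors.1 (hL1 t)).1
      have h1 : ((L t : ℕ) : ℤ) ∣ (R : ℤ) * ((t : ℕ) - (t' : ℕ) : ℤ) := by
        have e1 : ((L t : ℕ) : ℤ) ∣ ((a + (i₀ + R * (t : ℕ)) : ℕ) : ℤ) := by exact_mod_cast hL2 t
        have e2 : ((L t : ℕ) : ℤ) ∣ ((a + (i₀ + R * (t' : ℕ)) : ℕ) : ℤ) := by
          rw [htt]
          exact_mod_cast hL2 t'
        have e3 := dvd_sub e1 e2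
        have e4 : ((a + (i₀ + R * (t : ℕ)) : ℕ) : ℤ) - ((a + (i₀ + R * (t' : ℕ)) : ℕ) : ℤ) =
            (R : ℤ) * ((t : ℕ) - (t' : ℕ) : ℤ) := by
          push_cast
          ring
        rwa [e4] at e3
      have hpI : Prime ((L t : ℕ) : ℤ) := Nat.prime_iff_prime_int.1 hp
      rcases hpI.dvd_or_dvd h1 with h2 | h2
      · have h3 : L t ∣ R := by exact_mod_cast h2
        rw [hR] at h3
        obtain ⟨l, hl, hd⟩ := (Prime.dvd_finsetProd_iff hp.prime _).1 h3
        rw [Finset.mem_filter, Nat.mem_primeFactors] at hl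
        have h4 := (Nat.prime_dvd_prime_iff_eq hp hl.1.1).1 hd
        have h5 := hlarge t
        omega
      · have h5 := hlarge t
        have h6 : ((t : ℕ) - (t' : ℕ) : ℤ) ≠ 0 := by
          intro h7
          apply hne
          apply Fin.ext
          omega
        have h7 := Int.le_of_dvd (abs_pos.2 h6) ((dvd_abs _ _).2 h2)
        have h8 := t.2
        have h9 := t'.2
        rw [le_abs] at h7
        omega
    have hcard : Fintype.card (Fin (s + 1)) ≤ n.primeFactors.card := by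
      rw [← Finset.card_univ]
      exact Finset.card_le_card_of_injOn L (fun t _ => hL1 t) (hinj.injOn)
    rw [Fintype.card_fin] at hcard
    omega
  refine hJ.mono ?_
  calc R * (s + 1) ≤ 4 ^ (s + 1) * 4 ^ s := Nat.mul_le_mul hR4 (succ_le_four_pow s)
    _ = 4 ^ (2 * s + 1) := by rw [← pow_add]; congr 1; ring

end Pool.Agent.Helper68.CO2
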