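import Mathlib
import Pool.Agent.Helper68.CO2.Sieve

/-!
MP_418075_nt.  A value of `x ^ 2 - D` prime to `2 n` with an explicit bound for `x`.
-/

set_option autoImplicit false

namespace Pool.Agent.Helper68.CO2

theorem lin_le_four_pow (s : ℕ) : 2 * s + 3 ≤ 4 ^ (s + 1) := by
  induction s with
  | zero => norm_num
  | succ s ih =>
    rw [pow_succ]
    omega

theorem exists_value {n : ℕ} (hn : n ≠ 0) {D : ℤ} (hDn : D.natAbs ∣ n) :
    ∃ x : ℕ, x ≤ 4 ^ (3 * n.primeFactors.card + 7) ∧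
      (∀ l : ℕ, l.Prime → l ∣ 2 * n → ¬ (l : ℤ) ∣ (x : ℤ) ^ 2 - D) ∧
      1 < ((x : ℤ) ^ 2 - D).natAbs := by
  classical
  have hD0 : D ≠ 0 := by
    rintro rfl
    rw [Int.natAbs_zero, zero_dvd_iff] at hDn
    exact hn hDn
  have hN0 : 2 * n ≠ 0 := by omega
  obtain ⟨s, hs⟩ : ∃ s, s = (2 * n).primeFactors.card := ⟨_, rfl⟩
  have hsn : s ≤ n.primeFactors.card + 1 := by
    rw [hs, Nat.primeFactors_mul (by norm_num) hn, Nat.Prime.primeFactors Nat.prime_two]
    refine (Finset.card_union_le _ _).trans ?_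
    rw [Finset.card_singleton]
    omega
  obtain ⟨R₁, hR₁⟩ : ∃ R : ℕ, R = ∏ l ∈ ((2 * n).primeFactors.filter
      (fun l : ℕ => l ≤ 2 * s + 3)).filter (fun l : ℕ => ¬ (l : ℤ) ∣ D), l := ⟨_, rfl⟩
  obtain ⟨R₂, hR₂⟩ : ∃ R : ℕ, R = ∏ l ∈ ((2 * n).primeFactors.filter
      (fun l : ℕ => l ≤ 2 * s + 3)).filter (fun l : ℕ => (l : ℤ) ∣ D), l := ⟨_, rfl⟩
  have hR12 : R₁ * R₂ ≤ 4 ^ (2 * s + 3) := by
    rw [hR₁, hR₂, mul_comm, Finset.prod_filter_mul_prod_filter_not]
    exact small_prod_le (2 * n) (2 * s + 3)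
  have hmem₁ : ∀ l : ℕ, l.Prime → l ∣ R₁ → l ≤ 2 * s + 3 ∧ ¬ (l : ℤ) ∣ D := by
    intro l hl hd
    rw [hR₁] at hd
    obtain ⟨m, hm, hdm⟩ := (Prime.dvd_finsetProd_iff hl.prime _).1 hd
    rw [Finset.mem_filter, Finset.mem_filter, Nat.mem_primeFactors] at hm
    rw [(Nat.prime_dvd_prime_iff_eq hl hm.1.1.1).1 hdm]
    exact ⟨hm.1.2, hm.2⟩
  have hmem₂ : ∀ l : ℕ, l.Prime → l ∣ R₂ → l ≤ 2 * s + 3 ∧ (l : ℤ) ∣ D := by
    intro l hl hd
    rw [hR₂] at hd
    obtain ⟨m, hm, hdm⟩ := (Prime.dvd_finsetProd_iff hl.prime _).1 hd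
    rw [Finset.mem_filter, Finset.mem_filter, Nat.mem_primeFactors] at hm
    rw [(Nat.prime_dvd_prime_iff_eq hl hm.1.1.1).1 hdm]
    exact ⟨hm.1.2, hm.2⟩
  have hdiv₁ : ∀ l : ℕ, l.Prime → l ∣ 2 * n → l ≤ 2 * s + 3 → ¬ (l : ℤ) ∣ D → l ∣ R₁ := by
    intro l hl hd hls hlD
    rw [hR₁]
    exact Finset.dvd_prod_of_mem (fun l => l) (Finset.mem_filter.2 ⟨Finset.mem_filter.2
      ⟨Nat.mem_primeFactors.2 ⟨hl, hd, hN0⟩, hls⟩, hlD⟩)
  have hdiv₂ : ∀ l : ℕ, l.Prime → l ∣ 2 * n → l ≤ 2 * s + 3 → (l : ℤ) ∣ D → l ∣ R₂ := by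
    intro l hl hd hls hlD
    rw [hR₂]
    exact Finset.dvd_prod_of_mem (fun l => l) (Finset.mem_filter.2 ⟨Finset.mem_filter.2
      ⟨Nat.mem_primeFactors.2 ⟨hl, hd, hN0⟩, hls⟩, hlD⟩)
  have hR₁0 : 0 < R₁ := by
    rw [hR₁]
    refine Finset.prod_pos fun l hl => ?_
    rw [Finset.mem_filter, Finset.mem_filter, Nat.mem_primeFactors] at hl
    exact hl.1.1.1.pos
  have hR₂0 : 0 < R₂ := by
    rw [hR₂]
    refine Finset.prod_pos fun l hl => ?_
    rw [Finset.mem_filter, Finset.mem_filter, Nat.mem_primeFactors] at hl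
    exact hl.1.1.1.pos
  obtain ⟨X, hX⟩ : ∃ X : ℕ → ℕ, X = fun t => R₁ * (1 + R₂ * t) := ⟨_, rfl⟩
  have hXinj : ∀ t t' : ℕ, X t = X t' → t = t' := by
    intro t t' h
    rw [hX] at h
    have h1 := Nat.eq_of_mul_eq_mul_left hR₁0 h
    exact Nat.eq_of_mul_eq_mul_left hR₂0 (Nat.add_left_cancel h1)
  -- small primes never divide
  have hsmall : ∀ l : ℕ, l.Prime → l ∣ 2 * n → l ≤ 2 * s + 3 → ∀ t,
      ¬ (l : ℤ) ∣ (X t : ℤ) ^ 2 - D := by
    intro l hl hd hls t hdv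
    have hlI : Prime ((l : ℕ) : ℤ) := Nat.prime_iff_prime_int.1 hl
    by_cases hlD : (l : ℤ) ∣ D
    · have h1 : (l : ℤ) ∣ (X t : ℤ) ^ 2 := (dvd_sub_left hlD).1 hdv
      have h2 : (l : ℤ) ∣ (X t : ℤ) := hlI.dvd_of_dvd_pow h1
      have h3 : l ∣ X t := by exact_mod_cast h2
      rw [hX] at h3
      rcases hl.dvd_mul.1 h3 with h4 | h4
      · exact (hmem₁ l hl h4).2 hlD
      · have h5 : l ∣ 1 :=
          (Nat.dvd_add_left (Dvd.dvd.mul_right (hdiv₂ l hl hd hls hlD) t)).1 h4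
        exact hl.one_lt.ne' (Nat.dvd_one.1 h5)
    · have h1 : (l : ℤ) ∣ (X t : ℤ) := by
        have : l ∣ X t := by
          rw [hX]
          exact Dvd.dvd.mul_right (hdiv₁ l hl hd hls hlD) _
        exact_mod_cast this
      have h2 : (l : ℤ) ∣ (X t : ℤ) ^ 2 := dvd_pow h1 (by norm_num)
      exact hlD ((dvd_sub_right h2).1 hdv)
  -- large primes divide at most twice
  have hlarge : ∀ l ∈ (2 * n).primeFactors,
      ((Finset.range (2 * s + 3)).filter (fun t => (l : ℤ) ∣ (X t : ℤ) ^ 2 - D)).card ≤ 2 := by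
    intro l hlm
    rw [Nat.mem_primeFactors] at hlm
    obtain ⟨hl, hd, _⟩ := hlm
    by_cases hls : l ≤ 2 * s + 3
    · rw [Finset.filter_false_of_mem fun t _ => hsmall l hl hd hls t, Finset.card_empty]
      norm_num
    · push Not at hls
      have : Fact l.Prime := ⟨hl⟩
      have hinj : Set.InjOn (fun t : ℕ => ((X t : ℕ) : ZMod l))
          ((Finset.range (2 * s + 3)).filter (fun t => (l : ℤ) ∣ (X t : ℤ) ^ 2 - D) :
            Finset ℕ) := by
        intro t ht t' ht' htt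
        rw [Finset.mem_coe, Finset.mem_filter, Finset.mem_range] at ht ht'
        have h1 : ((X t : ℕ) : ZMod l) = ((X t' : ℕ) : ZMod l) := htt
        have h2 : (((R₁ : ℤ) * R₂ * ((t : ℤ) - t') : ℤ) : ZMod l) = 0 := by
          rw [hX] at h1
          push_cast at h1 ⊢
          linear_combination h1
        rw [ZMod.intCast_zmod_eq_zero_iff_dvd] at h2
        have hlI : Prime ((l : ℕ) : ℤ) := Nat.prime_iff_prime_int.1 hl
        rcases hlI.dvd_or_dvd h2 with h3 | h3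
        · rcases hlI.dvd_or_dvd h3 with h4 | h4
          · have h5 := (hmem₁ l hl (by exact_mod_cast h4)).1
            omega
          · have h5 := (hmem₂ l hl (by exact_mod_cast h4)).1
            omega
        · by_contra hne
          have h6 : ((t : ℤ) - t') ≠ 0 := by omega
          have h7 := Int.le_of_dvd (abs_pos.2 h6) ((dvd_abs _ _).2 h3)
          rw [le_abs] at h7
          omega
      rw [← Finset.card_image_of_injOn hinj]
      calc _ ≤ (Polynomial.nthRoots 2 (D : ZMod l)).toFinset.card := by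
            refine Finset.card_le_card ?_
            intro z hz
            rw [Finset.mem_image] at hz
            obtain ⟨t, ht, rfl⟩ := hz
            rw [Finset.mem_filter] at ht
            rw [Multiset.mem_toFinset, Polynomial.mem_nthRoots (by norm_num)]
            have h1 := (ZMod.intCast_zmod_eq_zero_iff_dvd _ l).2 ht.2
            push_cast at h1
            exact sub_eq_zero.1 h1
        _ ≤ (Polynomial.nthRoots 2 (D : ZMod l)).card := Multiset.toFinset_card_le _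
        _ ≤ 2 := Polynomial.card_nthRoots _ _
  have hone : ∀ c : ℤ,
      ((Finset.range (2 * s + 3)).filter (fun t => (X t : ℤ) ^ 2 - D = c)).card ≤ 1 := by
    intro c
    rw [Finset.card_le_one]
    intro t ht t' ht'
    rw [Finset.mem_filter] at ht ht'
    apply hXinj
    have h1 : ((X t : ℤ)) ^ 2 = (X t' : ℤ) ^ 2 := by
      linear_combination ht.2 - ht'.2
    have h2 : X t ^ 2 = X t' ^ 2 := by exact_mod_cast h1
    exact (Nat.pow_left_inj (by norm_num)).1 h2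
  -- a good parameter
  have hex : ∃ t ∈ Finset.range (2 * s + 3),
      (∀ l : ℕ, l.Prime → l ∣ 2 * n → ¬ (l : ℤ) ∣ (X t : ℤ) ^ 2 - D) ∧
      (X t : ℤ) ^ 2 - D ≠ 1 ∧ (X t : ℤ) ^ 2 - D ≠ -1 := by
    by_contra hcon
    push Not at hcon
    have hsub : Finset.range (2 * s + 3) ⊆
        ((2 * n).primeFactors.biUnion fun l =>
          (Finset.range (2 * s + 3)).filter (fun t => (l : ℤ) ∣ (X t : ℤ) ^ 2 - D)) ∪
        ((Finset.range (2 * s + 3)).filter (fun t => (X t : ℤ) ^ 2 - D = 1) ∪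
          (Finset.range (2 * s + 3)).filter (fun t => (X t : ℤ) ^ 2 - D = -1)) := by
      intro t ht
      by_cases h1 : ∀ l : ℕ, l.Prime → l ∣ 2 * n → ¬ (l : ℤ) ∣ (X t : ℤ) ^ 2 - D
      · by_cases h2 : (X t : ℤ) ^ 2 - D = 1
        · exact Finset.mem_union_right _ (Finset.mem_union_left _ (Finset.mem_filter.2 ⟨ht, h2⟩))
        · exact Finset.mem_union_right _ (Finset.mem_union_right _
            (Finset.mem_filter.2 ⟨ht, hcon t ht h1 h2⟩))
      · push Not at h1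
        obtain ⟨l, hl, hd, hdv⟩ := h1
        exact Finset.mem_union_left _ (Finset.mem_biUnion.2
          ⟨l, Nat.mem_primeFactors.2 ⟨hl, hd, hN0⟩, Finset.mem_filter.2 ⟨ht, hdv⟩⟩)
    have h3 := Finset.card_le_card hsub
    rw [Finset.card_range] at h3
    have h4 := Finset.card_biUnion_le_card_mul (2 * n).primeFactors
      (fun l => (Finset.range (2 * s + 3)).filter (fun t => (l : ℤ) ∣ (X t : ℤ) ^ 2 - D)) 2 hlarge
    rw [← hs] at h4
    have h5 := Finset.card_union_le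
      ((2 * n).primeFactors.biUnion fun l =>
          (Finset.range (2 * s + 3)).filter (fun t => (l : ℤ) ∣ (X t : ℤ) ^ 2 - D))
      ((Finset.range (2 * s + 3)).filter (fun t => (X t : ℤ) ^ 2 - D = 1) ∪
          (Finset.range (2 * s + 3)).filter (fun t => (X t : ℤ) ^ 2 - D = -1))
    have h6 := Finset.card_union_le
      ((Finset.range (2 * s + 3)).filter (fun t => (X t : ℤ) ^ 2 - D = 1))
      ((Finset.range (2 * s + 3)).filter (fun t => (X t : ℤ) ^ 2 - D = -1))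
    have h7 := hone 1
    have h8 := hone (-1)
    omega
  obtain ⟨t, ht, h1, h2, h3⟩ := hex
  rw [Finset.mem_range] at ht
  refine ⟨X t, ?_, h1, ?_⟩
  · have h4 : X t ≤ R₁ * R₂ * (1 + t) := by
      rw [hX]
      calc R₁ * (1 + R₂ * t) ≤ R₁ * (R₂ + R₂ * t) :=
            Nat.mul_le_mul_left _ (Nat.add_le_add_right hR₂0 _)
        _ = R₁ * R₂ * (1 + t) := by ring
    calc X t ≤ R₁ * R₂ * (1 + t) := h4
      _ ≤ 4 ^ (2 * s + 3) * (2 * s + 3) := Nat.mul_le_mul hR12 (by omega)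
      _ ≤ 4 ^ (2 * s + 3) * 4 ^ (s + 1) := Nat.mul_le_mul_left _ (lin_le_four_pow s)
      _ = 4 ^ (3 * s + 4) := by rw [← pow_add]; congr 1; ring
      _ ≤ 4 ^ (3 * n.primeFactors.card + 7) := Nat.pow_le_pow_right (by norm_num) (by omega)
  · have h4 : (X t : ℤ) ^ 2 - D ≠ 0 := by
      intro h0
      exact h1 2 Nat.prime_two (dvd_mul_right 2 n) (by rw [h0]; exact dvd_zero _)
    omega

end Pool.Agent.Helper68.CO2
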