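import Mathlib
import Pool.Agent.Helper68.CO2.RigidAll
import Pool.Agent.Helper68.CO2.Real2
import Pool.Agent.Helper68.CO2.Sieve2
import Pool.Agent.Helper68.CO2.Count

/-!
MP_418075_nt.  Both parities in every reduced class modulo every `n`, and rigidity.
-/

set_option autoImplicit false

namespace Pool.Agent.Helper68.CO2

theorem cube_le (s : ℕ) : 4 * (4 ^ (2 * s + 1) + 1) ^ 3 ≤ 4 ^ (6 * s + 7) := by
  have h1 : 4 ^ (2 * s + 1) + 1 ≤ 4 ^ (2 * s + 2) := by
    have h2 : 4 ^ (2 * s + 2) = 4 ^ (2 * s + 1) * 4 := by rw [← pow_succ]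
    have h3 : 0 < 4 ^ (2 * s + 1) := Nat.pow_pos (by norm_num)
    omega
  calc 4 * (4 ^ (2 * s + 1) + 1) ^ 3 ≤ 4 * (4 ^ (2 * s + 2)) ^ 3 :=
        Nat.mul_le_mul_left 4 (Nat.pow_le_pow_left h1 3)
    _ = 4 ^ (6 * s + 7) := by
        rw [← pow_mul, ← pow_succ']
        congr 1
        ring

/-- the Liouville function is not a character up to `n + 4 ^ (6 ω(n) + 14)` -/
theorem not_liouville {n : ℕ} [hn : Fact (1 < n)] (F : (ZMod n)ˣ →* ℤˣ)
    (hF : ∀ a, 0 < a → a ≤ n + 4 ^ (6 * n.primeFactors.card + 14) → Nat.Coprime a n →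
      lam a = F (U n a)) : False := by
  have hn1 := hn.out
  have hn0 : n ≠ 0 := by omega
  obtain ⟨D, hD0, hDn, hD⟩ := real_class n hn0 F
  obtain ⟨x, hx, hxl, hx1⟩ := exists_value hn0 hDn
  obtain ⟨v, hv⟩ : ∃ v, v = ((x : ℤ) ^ 2 - D).natAbs := ⟨_, rfl⟩
  rw [← hv] at hx1
  have hq : (Nat.minFac v).Prime := Nat.minFac_prime (by omega)
  have hqv : (Nat.minFac v : ℤ) ∣ (x : ℤ) ^ 2 - D := by
    have h1 : ((Nat.minFac v : ℕ) : ℤ) ∣ (v : ℤ) := by exact_mod_cast Nat.minFac_dvd v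
    rw [hv, Int.dvd_natAbs] at h1
    rw [hv]
    exact h1
  have hqle : Nat.minFac v ≤ v := Nat.minFac_le (by omega)
  obtain ⟨q, hqdef⟩ : ∃ q, q = Nat.minFac v := ⟨_, rfl⟩
  rw [← hqdef] at hq hqv hqle
  have hqn : ¬ q ∣ 2 * n := fun h => hxl q hq h hqv
  have hqn1 : ¬ q ∣ n := fun h => hqn (Dvd.dvd.mul_left h 2)
  have hq2 : q ≠ 2 := fun h => hqn (by rw [h]; exact dvd_mul_right 2 n)
  have hqodd : Odd q := by
    rcases hq.eq_two_or_odd' with h | h
    · exact absurd h hq2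
    · exact h
  have hqcop : Nat.Coprime q n := (Nat.Prime.coprime_iff_not_dvd hq).2 hqn1
  have hqI : Prime ((q : ℕ) : ℤ) := Nat.prime_iff_prime_int.1 hq
  have hqx : ¬ (q : ℤ) ∣ (x : ℤ) := by
    intro h
    have h1 : (q : ℤ) ∣ D := by
      have h2 : (q : ℤ) ∣ (x : ℤ) ^ 2 := dvd_pow h (by norm_num)
      exact (dvd_sub_right h2).1 hqv
    have h3 : q ∣ D.natAbs := Int.natCast_dvd.1 h1
    exact hqn1 (h3.trans hDn)
  have hgcd : Int.gcd (x : ℤ) q = 1 := by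
    rw [← Int.isCoprime_iff_gcd_eq_one]
    exact ((hqI.coprime_iff_not_dvd).2 hqx).symm
  have hJ : jacobiSym D q = 1 := by
    have h1 : D % (q : ℤ) = (x : ℤ) ^ 2 % (q : ℤ) := Int.modEq_iff_dvd.2 hqv
    rw [jacobiSym.mod_left' h1]
    exact jacobiSym.sq_one' hgcd
  have hFq : F (U n q) = 1 := by
    have h1 := hD q hqodd hqcop
    rw [hJ] at h1
    exact Units.ext h1
  have hbound : q ≤ n + 4 ^ (6 * n.primeFactors.card + 14) := by
    have hDle : D.natAbs ≤ n := Nat.le_of_dvd (by omega) hDn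
    have h1 : v ≤ x ^ 2 + D.natAbs := by
      rw [hv]
      refine (Int.natAbs_sub_le _ _).trans ?_
      rw [Int.natAbs_pow, Int.natAbs_natCast]
    obtain ⟨s, hs⟩ : ∃ s, s = n.primeFactors.card := ⟨_, rfl⟩
    rw [← hs] at hx
    have h2 : x ^ 2 ≤ 4 ^ (6 * s + 14) := by
      calc x ^ 2 ≤ (4 ^ (3 * s + 7)) ^ 2 := Nat.pow_le_pow_left hx 2
        _ = 4 ^ (6 * s + 14) := by
          rw [← pow_mul]
          congr 1
          ring
    rw [← hs]
    omega
  have h5 := hF q hq.pos hbound hqcop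
  rw [lam_prime hq, hFq] at h5
  exact absurd h5 (by decide)

section rigid

variable {A : Type*} [CommGroup A]

/-- constancy on the first `N` members of a reduced class gives periodicity up to `N` -/
theorem periodic_of_members {n : ℕ} [hn : Fact (1 < n)] {f : ℕ → A} (hf : CM f) {N : ℕ}
    (hN : n ≤ N) {s : A} {k : ℕ} (hk : 1 ≤ k) (hkn : k < n) (hcop : Nat.Coprime k n)
    (h : ∀ j < N, f (j * n + k) = s) :
    ∀ a, 0 < a → a ≤ N → Nat.Coprime a n → f a = FF n f (U n a) := by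
  intro a ha haN hcopa
  have : NeZero n := ⟨by have := hn.out; omega⟩
  have hc : ∀ m : ℕ, m ≤ N * n → (m : ZMod n) = (U n k : (ZMod n)ˣ) → f m = s := by
    intro m hm hmk
    rw [coe_U hcop] at hmk
    obtain ⟨j, hj, rfl⟩ := mem_class hk hkn hm hmk
    exact h j hj
  have h0 := val_pos (U n a)
  have h0' := val_lt (U n a)
  have h2 := val_pos (U n k * (U n a)⁻¹)
  have h4 := val_lt (U n k * (U n a)⁻¹)
  have h1 : f (((U n k * (U n a)⁻¹ : (ZMod n)ˣ) : ZMod n).val *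
      ((U n a : (ZMod n)ˣ) : ZMod n).val) = s := by
    refine hc _ ?_ ?_
    · rw [Nat.mul_comm N n]
      exact Nat.mul_le_mul h4.le (h0'.le.trans hN)
    · rw [Nat.cast_mul, ZMod.natCast_zmod_val, ZMod.natCast_zmod_val, ← Units.val_mul,
        inv_mul_cancel_right]
  have h5 : f (((U n k * (U n a)⁻¹ : (ZMod n)ˣ) : ZMod n).val * a) = s := by
    refine hc _ ?_ ?_
    · rw [Nat.mul_comm N n]
      exact Nat.mul_le_mul h4.le haN
    · rw [Nat.cast_mul, ZMod.natCast_zmod_val, ← coe_U hcopa, ← Units.val_mul,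
        inv_mul_cancel_right]
  rw [hf _ _ h2.ne' ha.ne', ← h1, hf _ _ h2.ne' h0.ne'] at h5
  exact mul_left_cancel h5

/-- rigidity: the homomorphism -/
theorem hom_of_members {n J : ℕ} [hn : Fact (1 < n)] (hJ : JP n J) {f : ℕ → A} (hf : CM f)
    {N : ℕ} (hN : 4 * (J + 1) ^ 3 * n ≤ N) {k : ℕ} {s : A} (hk : 1 ≤ k) (hkn : k < n)
    (hcop : Nat.Coprime k n) (h : ∀ j < N, f (j * n + k) = s) :
    ∃ F : (ZMod n)ˣ →* A, ∀ a, 0 < a → a ≤ N → Nat.Coprime a n → f a = F (U n a) := by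
  have hn1 := hn.out
  have : NeZero n := ⟨by omega⟩
  have hnN : n ≤ N := by
    refine le_trans ?_ hN
    exact Nat.le_mul_of_pos_left n (by positivity)
  have hper := periodic_of_members hf hnN hk hkn hcop h
  have hall := all_mem hf hJ (fun a h0 h1 h2 => hper a h0 (h1.trans hN) h2)
  refine ⟨MonoidHom.mk' (fun u => FF n f u) ?_, fun a h0 h1 h2 => hper a h0 h1 h2⟩
  intro u v
  have h2 := val_coprime u
  have h4 : U n (u : ZMod n).val = u := by
    apply Units.ext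
    rw [coe_U h2, ZMod.natCast_zmod_val]
  have h5 := mem_HH.1 (hall (u : ZMod n).val (val_pos u) (val_lt u) h2) v
  rw [h4] at h5
  exact h5

/-- rigidity, elementary form -/
theorem rigid_members {n J : ℕ} (hn1 : 1 < n) (hJ : JP n J) {f : ℕ → A} (hf : CM f)
    {N : ℕ} (hN : 4 * (J + 1) ^ 3 * n ≤ N) {k : ℕ} {s : A} (hk : 1 ≤ k) (hkn : k < n)
    (hcop : Nat.Coprime k n) (h : ∀ j < N, f (j * n + k) = s) :
    ∀ a b c, 0 < a → a ≤ N → Nat.Coprime a n → 0 < b → b ≤ N → Nat.Coprime b n → 0 < c →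
      c ≤ N → c ≡ a * b [MOD n] → f c = f a * f b := by
  have hn : Fact (1 < n) := ⟨hn1⟩
  obtain ⟨F, hF⟩ := hom_of_members hJ hf hN hk hkn hcop h
  intro a b c ha haN hca hb hbN hcb hc hcN hmod
  have hcab : Nat.Coprime (a * b) n := Nat.Coprime.mul_left hca hcb
  have hcc : Nat.Coprime c n := by
    have := hmod.gcd_eq
    rw [Nat.Coprime, this]
    exact hcab
  rw [hF c hc hcN hcc, hF a ha haN hca, hF b hb hbN hcb, ← map_mul, ← U_mul hca hcb]
  congr 1
  apply Units.ext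
  rw [coe_U hcc, coe_U hcab]
  exact (ZMod.natCast_eq_natCast_iff _ _ _).2 hmod

end rigid

/-- both parities in every reduced class, in terms of Jacobsthal's function -/
theorem mixed_jac {n J : ℕ} (hn : 1 < n) (hJ : JP n J) {k : ℕ} (hk : 1 ≤ k) (hkn : k < n)
    (hcop : Nat.Coprime k n) :
    Mixed n k (4 * (J + 1) ^ 3 * n + 4 ^ (6 * n.primeFactors.card + 14)) := by
  have : Fact (1 < n) := ⟨hn⟩
  by_contra hm
  obtain ⟨s, hs⟩ := const_of_not_mixed hm
  obtain ⟨F, hF⟩ := hom_of_members hJ cm_lam (Nat.le_add_right _ _) hk hkn hcop hs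
  refine not_liouville F fun a h0 h1 h2 => hF a h0 (h1.trans ?_) h2
  refine Nat.add_le_add_right ?_ _
  exact Nat.le_mul_of_pos_left n (by positivity)

/-- both parities in every reduced class, explicit -/
theorem mixed_all {n : ℕ} (hn : 1 < n) {k : ℕ} (hk : 1 ≤ k) (hkn : k < n)
    (hcop : Nat.Coprime k n) : Mixed n k (4 ^ (6 * n.primeFactors.card + 15) * n) := by
  refine (mixed_jac hn (jp_explicit (by omega)) hk hkn hcop).mono ?_
  have h1 := cube_le n.primeFactors.card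
  obtain ⟨s, hs⟩ : ∃ s, s = n.primeFactors.card := ⟨_, rfl⟩
  rw [← hs] at h1 ⊢
  have h2 : 4 ^ (6 * s + 7) ≤ 4 ^ (6 * s + 14) := Nat.pow_le_pow_right (by norm_num) (by omega)
  have h3 : 4 ^ (6 * s + 15) = 4 * 4 ^ (6 * s + 14) := by rw [← pow_succ']
  have h4 : 4 ^ (6 * s + 14) ≤ 4 ^ (6 * s + 14) * n := Nat.le_mul_of_pos_right _ (by omega)
  calc 4 * (4 ^ (2 * s + 1) + 1) ^ 3 * n + 4 ^ (6 * s + 14)
      ≤ 4 ^ (6 * s + 14) * n + 4 ^ (6 * s + 14) * n :=
        Nat.add_le_add (Nat.mul_le_mul_right n (h1.trans h2)) h4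
    _ = 2 * 4 ^ (6 * s + 14) * n := by ring
    _ ≤ 4 * 4 ^ (6 * s + 14) * n := Nat.mul_le_mul_right n (Nat.mul_le_mul_right _ (by norm_num))
    _ = 4 ^ (6 * s + 15) * n := by rw [h3]

end Pool.Agent.Helper68.CO2
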