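import Mathlib

/-!
MP_418075_nt.  Stepanov's method for a subgroup of the multiplicative group of a prime field:
sparse polynomials, nonvanishing, and the auxiliary linear system.
-/

set_option autoImplicit false

namespace Pool.Agent.Helper68.CO2

open Polynomial Finset

section

variable {p : ℕ} [hp : Fact p.Prime]

theorem cast_ne {m n : ℕ} (hm : m < p) (hn : n < p) (h : m ≠ n) : (m : ZMod p) ≠ (n : ZMod p) := by
  intro h1
  have h2 := (ZMod.natCast_eq_natCast_iff' m n p).1 h1
  rw [Nat.mod_eq_of_lt hm, Nat.mod_eq_of_lt hn] at h2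
  exact h h2

/-- a polynomial with at most `k` terms of degree less than `p`, divisible by `(X - 1) ^ k` -/
theorem sparse_zero : ∀ (k : ℕ) (f : (ZMod p)[X]), f.support.card ≤ k → f.natDegree < p →
    (X - C (1 : ZMod p)) ^ k ∣ f → f = 0 := by
  intro k
  induction k with
  | zero =>
    intro f h _ _
    exact Polynomial.card_support_eq_zero.1 (Nat.le_zero.1 h)
  | succ k ih =>
    intro f hc hd hdvd
    by_contra hf
    obtain ⟨e, he⟩ : ∃ e, e = f.natDegree := ⟨_, rfl⟩
    have hcoef : ∀ n : ℕ, (X * derivative f - C (e : ZMod p) * f).coeff n =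
        ((n : ZMod p) - (e : ZMod p)) * f.coeff n := by
      intro n
      rw [coeff_sub, coeff_C_mul]
      cases n with
      | zero =>
        rw [coeff_X_mul_zero, Nat.cast_zero]
        ring
      | succ n =>
        rw [coeff_X_mul, coeff_derivative]
        push_cast
        ring
    have hsupp : (X * derivative f - C (e : ZMod p) * f).support ⊆ f.support.erase e := by
      intro n hn
      rw [mem_support_iff, hcoef] at hn
      rw [Finset.mem_erase, mem_support_iff]
      exact ⟨fun h => hn (by rw [h, sub_self, zero_mul]), right_ne_zero_of_mul hn⟩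
    have hes : e ∈ f.support := by
      rw [he]
      exact natDegree_mem_support_of_nonzero hf
    have hc' : (X * derivative f - C (e : ZMod p) * f).support.card ≤ k := by
      have h1 := Finset.card_le_card hsupp
      rw [Finset.card_erase_of_mem hes] at h1
      omega
    have hd' : (X * derivative f - C (e : ZMod p) * f).natDegree < p := by
      refine lt_of_le_of_lt ?_ hd
      rw [natDegree_le_iff_coeff_eq_zero]
      intro n hn
      rw [hcoef, coeff_eq_zero_of_natDegree_lt hn, mul_zero]
    have hdvd' : (X - C (1 : ZMod p)) ^ k ∣ X * derivative f - C (e : ZMod p) * f := by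
      refine dvd_sub (Dvd.dvd.mul_left ?_ _) (Dvd.dvd.mul_left ?_ _)
      · have h1 := pow_sub_one_dvd_derivative_of_pow_dvd hdvd
        rw [Nat.add_sub_cancel] at h1
        exact h1
      · exact (pow_dvd_pow _ (Nat.le_succ k)).trans hdvd
    have hz := ih _ hc' hd' hdvd'
    have hmono : ∀ n, n ≠ e → f.coeff n = 0 := by
      intro n hn
      rcases Nat.lt_or_ge n p with h1 | h1
      · have h2 := hcoef n
        rw [hz, coeff_zero] at h2
        rcases mul_eq_zero.1 h2.symm with h3 | h3
        · exact absurd (sub_eq_zero.1 h3) (cast_ne h1 (by rw [he]; exact hd) hn)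
        · exact h3
      · exact coeff_eq_zero_of_natDegree_lt (by omega)
    have heval : f.eval 1 = 0 := by
      have h1 : (X - C (1 : ZMod p)) ∣ f := (dvd_pow_self _ (Nat.succ_ne_zero k)).trans hdvd
      obtain ⟨g, hg⟩ := h1
      rw [hg, eval_mul, eval_sub, eval_X, eval_C, sub_self, zero_mul]
    have heval2 : f.eval 1 = f.coeff e := by
      rw [eval_eq_sum_range, Finset.sum_eq_single e]
      · rw [one_pow, mul_one]
      · intro n _ hn
        rw [hmono n hn, zero_mul]
      · intro h1
        rw [Finset.mem_range] at h1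
        omega
    rw [heval2] at heval
    exact (mem_support_iff.1 hes) heval

/-- nonvanishing -/
theorem nonvan (h : ℕ) : ∀ (B : ℕ) (Φ : ℕ → (ZMod p)[X]),
    (∀ c < B, (X - C (1 : ZMod p)) ^ h ∣ Φ c → Φ c = 0) →
    ∑ c ∈ range B, (X - C (1 : ZMod p)) ^ (h * c) * Φ c = 0 → ∀ c < B, Φ c = 0 := by
  intro B
  induction B with
  | zero => intro _ _ _ c hc; exact absurd hc (Nat.not_lt_zero c)
  | succ B ih =>
    intro Φ hΦ hsum
    rw [Finset.sum_range_succ', mul_zero, pow_zero, one_mul] at hsum
    have h1 : ∑ c ∈ range B, (X - C (1 : ZMod p)) ^ (h * (c + 1)) * Φ (c + 1) =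
        (X - C (1 : ZMod p)) ^ h * ∑ c ∈ range B, (X - C (1 : ZMod p)) ^ (h * c) * Φ (c + 1) := by
      rw [Finset.mul_sum]
      refine Finset.sum_congr rfl fun c _ => ?_
      rw [Nat.mul_succ, pow_add]
      ring
    rw [h1] at hsum
    have h0 : Φ 0 = 0 := by
      refine hΦ 0 (Nat.succ_pos B) ?_
      have h2 := eq_neg_of_add_eq_zero_right hsum
      rw [h2]
      exact (dvd_mul_right _ _).neg_right
    rw [h0, add_zero] at hsum
    have hne : (X - C (1 : ZMod p)) ^ h ≠ 0 := pow_ne_zero _ (X_sub_C_ne_zero _)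
    have h3 := (mul_eq_zero.1 hsum).resolve_left hne
    have h4 := ih (fun c => Φ (c + 1)) (fun c hc => hΦ (c + 1) (by omega)) h3
    intro c hc
    cases c with
    | zero => exact h0
    | succ c => exact h4 c (by omega)

end

/-- an underdetermined homogeneous system has a nonzero solution -/
theorem exists_solution {F α β : Type*} [Field F] (T : Finset α) (E : Finset β) (w : β → α → F)
    (h : E.card < T.card) : ∃ l : α → F, (∃ x ∈ T, l x ≠ 0) ∧
      ∀ e ∈ E, ∑ x ∈ T, l x * w e x = 0 := by
  classical
  obtain ⟨L, hL⟩ : ∃ L : (T → F) →ₗ[F] (E → F), L = Matrix.mulVecLin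
      (Matrix.of fun (e : E) (x : T) => w e x) := ⟨_, rfl⟩
  have hker : LinearMap.ker L ≠ ⊥ := by
    apply LinearMap.ker_ne_bot_of_finrank_lt
    rw [Module.finrank_fintype_fun_eq_card, Module.finrank_fintype_fun_eq_card, Fintype.card_coe,
      Fintype.card_coe]
    exact h
  obtain ⟨v, hv, hv0⟩ := (Submodule.ne_bot_iff _).1 hker
  refine ⟨fun x => if hx : x ∈ T then v ⟨x, hx⟩ else 0, ?_, ?_⟩
  · obtain ⟨x, hx⟩ := Function.ne_iff.1 hv0
    refine ⟨x, x.2, ?_⟩
    change (if hx : (x : α) ∈ T then v ⟨x, hx⟩ else 0) ≠ 0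
    rw [dif_pos x.2]
    exact hx
  · intro e he
    have h1 := congrFun (LinearMap.mem_ker.1 hv) ⟨e, he⟩
    rw [hL, Matrix.mulVecLin_apply] at h1
    simp only [Matrix.mulVec, dotProduct, Matrix.of_apply, Pi.zero_apply] at h1
    refine Eq.trans ?_ h1
    rw [← Finset.sum_coe_sort T]
    refine Finset.sum_congr rfl fun x _ => ?_
    change (if hx : (x : α) ∈ T then v ⟨x, hx⟩ else 0) * w e x = w e x * v x
    rw [dif_pos x.2, mul_comm]

end Pool.Agent.Helper68.CO2
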