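import Mathlib
import Pool.Agent.Helper68.CO2.Step1

/-!
MP_418075_nt.  Stepanov's method for a subgroup of the multiplicative group of a prime field: the
main count.
-/

set_option autoImplicit false

namespace Pool.Agent.Helper68.CO2

open Polynomial Finset

section

variable {p : ℕ} [hp : Fact p.Prime]

/-- the polynomial whose value at `z` is a Taylor coefficient -/
noncomputable def auxP (h n : ℕ) (c₀ : ZMod p) (a b c : ℕ) : (ZMod p)[X] :=
  C (c₀ ^ (b + c)) * ∑ x ∈ antidiagonal n,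
    C (((a + h * b).choose x.1 : ZMod p) * ((h * c).choose x.2 : ZMod p)) *
      (X ^ (a + n - x.1) * (X - C (1 : ZMod p)) ^ (n - x.2))

theorem auxP_eval {h n : ℕ} {c₀ z : ZMod p} (hz : z ^ h = c₀) (hz' : (z - 1) ^ h = c₀)
    (a b c : ℕ) : (auxP h n c₀ a b c).eval z = z ^ n * (z - 1) ^ n *
      ((X + C z) ^ (a + h * b) * (X + C (z - 1)) ^ (h * c)).coeff n := by
  unfold auxP
  rw [eval_mul, eval_C, eval_finsetSum, coeff_mul, Finset.mul_sum, Finset.mul_sum]
  refine Finset.sum_congr rfl fun x hx => ?_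
  rw [HasAntidiagonal.mem_antidiagonal] at hx
  rw [eval_mul, eval_C, eval_mul, eval_pow, eval_X, eval_pow, eval_sub, eval_X, eval_C,
    coeff_X_add_C_pow, coeff_X_add_C_pow]
  rcases Nat.lt_or_ge (a + h * b) x.1 with h1 | h1
  · rw [Nat.choose_eq_zero_of_lt h1, Nat.cast_zero]
    ring
  · rcases Nat.lt_or_ge (h * c) x.2 with h2 | h2
    · rw [Nat.choose_eq_zero_of_lt h2, Nat.cast_zero]
      ring
    · have e1 : z ^ n * z ^ (a + h * b - x.1) = c₀ ^ b * z ^ (a + n - x.1) := by
        rw [← hz, ← pow_mul, ← pow_add, ← pow_add]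
        congr 1
        omega
      have e2 : (z - 1) ^ n * (z - 1) ^ (h * c - x.2) = c₀ ^ c * (z - 1) ^ (n - x.2) := by
        rw [← hz', ← pow_mul, ← pow_add, ← pow_add]
        congr 1
        omega
      calc c₀ ^ (b + c) * (((a + h * b).choose x.1 : ZMod p) * ((h * c).choose x.2 : ZMod p) *
            (z ^ (a + n - x.1) * (z - 1) ^ (n - x.2)))
          = (c₀ ^ b * z ^ (a + n - x.1)) * (c₀ ^ c * (z - 1) ^ (n - x.2)) *
            (((a + h * b).choose x.1 : ZMod p) * ((h * c).choose x.2 : ZMod p)) := by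
              rw [pow_add]; ring
        _ = (z ^ n * z ^ (a + h * b - x.1)) * ((z - 1) ^ n * (z - 1) ^ (h * c - x.2)) *
            (((a + h * b).choose x.1 : ZMod p) * ((h * c).choose x.2 : ZMod p)) := by
              rw [e1, e2]
        _ = _ := by ring

theorem auxP_natDegree (h n : ℕ) (c₀ : ZMod p) (a b c : ℕ) :
    (auxP h n c₀ a b c).natDegree ≤ a + n := by
  unfold auxP
  refine (natDegree_C_mul_le _ _).trans ?_
  refine natDegree_sum_le_of_forall_le _ _ fun x hx => ?_
  rw [HasAntidiagonal.mem_antidiagonal] at hx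
  refine (natDegree_C_mul_le _ _).trans ?_
  refine (natDegree_mul_le).trans ?_
  rw [natDegree_X_pow]
  have h1 : ((X - C (1 : ZMod p)) ^ (n - x.2)).natDegree ≤ n - x.2 := by
    refine (natDegree_pow_le).trans ?_
    rw [natDegree_X_sub_C, mul_one]
  omega

/-- the count -/
theorem stepanov {h A B D : ℕ} (S Z : Finset (ZMod p))
    (hZ : ∀ z ∈ Z, z ≠ 0 ∧ z - 1 ≠ 0 ∧ ∃ c ∈ S, z ^ h = c ∧ (z - 1) ^ h = c)
    (hA0 : 1 ≤ A) (hB1 : 1 ≤ B) (hA : A * B ≤ h) (hBp : h * B ≤ p)
    (hcount : D * (S.card * (A + D)) < B * (A * B)) :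
    Z.card * D ≤ A + 2 * (h * B) := by
  classical
  have hAh : A ≤ h := (Nat.le_mul_of_pos_right A hB1).trans hA
  have hh0 : 0 < h := by omega
  obtain ⟨T, hT⟩ : ∃ T : Finset (ℕ × ℕ × ℕ), T = range B ×ˢ (range A ×ˢ range B) := ⟨_, rfl⟩
  obtain ⟨E, hE⟩ : ∃ E : Finset (ℕ × ZMod p × ℕ), E = range D ×ˢ (S ×ˢ range (A + D)) := ⟨_, rfl⟩
  have hTm : ∀ x ∈ T, x.1 < B ∧ x.2.1 < A ∧ x.2.2 < B := by
    intro x hx
    rw [hT, mem_product, mem_product, mem_range, mem_range, mem_range] at hx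
    exact hx
  obtain ⟨l, ⟨x₀, hx₀, hl₀⟩, hl⟩ := exists_solution (F := ZMod p) T E
    (fun e x => (auxP h e.1 e.2.1 x.2.1 x.2.2 x.1).coeff e.2.2) (by
      rw [hT, hE, card_product, card_product, card_product, card_product, card_range, card_range,
        card_range, card_range]
      exact hcount)
  obtain ⟨Φ, hΦ⟩ : ∃ Φ : ℕ → (ZMod p)[X], Φ = fun c => ∑ y ∈ range A ×ˢ range B,
    C (l (c, y)) * X ^ (y.1 + h * y.2) := ⟨_, rfl⟩
  obtain ⟨Ψ, hΨ⟩ : ∃ Ψ : (ZMod p)[X], Ψ = ∑ x ∈ T,
    C (l x) * (X ^ (x.2.1 + h * x.2.2) * (X - C (1 : ZMod p)) ^ (h * x.1)) := ⟨_, rfl⟩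
  have hΨΦ : ∑ c ∈ range B, (X - C (1 : ZMod p)) ^ (h * c) * Φ c = Ψ := by
    rw [hΨ, hT, Finset.sum_product]
    refine Finset.sum_congr rfl fun c _ => ?_
    rw [hΦ, Finset.mul_sum]
    refine Finset.sum_congr rfl fun y _ => ?_
    ring
  -- exponents
  have hexp : ∀ y ∈ range A ×ˢ range B, y.1 + h * y.2 < h * B := by
    intro y hy
    rw [mem_product, mem_range, mem_range] at hy
    have h1 : h * y.2 + h ≤ h * B := by
      rw [← Nat.mul_succ]
      exact Nat.mul_le_mul_left h hy.2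
    omega
  have hΦ0 : ∀ c < B, (X - C (1 : ZMod p)) ^ h ∣ Φ c → Φ c = 0 := by
    intro c _ hd
    refine sparse_zero (A * B) (Φ c) ?_ ?_ ((pow_dvd_pow _ hA).trans hd)
    · have hsub : (Φ c).support ⊆ (range A ×ˢ range B).image (fun y => y.1 + h * y.2) := by
        intro n hn
        rw [mem_support_iff, hΦ, finsetSum_coeff] at hn
        obtain ⟨y, hy, hy2⟩ := Finset.exists_ne_zero_of_sum_ne_zero hn
        rw [coeff_C_mul_X_pow] at hy2
        rw [Finset.mem_image]
        refine ⟨y, hy, ?_⟩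
        by_contra hne
        exact hy2 (if_neg (fun h => hne h.symm))
      refine (Finset.card_le_card hsub).trans (Finset.card_image_le.trans ?_)
      rw [card_product, card_range, card_range]
    · refine lt_of_le_of_lt (b := h * B - 1) ?_ (by
        have : 0 < h * B := Nat.mul_pos hh0 hB1
        omega)
      rw [hΦ]
      refine natDegree_sum_le_of_forall_le _ _ fun y hy => ?_
      refine (natDegree_C_mul_X_pow_le _ _).trans ?_
      have := hexp y hy
      omega
  have hΨ0 : Ψ ≠ 0 := by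
    intro h0
    rw [← hΨΦ] at h0
    have h1 := nonvan h B Φ hΦ0 h0 x₀.1 (hTm x₀ hx₀).1
    have h2 : (Φ x₀.1).coeff (x₀.2.1 + h * x₀.2.2) = l x₀ := by
      rw [hΦ, finsetSum_coeff, Finset.sum_eq_single x₀.2]
      · rw [coeff_C_mul_X_pow, if_pos rfl]
      · intro y hy hne
        rw [coeff_C_mul_X_pow, if_neg]
        intro heq
        apply hne
        rw [mem_product, mem_range, mem_range] at hy
        have hx := hTm x₀ hx₀
        have e1 : (x₀.2.1 + h * x₀.2.2) % h = x₀.2.1 := by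
          rw [Nat.add_mul_mod_self_left, Nat.mod_eq_of_lt (by omega)]
        have e2 : (y.1 + h * y.2) % h = y.1 := by
          rw [Nat.add_mul_mod_self_left, Nat.mod_eq_of_lt (by omega)]
        have e3 : x₀.2.1 = y.1 := by rw [← e1, ← e2, heq]
        have e4 : h * x₀.2.2 = h * y.2 := by omega
        have e5 : x₀.2.2 = y.2 := Nat.eq_of_mul_eq_mul_left hh0 e4
        exact Prod.ext e3.symm e5.symm
      · intro hne
        exfalso
        apply hne
        have hx := hTm x₀ hx₀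
        rw [mem_product, mem_range, mem_range]
        exact hx.2
    rw [h1, coeff_zero] at h2
    exact hl₀ h2.symm
  -- vanishing
  have hvan : ∀ z ∈ Z, (X - C z) ^ D ∣ Ψ := by
    intro z hz
    obtain ⟨hz0, hz1, c₀, hc₀, e1, e2⟩ := hZ z hz
    rw [X_sub_C_pow_dvd_iff, X_pow_dvd_iff]
    intro n hn
    have hcomp : Ψ.comp (X + C z) = ∑ x ∈ T,
        C (l x) * ((X + C z) ^ (x.2.1 + h * x.2.2) * (X + C (z - 1)) ^ (h * x.1)) := by
      rw [hΨ, Polynomial.sum_comp]
      refine Finset.sum_congr rfl fun x _ => ?_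
      rw [mul_comp, C_comp, mul_comp, pow_comp, X_comp, pow_comp, sub_comp, X_comp, C_comp]
      have h3 : X + C z - C (1 : ZMod p) = X + C (z - 1) := by
        rw [C_sub]
        ring
      rw [h3]
    have hQ : ∑ x ∈ T, C (l x) * auxP h n c₀ x.2.1 x.2.2 x.1 = 0 := by
      ext j
      rw [finsetSum_coeff, coeff_zero]
      rcases Nat.lt_or_ge j (A + D) with hj | hj
      · have h4 := hl (n, c₀, j) (by
          rw [hE, mem_product, mem_product, mem_range, mem_range]
          exact ⟨hn, hc₀, hj⟩)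
        refine Eq.trans ?_ h4
        refine Finset.sum_congr rfl fun x _ => ?_
        rw [coeff_C_mul]
      · refine Finset.sum_eq_zero fun x hx => ?_
        rw [coeff_C_mul, coeff_eq_zero_of_natDegree_lt, mul_zero]
        refine lt_of_le_of_lt (auxP_natDegree h n c₀ x.2.1 x.2.2 x.1) ?_
        have := (hTm x hx).2.1
        omega
    have hmul : z ^ n * (z - 1) ^ n * (Ψ.comp (X + C z)).coeff n = 0 := by
      rw [hcomp, finsetSum_coeff, Finset.mul_sum]
      have h5 := congrArg (eval z) hQ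
      rw [eval_finsetSum, eval_zero] at h5
      refine Eq.trans ?_ h5
      refine Finset.sum_congr rfl fun x _ => ?_
      rw [eval_mul, eval_C, auxP_eval e1 e2, coeff_C_mul]
      ring
    rcases mul_eq_zero.1 hmul with h6 | h6
    · rcases mul_eq_zero.1 h6 with h7 | h7
      · exact absurd h7 (pow_ne_zero n hz0)
      · exact absurd h7 (pow_ne_zero n hz1)
    · exact h6
  have hdvd : ∏ z ∈ Z, (X - C z) ^ D ∣ Ψ := by
    refine Finset.prod_dvd_of_coprime ?_ hvan
    intro z _ z' _ hne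
    exact (isCoprime_X_sub_C_of_isUnit_sub (sub_ne_zero.2 hne).isUnit).pow
  have hdeg := natDegree_le_of_dvd hdvd hΨ0
  rw [natDegree_prod_of_monic _ _ (fun z _ => (monic_X_sub_C z).pow D)] at hdeg
  have hd1 : ∑ z ∈ Z, ((X - C z) ^ D : (ZMod p)[X]).natDegree = Z.card * D := by
    rw [Finset.sum_congr rfl (fun z _ => by
      rw [(monic_X_sub_C z).natDegree_pow, natDegree_X_sub_C, mul_one]), Finset.sum_const,
      smul_eq_mul]
  rw [hd1] at hdeg
  refine hdeg.trans ?_
  rw [hΨ]
  refine natDegree_sum_le_of_forall_le _ _ fun x hx => ?_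
  refine (natDegree_C_mul_le _ _).trans ?_
  refine (natDegree_mul_le).trans ?_
  rw [natDegree_X_pow]
  have h1 : ((X - C (1 : ZMod p)) ^ (h * x.1)).natDegree ≤ h * x.1 := by
    refine (natDegree_pow_le).trans ?_
    rw [natDegree_X_sub_C, mul_one]
  obtain ⟨b1, b2, b3⟩ := hTm x hx
  have h2 : h * x.2.2 ≤ h * B := Nat.mul_le_mul_left h b3.le
  have h3 : h * x.1 ≤ h * B := Nat.mul_le_mul_left h b1.le
  omega

end

end Pool.Agent.Helper68.CO2
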