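import Mathlib
import Pool.Agent.Helper68.CO2.Step2

/-!
MP_418075_nt.  The number of representations as a difference of two elements of a subgroup.
-/

set_option autoImplicit false

namespace Pool.Agent.Helper68.CO2

open Finset

section

variable {p : ℕ} [hp : Fact p.Prime]

theorem step_bound {h : ℕ} (S Z : Finset (ZMod p))
    (hZ : ∀ z ∈ Z, z ≠ 0 ∧ z - 1 ≠ 0 ∧ ∃ c ∈ S, z ^ h = c ∧ (z - 1) ^ h = c)
    (hs : 1 ≤ S.card) (hh : 1 ≤ h) (h1 : 16 * S.card * h ^ 4 ≤ p ^ 3) (h2 : 16 * S.card ≤ h ^ 2) :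
    Z.card ^ 3 ≤ 32000 * (S.card * h) ^ 2 := by
  obtain ⟨s, hsd⟩ : ∃ s, s = S.card := ⟨_, rfl⟩
  rw [← hsd] at hs h1 h2 ⊢
  have hsh : 1 ≤ s * h := Nat.mul_pos hs hh
  have hex : ∃ B, 2 * (s * h) < B ^ 3 := by
    refine ⟨2 * (s * h) + 1, ?_⟩
    have : 2 * (s * h) + 1 ≤ (2 * (s * h) + 1) ^ 3 := Nat.le_self_pow (by norm_num) _
    omega
  obtain ⟨B, hB, hBmin⟩ : ∃ B, 2 * (s * h) < B ^ 3 ∧ ∀ b < B, b ^ 3 ≤ 2 * (s * h) := by
    classical
    refine ⟨Nat.find hex, Nat.find_spec hex, fun b hb => ?_⟩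
    exact Nat.not_lt.1 (Nat.find_min hex hb)
  have hB2 : 2 ≤ B := by
    by_contra hlt
    have h3 : B ≤ 1 := by omega
    have h4 : B ^ 3 ≤ 1 ^ 3 := Nat.pow_le_pow_left h3 3
    omega
  obtain ⟨b, rfl⟩ : ∃ b, B = b + 1 := ⟨B - 1, by omega⟩
  have hb := hBmin b (by omega)
  have hB3 : (b + 1) ^ 3 ≤ 16 * (s * h) := by
    calc (b + 1) ^ 3 ≤ (2 * b) ^ 3 := Nat.pow_le_pow_left (by omega) 3
      _ = 8 * b ^ 3 := by ring
      _ ≤ 8 * (2 * (s * h)) := Nat.mul_le_mul_left 8 hb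
      _ = 16 * (s * h) := by ring
  have hBp : h * (b + 1) ≤ p := by
    have h3 : (h * (b + 1)) ^ 3 ≤ p ^ 3 := by
      calc (h * (b + 1)) ^ 3 = h ^ 3 * (b + 1) ^ 3 := mul_pow _ _ _
        _ ≤ h ^ 3 * (16 * (s * h)) := Nat.mul_le_mul_left _ hB3
        _ = 16 * s * h ^ 4 := by ring
        _ ≤ p ^ 3 := h1
    exact (Nat.pow_le_pow_iff_left (by norm_num)).1 h3
  have hBh : b + 1 ≤ h := by
    have h3 : (b + 1) ^ 3 ≤ h ^ 3 := by
      calc (b + 1) ^ 3 ≤ 16 * (s * h) := hB3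
        _ = 16 * s * h := by ring
        _ ≤ h ^ 2 * h := Nat.mul_le_mul_right _ h2
        _ = h ^ 3 := by ring
    exact (Nat.pow_le_pow_iff_left (by norm_num)).1 h3
  obtain ⟨A, hA⟩ : ∃ A, A = h / (b + 1) := ⟨_, rfl⟩
  have hA1 : 1 ≤ A := by
    rw [hA]
    exact Nat.div_pos hBh (by omega)
  have hAB : A * (b + 1) ≤ h := by
    rw [hA]
    exact Nat.div_mul_le_self _ _
  have hAB2 : h ≤ 2 * (A * (b + 1)) := by
    have h3 := Nat.lt_div_mul_add (a := h) (b := b + 1) (by omega)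
    rw [← hA] at h3
    have h4 : b + 1 ≤ A * (b + 1) := Nat.le_mul_of_pos_left _ hA1
    omega
  have hcount : A * (S.card * (A + A)) < (b + 1) * (A * (b + 1)) := by
    rw [← hsd]
    have h3 : 2 * s * A < (b + 1) ^ 2 := by
      have h4 : (2 * s * A) * (b + 1) < (b + 1) ^ 2 * (b + 1) := by
        calc (2 * s * A) * (b + 1) = 2 * s * (A * (b + 1)) := by ring
          _ ≤ 2 * s * h := Nat.mul_le_mul_left _ hAB
          _ = 2 * (s * h) := by ring
          _ < (b + 1) ^ 3 := hB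
          _ = (b + 1) ^ 2 * (b + 1) := by ring
      exact Nat.lt_of_mul_lt_mul_right h4
    calc A * (s * (A + A)) = A * (2 * s * A) := by ring
      _ < A * (b + 1) ^ 2 := Nat.mul_lt_mul_of_pos_left h3 hA1
      _ = (b + 1) * (A * (b + 1)) := by ring
  have hmain := stepanov S Z hZ hA1 (by omega) hAB hBp hcount
  have hZ5 : Z.card ≤ 5 * (b + 1) ^ 2 := by
    have h3 : Z.card * A ≤ (5 * (b + 1) ^ 2) * A := by
      calc Z.card * A ≤ A + 2 * (h * (b + 1)) := hmain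
        _ ≤ A + 2 * (2 * (A * (b + 1)) * (b + 1)) :=
            Nat.add_le_add_left (Nat.mul_le_mul_left 2 (Nat.mul_le_mul_right _ hAB2)) A
        _ = (1 + 4 * (b + 1) ^ 2) * A := by ring
        _ ≤ (5 * (b + 1) ^ 2) * A := by
            refine Nat.mul_le_mul_right _ ?_
            have : 1 ≤ (b + 1) ^ 2 := Nat.one_le_pow _ _ (by omega)
            omega
    exact Nat.le_of_mul_le_mul_right h3 hA1
  calc Z.card ^ 3 ≤ (5 * (b + 1) ^ 2) ^ 3 := Nat.pow_le_pow_left hZ5 3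
    _ = 125 * ((b + 1) ^ 3) ^ 2 := by ring
    _ ≤ 125 * (16 * (s * h)) ^ 2 := Nat.mul_le_mul_left _ (Nat.pow_le_pow_left hB3 2)
    _ = 32000 * (s * h) ^ 2 := by ring

/-- the residues of the elements of a subgroup -/
noncomputable def hs (H : Subgroup (ZMod p)ˣ) : Finset (ZMod p) :=
  (Set.toFinite ((fun g : (ZMod p)ˣ => (g : ZMod p)) '' (H : Set (ZMod p)ˣ))).toFinset

theorem mem_hs {H : Subgroup (ZMod p)ˣ} {x : ZMod p} : x ∈ hs H ↔ ∃ g ∈ H, (g : ZMod p) = x := by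
  unfold hs
  rw [Set.Finite.mem_toFinset]
  rfl

theorem card_hs (H : Subgroup (ZMod p)ˣ) : (hs H).card = Nat.card H := by
  unfold hs
  rw [← Set.ncard_eq_toFinset_card _, Set.ncard_image_of_injective _ Units.val_injective]
  exact (Nat.card_coe_set_eq _).symm

theorem hs_ne_zero {H : Subgroup (ZMod p)ˣ} {x : ZMod p} (hx : x ∈ hs H) : x ≠ 0 := by
  obtain ⟨g, _, rfl⟩ := mem_hs.1 hx
  exact g.ne_zero

theorem hs_mul {H : Subgroup (ZMod p)ˣ} {x y : ZMod p} (hx : x ∈ hs H) (hy : y ∈ hs H) :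
    x * y ∈ hs H := by
  obtain ⟨g, hg, rfl⟩ := mem_hs.1 hx
  obtain ⟨g', hg', rfl⟩ := mem_hs.1 hy
  exact mem_hs.2 ⟨g * g', mul_mem hg hg', Units.val_mul _ _⟩

theorem hs_inv {H : Subgroup (ZMod p)ˣ} {x : ZMod p} (hx : x ∈ hs H) : x⁻¹ ∈ hs H := by
  obtain ⟨g, hg, rfl⟩ := mem_hs.1 hx
  exact mem_hs.2 ⟨g⁻¹, inv_mem hg, Units.val_inv_eq_inv_val g⟩

theorem hs_pow {H : Subgroup (ZMod p)ˣ} {x : ZMod p} (hx : x ∈ hs H) : x ^ Nat.card H = 1 := by
  obtain ⟨g, hg, rfl⟩ := mem_hs.1 hx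
  have h1 : (⟨g, hg⟩ : H) ^ Nat.card H = 1 := pow_card_eq_one'
  have h2 := congrArg (fun y : H => (y : (ZMod p)ˣ)) h1
  have h3 : g ^ Nat.card H = 1 := by
    refine Eq.trans ?_ h2
    rfl
  rw [← Units.val_pow_eq_pow_val, h3, Units.val_one]

open Classical in
/-- the number of representations of `b` as a difference -/
noncomputable def nn (H : Subgroup (ZMod p)ˣ) (b : ZMod p) : ℕ :=
  ((hs H).filter (fun x => x - b ∈ hs H)).card

theorem sum_nn (H : Subgroup (ZMod p)ˣ) : ∑ b : ZMod p, nn H b = (Nat.card H) ^ 2 := by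
  classical
  unfold nn
  simp only [Finset.card_filter]
  rw [Finset.sum_comm]
  have h1 : ∀ x ∈ hs H, ∑ b : ZMod p, (if x - b ∈ hs H then 1 else 0) = (hs H).card := by
    intro x _
    rw [← Finset.card_filter]
    refine Finset.card_bij' (fun b _ => x - b) (fun y _ => x - y) ?_ ?_ ?_ ?_
    · intro b hb
      exact (Finset.mem_filter.1 hb).2
    · intro y hy
      rw [Finset.mem_filter]
      exact ⟨Finset.mem_univ _, by rw [sub_sub_cancel]; exact hy⟩
    · intro b _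
      exact sub_sub_cancel x b
    · intro y _
      exact sub_sub_cancel x y
  rw [Finset.sum_congr rfl h1, Finset.sum_const, card_hs, smul_eq_mul, pow_two]

theorem nn_mul (H : Subgroup (ZMod p)ˣ) {u : ZMod p} (hu : u ∈ hs H) (b : ZMod p) :
    nn H (u * b) = nn H b := by
  classical
  unfold nn
  have hu0 := hs_ne_zero hu
  refine Finset.card_bij' (fun x _ => u⁻¹ * x) (fun x _ => u * x) ?_ ?_ ?_ ?_
  · intro x hx
    rw [Finset.mem_filter] at hx ⊢
    refine ⟨hs_mul (hs_inv hu) hx.1, ?_⟩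
    have h1 : u⁻¹ * x - b = u⁻¹ * (x - u * b) := by
      field_simp
    rw [h1]
    exact hs_mul (hs_inv hu) hx.2
  · intro x hx
    rw [Finset.mem_filter] at hx ⊢
    refine ⟨hs_mul hu hx.1, ?_⟩
    rw [← mul_sub]
    exact hs_mul hu hx.2
  · intro x _
    rw [← mul_assoc, mul_inv_cancel₀ hu0, one_mul]
  · intro x _
    rw [← mul_assoc, inv_mul_cancel₀ hu0, one_mul]

open Classical in
/-- nonzero elements with many representations -/
noncomputable def bt (H : Subgroup (ZMod p)ˣ) (t : ℕ) : Finset (ZMod p) :=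
  Finset.univ.filter (fun b => b ≠ 0 ∧ t ≤ nn H b)

theorem mem_bt {H : Subgroup (ZMod p)ˣ} {t : ℕ} {b : ZMod p} :
    b ∈ bt H t ↔ b ≠ 0 ∧ t ≤ nn H b := by
  classical
  unfold bt
  rw [Finset.mem_filter]
  exact ⟨fun h => h.2, fun h => ⟨Finset.mem_univ _, h⟩⟩

theorem bt_first (H : Subgroup (ZMod p)ˣ) (t : ℕ) : t * (bt H t).card ≤ (Nat.card H) ^ 2 := by
  rw [← sum_nn H, mul_comm, ← smul_eq_mul]
  refine (Finset.card_nsmul_le_sum (bt H t) (nn H) t fun b hb => (mem_bt.1 hb).2).trans ?_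
  exact Finset.sum_le_sum_of_subset (Finset.subset_univ _)

theorem bt_third (H : Subgroup (ZMod p)ˣ) (h16 : 16 ≤ Nat.card H)
    (hp3 : 16 * (Nat.card H) ^ 3 ≤ p ^ 2) {t : ℕ} (ht : 1 ≤ t) :
    t ^ 3 * (bt H t).card ≤ 32000 * (Nat.card H) ^ 3 := by
  classical
  obtain ⟨h, hh⟩ : ∃ h, h = Nat.card H := ⟨_, rfl⟩
  have hfirst := bt_first H t
  rw [← hh] at h16 hp3 hfirst ⊢
  obtain ⟨S, hS⟩ : ∃ S : Finset (ZMod p), S = (bt H t).image (fun b => (b⁻¹) ^ h) := ⟨_, rfl⟩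
  -- upper bound
  have hα : (bt H t).card ≤ h * S.card := by
    rw [hS]
    refine Finset.card_le_mul_card_image _ _ fun c _ => ?_
    have hsub : ((bt H t).filter (fun b => (b⁻¹) ^ h = c)).image (fun b => b⁻¹) ⊆
        (Polynomial.nthRoots h c).toFinset := by
      intro y hy
      rw [Finset.mem_image] at hy
      obtain ⟨b, hb, rfl⟩ := hy
      rw [Finset.mem_filter] at hb
      rw [Multiset.mem_toFinset, Polynomial.mem_nthRoots (by omega)]
      exact hb.2
    have h1 := Finset.card_le_card hsub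
    rw [Finset.card_image_of_injective _ inv_injective] at h1
    exact h1.trans ((Multiset.toFinset_card_le _).trans (Polynomial.card_nthRoots h c))
  -- lower bound
  have hβ : h * S.card ≤ (bt H t).card := by
    rw [hS]
    refine Finset.mul_card_image_le_card _ _ fun c hc => ?_
    obtain ⟨b, hb, rfl⟩ := Finset.mem_image.1 hc
    have hb' := mem_bt.1 hb
    have hsub : (hs H).image (fun u => u * b) ⊆
        (bt H t).filter (fun x => (x⁻¹) ^ h = (b⁻¹) ^ h) := by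
      intro y hy
      obtain ⟨u, hu, rfl⟩ := Finset.mem_image.1 hy
      rw [Finset.mem_filter, mem_bt]
      refine ⟨⟨mul_ne_zero (hs_ne_zero hu) hb'.1, ?_⟩, ?_⟩
      · rw [nn_mul H hu]
        exact hb'.2
      · rw [mul_inv, mul_pow]
        have h3 := hs_pow (hs_inv hu)
        rw [← hh] at h3
        rw [h3, one_mul]
    have h1 := Finset.card_le_card hsub
    rw [Finset.card_image_of_injective _ (mul_left_injective₀ hb'.1), card_hs, ← hh] at h1
    exact h1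
  obtain ⟨Z, hZd⟩ : ∃ Z : Finset (ZMod p), Z = Finset.univ.filter
    (fun z => z ≠ 0 ∧ z - 1 ≠ 0 ∧ z ^ h ∈ S ∧ (z - 1) ^ h = z ^ h) := ⟨_, rfl⟩
  have hZ : ∀ z ∈ Z, z ≠ 0 ∧ z - 1 ≠ 0 ∧ ∃ c ∈ S, z ^ h = c ∧ (z - 1) ^ h = c := by
    intro z hz
    rw [hZd, Finset.mem_filter] at hz
    exact ⟨hz.2.1, hz.2.2.1, z ^ h, hz.2.2.2.1, rfl, hz.2.2.2.2⟩
  have hγ : t * S.card ≤ Z.card := by
    refine Finset.mul_card_image_le_card_of_maps_to (f := fun z => z ^ h) ?_ t ?_
    · intro z hz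
      rw [hZd, Finset.mem_filter] at hz
      exact hz.2.2.2.1
    · intro c hc
      rw [hS] at hc
      obtain ⟨b, hb, hbc⟩ := Finset.mem_image.1 hc
      have hb' := mem_bt.1 hb
      refine hb'.2.trans ?_
      unfold nn
      refine Finset.card_le_card_of_injOn (fun x => x * b⁻¹) ?_ ?_
      · intro x hx
        rw [Finset.mem_coe, Finset.mem_filter] at hx
        have e1 : (x * b⁻¹) ^ h = c := by
          have h3 := hs_pow hx.1
          rw [← hh] at h3
          rw [mul_pow, h3, one_mul]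
          exact hbc
        have e2 : x * b⁻¹ - 1 = (x - b) * b⁻¹ := by
          rw [sub_mul, mul_inv_cancel₀ hb'.1]
        have e3 : (x * b⁻¹ - 1) ^ h = c := by
          have h3 := hs_pow hx.2
          rw [← hh] at h3
          rw [e2, mul_pow, h3, one_mul]
          exact hbc
        rw [Finset.mem_coe, Finset.mem_filter, hZd, Finset.mem_filter]
        refine ⟨⟨Finset.mem_univ _, mul_ne_zero (hs_ne_zero hx.1) (inv_ne_zero hb'.1), ?_, ?_, ?_⟩,
          e1⟩
        · rw [e2]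
          exact mul_ne_zero (hs_ne_zero hx.2) (inv_ne_zero hb'.1)
        · rw [e1, hS]
          exact hc
        · rw [e3, e1]
      · intro x _ x' _ hxx
        exact mul_right_cancel₀ (inv_ne_zero hb'.1) hxx
  rcases Nat.eq_zero_or_pos S.card with hs0 | hs0
  · rw [hs0, mul_zero] at hα
    have : (bt H t).card = 0 := by omega
    rw [this, mul_zero]
    exact Nat.zero_le _
  · have hbp : (bt H t).card ≤ p := by
      have h1 := Finset.card_le_univ (bt H t)
      rwa [ZMod.card] at h1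
    have c1 : 16 * S.card * h ^ 4 ≤ p ^ 3 := by
      calc 16 * S.card * h ^ 4 = (h * S.card) * (16 * h ^ 3) := by ring
        _ ≤ p * p ^ 2 := Nat.mul_le_mul (hβ.trans hbp) hp3
        _ = p ^ 3 := by ring
    have c2 : 16 * S.card ≤ h ^ 2 := by
      have h1 : h * S.card ≤ h * h := by
        calc h * S.card ≤ (bt H t).card := hβ
          _ ≤ t * (bt H t).card := Nat.le_mul_of_pos_left _ ht
          _ ≤ h ^ 2 := hfirst
          _ = h * h := pow_two h
      have h2 : S.card ≤ h := Nat.le_of_mul_le_mul_left h1 (by omega)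
      calc 16 * S.card ≤ h * h := Nat.mul_le_mul h16 h2
        _ = h ^ 2 := (pow_two h).symm
    have hmain := step_bound S Z hZ hs0 (by omega) c1 c2
    have h3 : (t ^ 3 * S.card) * S.card ^ 2 ≤ (32000 * h ^ 2) * S.card ^ 2 := by
      calc (t ^ 3 * S.card) * S.card ^ 2 = (t * S.card) ^ 3 := by ring
        _ ≤ Z.card ^ 3 := Nat.pow_le_pow_left hγ 3
        _ ≤ 32000 * (S.card * h) ^ 2 := hmain
        _ = (32000 * h ^ 2) * S.card ^ 2 := by ring
    have h4 : t ^ 3 * S.card ≤ 32000 * h ^ 2 :=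
      Nat.le_of_mul_le_mul_right h3 (Nat.pow_pos hs0)
    calc t ^ 3 * (bt H t).card ≤ t ^ 3 * (h * S.card) := Nat.mul_le_mul_left _ hα
      _ = h * (t ^ 3 * S.card) := by ring
      _ ≤ h * (32000 * h ^ 2) := Nat.mul_le_mul_left _ h4
      _ = 32000 * h ^ 3 := by ring

end

end Pool.Agent.Helper68.CO2
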