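import Mathlib
import Pool.Agent.Helper68.CO2.Step3
import Pool.Agent.Helper68.CO2.Four

/-!
MP_418075_nt.  Bounds for exponential sums over a subgroup of `(ZMod p)ˣ`.
-/

set_option autoImplicit false

namespace Pool.Agent.Helper68.CO2

open Finset

section

variable {p : ℕ} [hp : Fact p.Prime]

/-- Parseval for functions -/
theorem parseval_fun (g : ZMod p → ℂ) :
    ∑ a : ZMod p, ‖∑ b : ZMod p, g b * ZMod.stdAddChar (a * b)‖ ^ 2 =
      (p : ℝ) * ∑ b : ZMod p, ‖g b‖ ^ 2 := by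
  classical
  have h1 : ∀ a : ZMod p, ((‖∑ b : ZMod p, g b * ZMod.stdAddChar (a * b)‖ ^ 2 : ℝ) : ℂ) =
      ∑ s : ZMod p, ∑ t : ZMod p,
        (g s * (starRingEnd ℂ) (g t)) * (ZMod.stdAddChar (a * (s - t)) : ℂ) := by
    intro a
    rw [Complex.ofReal_pow, ← Complex.conj_mul', mul_comm, map_sum, Finset.sum_mul_sum]
    refine Finset.sum_congr rfl fun s _ => Finset.sum_congr rfl fun t _ => ?_
    rw [map_mul (starRingEnd ℂ), ← AddChar.map_neg_eq_conj]
    have h2 : (ZMod.stdAddChar (a * (s - t)) : ℂ) =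
        ZMod.stdAddChar (a * s) * ZMod.stdAddChar (-(a * t)) := by
      rw [← AddChar.map_add_eq_mul]
      congr 1
      ring
    rw [h2]
    ring
  have h2 : ((∑ a : ZMod p, ‖∑ b : ZMod p, g b * ZMod.stdAddChar (a * b)‖ ^ 2 : ℝ) : ℂ) =
      ((p : ℝ) * ∑ b : ZMod p, ‖g b‖ ^ 2 : ℝ) := by
    rw [Complex.ofReal_sum]
    simp only [h1]
    rw [Finset.sum_comm]
    have h3 : ∀ s : ZMod p, ∑ a : ZMod p, ∑ t : ZMod p,
        (g s * (starRingEnd ℂ) (g t)) * (ZMod.stdAddChar (a * (s - t)) : ℂ) =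
          (p : ℂ) * ((‖g s‖ ^ 2 : ℝ) : ℂ) := by
      intro s
      rw [Finset.sum_comm]
      have h4 : ∀ t : ZMod p, ∑ a : ZMod p,
          (g s * (starRingEnd ℂ) (g t)) * (ZMod.stdAddChar (a * (s - t)) : ℂ) =
          if s = t then (p : ℂ) * ((‖g s‖ ^ 2 : ℝ) : ℂ) else 0 := by
        intro t
        rw [← Finset.mul_sum, orth]
        by_cases h : s = t
        · subst h
          rw [if_pos rfl, if_pos (sub_self s), Complex.ofReal_pow, ← Complex.conj_mul']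
          ring
        · rw [if_neg h, if_neg (sub_ne_zero.2 h), mul_zero]
      rw [Finset.sum_congr rfl (fun t _ => h4 t), Finset.sum_ite_eq, if_pos (Finset.mem_univ s)]
    rw [Finset.sum_congr rfl (fun s _ => h3 s), ← Finset.mul_sum, ← Complex.ofReal_sum]
    push_cast
    ring
  exact_mod_cast h2

/-- the square of the exponential sum -/
theorem hat_sq (H : Subgroup (ZMod p)ˣ) (a : ZMod p) :
    ((‖hat (hs H) a‖ ^ 2 : ℝ) : ℂ) =
      ∑ b : ZMod p, (nn H b : ℂ) * ZMod.stdAddChar (a * b) := by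
  classical
  rw [Complex.ofReal_pow, ← Complex.conj_mul', mul_comm]
  unfold hat
  rw [map_sum, Finset.sum_mul_sum]
  have h1 : ∀ x ∈ hs H, ∑ y ∈ hs H, (ZMod.stdAddChar (a * x) : ℂ) *
      (starRingEnd ℂ) (ZMod.stdAddChar (a * y)) =
        ∑ b : ZMod p, (if x - b ∈ hs H then (ZMod.stdAddChar (a * b) : ℂ) else 0) := by
    intro x _
    rw [← Finset.sum_filter]
    refine Finset.sum_bij' (fun y _ => x - y) (fun b _ => x - b) ?_ ?_ ?_ ?_ ?_
    · intro y hy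
      rw [Finset.mem_filter]
      exact ⟨Finset.mem_univ _, by rw [sub_sub_cancel]; exact hy⟩
    · intro b hb
      exact (Finset.mem_filter.1 hb).2
    · intro y _
      exact sub_sub_cancel x y
    · intro b _
      exact sub_sub_cancel x b
    · intro y _
      rw [← AddChar.map_neg_eq_conj, ← AddChar.map_add_eq_mul]
      congr 1
      ring
  rw [Finset.sum_congr rfl h1, Finset.sum_comm]
  refine Finset.sum_congr rfl fun b _ => ?_
  unfold nn
  rw [← Finset.sum_filter, Finset.sum_const, nsmul_eq_mul]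

/-- the fourth moment -/
theorem fourth (H : Subgroup (ZMod p)ˣ) :
    ∑ a : ZMod p, ‖hat (hs H) a‖ ^ 4 = (p : ℝ) * ∑ b : ZMod p, (nn H b : ℝ) ^ 2 := by
  have h1 := parseval_fun (p := p) (fun b => (nn H b : ℂ))
  have h2 : ∀ a : ZMod p, ‖∑ b : ZMod p, (nn H b : ℂ) * ZMod.stdAddChar (a * b)‖ ^ 2 =
      ‖hat (hs H) a‖ ^ 4 := by
    intro a
    rw [← hat_sq, Complex.norm_real, Real.norm_of_nonneg (by positivity)]
    ring
  rw [Finset.sum_congr rfl (fun a _ => h2 a)] at h1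
  rw [h1]
  congr 1
  refine Finset.sum_congr rfl fun b _ => ?_
  rw [Complex.norm_natCast]

/-- averaging over the subgroup -/
theorem hat_avg (H : Subgroup (ZMod p)ˣ) (a : ZMod p) :
    (Nat.card H : ℝ) * ‖hat (hs H) a‖ ^ 2 ≤
      (Nat.card H : ℝ) ^ 2 + ∑ b ∈ Finset.univ.erase (0 : ZMod p),
        (nn H b : ℝ) * ‖hat (hs H) (a * b)‖ := by
  classical
  have h1 : ∀ u ∈ hs H, ((‖hat (hs H) a‖ ^ 2 : ℝ) : ℂ) =
      ∑ b : ZMod p, (nn H b : ℂ) * ZMod.stdAddChar (a * b * u) := by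
    intro u hu
    rw [hat_sq]
    have hu0 := hs_ne_zero hu
    refine Finset.sum_bij' (fun b _ => u⁻¹ * b) (fun b _ => u * b) ?_ ?_ ?_ ?_ ?_
    · intro b _; exact Finset.mem_univ _
    · intro b _; exact Finset.mem_univ _
    · intro b _
      rw [← mul_assoc, mul_inv_cancel₀ hu0, one_mul]
    · intro b _
      rw [← mul_assoc, inv_mul_cancel₀ hu0, one_mul]
    · intro b _
      rw [nn_mul H (hs_inv hu)]
      congr 2
      field_simp
  have h2 : ((Nat.card H : ℝ) * ‖hat (hs H) a‖ ^ 2 : ℝ) =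
      ∑ u ∈ hs H, (‖hat (hs H) a‖ ^ 2 : ℝ) := by
    rw [Finset.sum_const, card_hs, nsmul_eq_mul]
  have h3 : (((Nat.card H : ℝ) * ‖hat (hs H) a‖ ^ 2 : ℝ) : ℂ) =
      ∑ b : ZMod p, (nn H b : ℂ) * hat (hs H) (a * b) := by
    rw [h2, Complex.ofReal_sum, Finset.sum_congr rfl h1, Finset.sum_comm]
    refine Finset.sum_congr rfl fun b _ => ?_
    unfold hat
    rw [Finset.mul_sum]
  have h4 : ((Nat.card H : ℝ) * ‖hat (hs H) a‖ ^ 2 : ℝ) =
      ‖∑ b : ZMod p, (nn H b : ℂ) * hat (hs H) (a * b)‖ := by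
    rw [← h3, Complex.norm_real, Real.norm_of_nonneg (by positivity)]
  rw [h4, ← Finset.add_sum_erase _ _ (Finset.mem_univ (0 : ZMod p))]
  refine (norm_add_le _ _).trans (add_le_add ?_ ?_)
  · have h5 : hat (hs H) (a * 0) = (Nat.card H : ℂ) := by
      unfold hat
      rw [← card_hs]
      simp
    have h6 : nn H 0 = Nat.card H := by
      unfold nn
      rw [← card_hs]
      congr 1
      refine Finset.filter_true_of_mem fun x hx => ?_
      rw [sub_zero]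
      exact hx
    rw [h5, h6, norm_mul, Complex.norm_natCast, pow_two]
  · refine (norm_sum_le _ _).trans (Finset.sum_le_sum fun b _ => ?_)
    rw [norm_mul, Complex.norm_natCast]

theorem nn_le (H : Subgroup (ZMod p)ˣ) (b : ZMod p) : nn H b ≤ Nat.card H := by
  classical
  unfold nn
  rw [← card_hs]
  exact Finset.card_filter_le _ _

/-- layer cake with weights -/
theorem layer (H : Subgroup (ZMod p)ˣ) (w : ZMod p → ℝ) :
    ∑ b ∈ Finset.univ.erase (0 : ZMod p), (nn H b : ℝ) * w b =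
      ∑ t ∈ Finset.Icc 1 (Nat.card H), ∑ b ∈ bt H t, w b := by
  classical
  have h1 : ∀ t ∈ Finset.Icc 1 (Nat.card H), ∑ b ∈ bt H t, w b =
      ∑ b ∈ Finset.univ.erase (0 : ZMod p), (if t ≤ nn H b then w b else 0) := by
    intro t _
    rw [← Finset.sum_filter]
    refine Finset.sum_congr ?_ fun _ _ => rfl
    ext b
    rw [mem_bt, Finset.mem_filter, Finset.mem_erase]
    exact ⟨fun h => ⟨⟨h.1, Finset.mem_univ _⟩, h.2⟩, fun h => ⟨h.1.1, h.2⟩⟩
  rw [Finset.sum_congr rfl h1, Finset.sum_comm]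
  refine Finset.sum_congr rfl fun b _ => ?_
  rw [← Finset.sum_filter, Finset.sum_const, nsmul_eq_mul]
  congr 1
  have h2 : (Finset.Icc 1 (Nat.card H)).filter (fun t => t ≤ nn H b) = Finset.Icc 1 (nn H b) := by
    ext t
    rw [Finset.mem_filter, Finset.mem_Icc, Finset.mem_Icc]
    have := nn_le H b
    omega
  rw [h2, Nat.card_Icc, Nat.add_sub_cancel]

theorem harm (h : ℕ) : ∑ t ∈ Finset.Icc 1 h, (1 : ℝ) / t ≤ 1 + Real.log h := by
  have h1 := harmonic_le_one_add_log h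
  refine le_trans (le_of_eq ?_) h1
  rw [harmonic_eq_sum_Icc]
  push_cast
  refine Finset.sum_congr rfl fun t _ => ?_
  rw [one_div]

/-- the energy -/
theorem energy (H : Subgroup (ZMod p)ˣ) (h16 : 16 ≤ Nat.card H)
    (hp3 : 16 * (Nat.card H) ^ 3 ≤ p ^ 2) {R : ℝ} (hR0 : 0 ≤ R)
    (hR : 32000 * (Nat.card H : ℝ) ^ 5 ≤ R ^ 2) :
    ∑ b : ZMod p, (nn H b : ℝ) ^ 2 ≤
      (Nat.card H : ℝ) ^ 2 + 2 * R * (1 + Real.log (Nat.card H)) := by
  classical
  have h0 : nn H 0 = Nat.card H := by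
    unfold nn
    rw [← card_hs]
    congr 1
    refine Finset.filter_true_of_mem fun x hx => ?_
    rw [sub_zero]
    exact hx
  rw [← Finset.add_sum_erase _ _ (Finset.mem_univ (0 : ZMod p)), h0]
  refine add_le_add le_rfl ?_
  -- bound a square by a sum
  have h1 : ∀ b ∈ Finset.univ.erase (0 : ZMod p), (nn H b : ℝ) ^ 2 ≤
      ∑ t ∈ Finset.Icc 1 (Nat.card H), (if t ≤ nn H b then 2 * (t : ℝ) else 0) := by
    intro b _
    rw [← Finset.sum_filter]
    have h2 : (Finset.Icc 1 (Nat.card H)).filter (fun t => t ≤ nn H b) = Finset.Icc 1 (nn H b) := by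
      ext t
      rw [Finset.mem_filter, Finset.mem_Icc, Finset.mem_Icc]
      have := nn_le H b
      omega
    rw [h2]
    have h3 : ∀ n : ℕ, (n : ℝ) ^ 2 ≤ ∑ t ∈ Finset.Icc 1 n, 2 * (t : ℝ) := by
      intro n
      induction n with
      | zero => simp
      | succ n ih =>
        rw [Finset.sum_Icc_succ_top (by omega)]
        push_cast
        nlinarith
    exact h3 _
  refine (Finset.sum_le_sum h1).trans ?_
  rw [Finset.sum_comm]
  have h4 : ∀ t ∈ Finset.Icc 1 (Nat.card H),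
      ∑ b ∈ Finset.univ.erase (0 : ZMod p), (if t ≤ nn H b then 2 * (t : ℝ) else 0) ≤
        2 * R * (1 / (t : ℝ)) := by
    intro t ht
    rw [Finset.mem_Icc] at ht
    have ht0 : (0 : ℝ) < t := by exact_mod_cast ht.1
    have h5 : ∑ b ∈ Finset.univ.erase (0 : ZMod p), (if t ≤ nn H b then 2 * (t : ℝ) else 0) =
        ((bt H t).card : ℝ) * (2 * t) := by
      rw [← Finset.sum_filter]
      have h6 : (Finset.univ.erase (0 : ZMod p)).filter (fun b => t ≤ nn H b) = bt H t := by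
        ext b
        rw [mem_bt, Finset.mem_filter, Finset.mem_erase]
        exact ⟨fun h => ⟨h.1.1, h.2⟩, fun h => ⟨⟨h.1, Finset.mem_univ _⟩, h.2⟩⟩
      rw [h6, Finset.sum_const, nsmul_eq_mul]
    rw [h5]
    have e1 : (t : ℝ) * (bt H t).card ≤ (Nat.card H : ℝ) ^ 2 := by exact_mod_cast bt_first H t
    have e2 : (t : ℝ) ^ 3 * (bt H t).card ≤ 32000 * (Nat.card H : ℝ) ^ 3 := by
      exact_mod_cast bt_third H h16 hp3 ht.1
    have e3 : ((t : ℝ) ^ 2 * (bt H t).card) ^ 2 ≤ R ^ 2 := by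
      calc ((t : ℝ) ^ 2 * (bt H t).card) ^ 2 =
            ((t : ℝ) * (bt H t).card) * ((t : ℝ) ^ 3 * (bt H t).card) := by ring
        _ ≤ (Nat.card H : ℝ) ^ 2 * (32000 * (Nat.card H : ℝ) ^ 3) :=
            mul_le_mul e1 e2 (by positivity) (by positivity)
        _ = 32000 * (Nat.card H : ℝ) ^ 5 := by ring
        _ ≤ R ^ 2 := hR
    have e4 : (t : ℝ) ^ 2 * (bt H t).card ≤ R :=
      (pow_le_pow_iff_left₀ (by positivity) hR0 (by norm_num)).1 e3
    have e5 : ((bt H t).card : ℝ) * (2 * t) = 2 * ((t : ℝ) ^ 2 * (bt H t).card) * (1 / t) := by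
      field_simp
    rw [e5]
    refine mul_le_mul_of_nonneg_right ?_ (by positivity)
    linarith
  refine (Finset.sum_le_sum h4).trans ?_
  rw [← Finset.mul_sum]
  exact mul_le_mul_of_nonneg_left (harm _) (by positivity)

/-- the pointwise bound -/
theorem hat_bound' (H : Subgroup (ZMod p)ˣ) (h16 : 16 ≤ Nat.card H)
    (hp3 : 16 * (Nat.card H) ^ 3 ≤ p ^ 2) {V : ℝ} (hV0 : 0 ≤ V)
    (hV : 32000 * (Nat.card H : ℝ) ^ 13 * (p * ∑ b : ZMod p, (nn H b : ℝ) ^ 2) ^ 2 ≤ V ^ 8)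
    {a : ZMod p} (ha : a ≠ 0) :
    (Nat.card H : ℝ) * ‖hat (hs H) a‖ ^ 2 ≤
      (Nat.card H : ℝ) ^ 2 + V * (1 + Real.log (Nat.card H)) := by
  classical
  refine (hat_avg H a).trans (add_le_add le_rfl ?_)
  rw [layer H (fun b => ‖hat (hs H) (a * b)‖)]
  have h4 : ∀ t ∈ Finset.Icc 1 (Nat.card H), ∑ b ∈ bt H t, ‖hat (hs H) (a * b)‖ ≤
      V * (1 / (t : ℝ)) := by
    intro t ht
    rw [Finset.mem_Icc] at ht
    have ht0 : (0 : ℝ) < t := by exact_mod_cast ht.1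
    obtain ⟨W, hW⟩ : ∃ W : ℝ, W = ∑ b ∈ bt H t, ‖hat (hs H) (a * b)‖ := ⟨_, rfl⟩
    have hW0 : 0 ≤ W := by
      rw [hW]
      exact Finset.sum_nonneg fun b _ => norm_nonneg _
    rw [← hW]
    have h5 : ∑ b ∈ bt H t, ‖hat (hs H) (a * b)‖ ^ 4 ≤
        p * ∑ b : ZMod p, (nn H b : ℝ) ^ 2 := by
      rw [← fourth]
      refine (Finset.sum_le_sum_of_subset_of_nonneg (Finset.subset_univ _)
        (fun _ _ _ => by positivity)).trans ?_
      refine le_of_eq ?_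
      refine Finset.sum_bij' (fun b _ => a * b) (fun b _ => a⁻¹ * b) ?_ ?_ ?_ ?_ ?_
      · intro b _; exact Finset.mem_univ _
      · intro b _; exact Finset.mem_univ _
      · intro b _
        rw [← mul_assoc, inv_mul_cancel₀ ha, one_mul]
      · intro b _
        rw [← mul_assoc, mul_inv_cancel₀ ha, one_mul]
      · intro b _
        rfl
    have h6 : W ^ 4 ≤ ((bt H t).card : ℝ) ^ 3 * (p * ∑ b : ZMod p, (nn H b : ℝ) ^ 2) := by
      have e1 : W ^ 2 ≤ ((bt H t).card : ℝ) * ∑ b ∈ bt H t, ‖hat (hs H) (a * b)‖ ^ 2 := by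
        rw [hW]
        exact sq_sum_le_card_mul_sum_sq
      have e2 : (∑ b ∈ bt H t, ‖hat (hs H) (a * b)‖ ^ 2) ^ 2 ≤
          ((bt H t).card : ℝ) * ∑ b ∈ bt H t, (‖hat (hs H) (a * b)‖ ^ 2) ^ 2 :=
        sq_sum_le_card_mul_sum_sq
      have e3 : ∑ b ∈ bt H t, (‖hat (hs H) (a * b)‖ ^ 2) ^ 2 =
          ∑ b ∈ bt H t, ‖hat (hs H) (a * b)‖ ^ 4 := by
        refine Finset.sum_congr rfl fun b _ => ?_
        rw [← pow_mul]
      rw [e3] at e2
      calc W ^ 4 = (W ^ 2) ^ 2 := by rw [← pow_mul]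
        _ ≤ (((bt H t).card : ℝ) * ∑ b ∈ bt H t, ‖hat (hs H) (a * b)‖ ^ 2) ^ 2 :=
            pow_le_pow_left₀ (by positivity) e1 2
        _ = ((bt H t).card : ℝ) ^ 2 * (∑ b ∈ bt H t, ‖hat (hs H) (a * b)‖ ^ 2) ^ 2 := mul_pow _ _ _
        _ ≤ ((bt H t).card : ℝ) ^ 2 * (((bt H t).card : ℝ) *
            ∑ b ∈ bt H t, ‖hat (hs H) (a * b)‖ ^ 4) :=
            mul_le_mul_of_nonneg_left e2 (by positivity)
        _ = ((bt H t).card : ℝ) ^ 3 * ∑ b ∈ bt H t, ‖hat (hs H) (a * b)‖ ^ 4 := by ring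
        _ ≤ _ := mul_le_mul_of_nonneg_left h5 (by positivity)
    have e1 : (t : ℝ) * (bt H t).card ≤ (Nat.card H : ℝ) ^ 2 := by exact_mod_cast bt_first H t
    have e2 : (t : ℝ) ^ 3 * (bt H t).card ≤ 32000 * (Nat.card H : ℝ) ^ 3 := by
      exact_mod_cast bt_third H h16 hp3 ht.1
    have e3 : (t : ℝ) ^ 8 * ((bt H t).card : ℝ) ^ 6 ≤ 32000 * (Nat.card H : ℝ) ^ 13 := by
      calc (t : ℝ) ^ 8 * ((bt H t).card : ℝ) ^ 6 =
            ((t : ℝ) * (bt H t).card) ^ 5 * ((t : ℝ) ^ 3 * (bt H t).card) := by ring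
        _ ≤ ((Nat.card H : ℝ) ^ 2) ^ 5 * (32000 * (Nat.card H : ℝ) ^ 3) :=
            mul_le_mul (pow_le_pow_left₀ (by positivity) e1 5) e2 (by positivity) (by positivity)
        _ = 32000 * (Nat.card H : ℝ) ^ 13 := by ring
    have h7 : ((t : ℝ) * W) ^ 8 ≤ V ^ 8 := by
      calc ((t : ℝ) * W) ^ 8 = (t : ℝ) ^ 8 * (W ^ 4) ^ 2 := by ring
        _ ≤ (t : ℝ) ^ 8 *
            (((bt H t).card : ℝ) ^ 3 * (p * ∑ b : ZMod p, (nn H b : ℝ) ^ 2)) ^ 2 :=
            mul_le_mul_of_nonneg_left (pow_le_pow_left₀ (by positivity) h6 2) (by positivity)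
        _ = ((t : ℝ) ^ 8 * ((bt H t).card : ℝ) ^ 6) *
            (p * ∑ b : ZMod p, (nn H b : ℝ) ^ 2) ^ 2 := by ring
        _ ≤ (32000 * (Nat.card H : ℝ) ^ 13) * (p * ∑ b : ZMod p, (nn H b : ℝ) ^ 2) ^ 2 :=
            mul_le_mul_of_nonneg_right e3 (by positivity)
        _ ≤ V ^ 8 := hV
    have h8 : (t : ℝ) * W ≤ V := (pow_le_pow_iff_left₀ (by positivity) hV0 (by norm_num)).1 h7
    rw [mul_one_div, le_div_iff₀ ht0]
    linarith
  refine (Finset.sum_le_sum h4).trans ?_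
  rw [← Finset.mul_sum]
  exact mul_le_mul_of_nonneg_left (harm _) hV0

end

end Pool.Agent.Helper68.CO2
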