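import Mathlib
import Pool.Agent.Helper68.CO2.Step4
import Pool.Agent.Helper68.CO2.Eps

/-!
MP_418075_nt.  Small representatives of the cosets of a subgroup, improved.
-/

set_option autoImplicit false

namespace Pool.Agent.Helper68.CO2

open Finset

section

variable {p : ℕ} [hp : Fact p.Prime]

/-- the number of pairs of a set `I` with sum in `S` -/
theorem pair_count' (S I : Finset (ZMod p)) {Bd : ℝ} (hBd : ∀ a : ZMod p, a ≠ 0 → ‖hat S a‖ ≤ Bd) :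
    |(p : ℝ) * (((I ×ˢ I).filter (fun c => c.1 + c.2 ∈ S)).card : ℝ) -
      (S.card : ℝ) * (I.card : ℝ) ^ 2| ≤ Bd * (p * I.card) := by
  classical
  have hBd0 : 0 ≤ Bd := (norm_nonneg _).trans (hBd 1 one_ne_zero)
  have hN : (((p : ℝ) * (((I ×ˢ I).filter (fun c => c.1 + c.2 ∈ S)).card : ℝ) : ℝ) : ℂ) =
      ∑ a : ZMod p, (hat I a) ^ 2 * (starRingEnd ℂ) (hat S a) := by
    have h1 : ∀ a : ZMod p, (hat I a) ^ 2 * (starRingEnd ℂ) (hat S a) =
        ∑ c ∈ I ×ˢ I, ∑ s ∈ S, (ZMod.stdAddChar (a * (c.1 + c.2 - s)) : ℂ) := by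
      intro a
      unfold hat
      rw [pow_two, Finset.sum_mul_sum, ← Finset.sum_product', map_sum, Finset.sum_mul_sum]
      refine Finset.sum_congr rfl fun c _ => Finset.sum_congr rfl fun s _ => ?_
      rw [← AddChar.map_neg_eq_conj, ← AddChar.map_add_eq_mul, ← AddChar.map_add_eq_mul]
      congr 1
      ring
    simp only [h1]
    rw [Finset.sum_comm]
    have h2 : ∀ c ∈ I ×ˢ I, ∑ a : ZMod p, ∑ s ∈ S, (ZMod.stdAddChar (a * (c.1 + c.2 - s)) : ℂ) =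
        if c.1 + c.2 ∈ S then (p : ℂ) else 0 := by
      intro c _
      rw [Finset.sum_comm]
      have h4 : ∀ s ∈ S, ∑ a : ZMod p, (ZMod.stdAddChar (a * (c.1 + c.2 - s)) : ℂ) =
          if c.1 + c.2 = s then (p : ℂ) else 0 := by
        intro s _
        rw [orth]
        by_cases h : c.1 + c.2 = s
        · rw [if_pos h, if_pos (sub_eq_zero.2 h)]
        · rw [if_neg h, if_neg (sub_ne_zero.2 h)]
      rw [Finset.sum_congr rfl h4, Finset.sum_ite_eq]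
    rw [Finset.sum_congr rfl h2, ← Finset.sum_filter, Finset.sum_const, nsmul_eq_mul]
    push_cast
    ring
  have h0 : hat I (0 : ZMod p) = I.card := by
    unfold hat
    simp
  have h0' : hat S (0 : ZMod p) = S.card := by
    unfold hat
    simp
  have hsplit : ∑ a : ZMod p, (hat I a) ^ 2 * (starRingEnd ℂ) (hat S a) =
      (I.card : ℂ) ^ 2 * S.card +
        ∑ a ∈ Finset.univ.erase (0 : ZMod p), (hat I a) ^ 2 * (starRingEnd ℂ) (hat S a) := by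
    rw [← Finset.add_sum_erase _ _ (Finset.mem_univ (0 : ZMod p)), h0, h0', map_natCast]
  have hdiff : (((p : ℝ) * (((I ×ˢ I).filter (fun c => c.1 + c.2 ∈ S)).card : ℝ) -
      (S.card : ℝ) * (I.card : ℝ) ^ 2 : ℝ) : ℂ) =
        ∑ a ∈ Finset.univ.erase (0 : ZMod p), (hat I a) ^ 2 * (starRingEnd ℂ) (hat S a) := by
    rw [Complex.ofReal_sub, hN, hsplit]
    push_cast
    ring
  have h5 : |(p : ℝ) * (((I ×ˢ I).filter (fun c => c.1 + c.2 ∈ S)).card : ℝ) -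
      (S.card : ℝ) * (I.card : ℝ) ^ 2| =
      ‖∑ a ∈ Finset.univ.erase (0 : ZMod p), (hat I a) ^ 2 * (starRingEnd ℂ) (hat S a)‖ := by
    rw [← hdiff, Complex.norm_real, Real.norm_eq_abs]
  rw [h5]
  calc ‖∑ a ∈ Finset.univ.erase (0 : ZMod p), (hat I a) ^ 2 * (starRingEnd ℂ) (hat S a)‖
      ≤ ∑ a ∈ Finset.univ.erase (0 : ZMod p), ‖(hat I a) ^ 2 * (starRingEnd ℂ) (hat S a)‖ :=
        norm_sum_le _ _
    _ ≤ ∑ a ∈ Finset.univ.erase (0 : ZMod p), Bd * ‖hat I a‖ ^ 2 := by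
        refine Finset.sum_le_sum fun a ha => ?_
        rw [Finset.mem_erase] at ha
        rw [norm_mul, norm_pow, RCLike.norm_conj, mul_comm]
        exact mul_le_mul_of_nonneg_right (hBd a ha.1) (by positivity)
    _ = Bd * ∑ a ∈ Finset.univ.erase (0 : ZMod p), ‖hat I a‖ ^ 2 := by
        rw [Finset.mul_sum]
    _ ≤ Bd * ∑ a : ZMod p, ‖hat I a‖ ^ 2 := by
        refine mul_le_mul_of_nonneg_left ?_ hBd0
        exact Finset.sum_le_sum_of_subset_of_nonneg (Finset.subset_univ _)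
          (fun _ _ _ => by positivity)
    _ = Bd * (p * I.card) := by rw [parseval]

/-- the exponential sum over a coset -/
theorem hat_coset (H : Subgroup (ZMod p)ˣ) (u : (ZMod p)ˣ) {S : Finset (ZMod p)}
    (hmem : ∀ x, x ∈ S ↔ ∃ h ∈ H, ((h * u : (ZMod p)ˣ) : ZMod p) = x) (a : ZMod p) :
    hat S a = hat (hs H) (a * (u : ZMod p)) := by
  unfold hat
  refine Finset.sum_bij' (fun s _ => s * ((u⁻¹ : (ZMod p)ˣ) : ZMod p))
    (fun x _ => x * (u : ZMod p)) ?_ ?_ ?_ ?_ ?_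
  · intro s hs'
    obtain ⟨g, hg, rfl⟩ := (hmem s).1 hs'
    refine mem_hs.2 ⟨g, hg, ?_⟩
    rw [← Units.val_mul, mul_inv_cancel_right]
  · intro x hx
    obtain ⟨g, hg, rfl⟩ := mem_hs.1 hx
    exact (hmem _).2 ⟨g, hg, Units.val_mul _ _⟩
  · intro s _
    rw [mul_assoc, ← Units.val_mul, inv_mul_cancel, Units.val_one, mul_one]
  · intro x _
    rw [mul_assoc, ← Units.val_mul, mul_inv_cancel, Units.val_one, mul_one]
  · intro s _
    congr 1
    have h1 : (u : ZMod p) * ((u⁻¹ : (ZMod p)ˣ) : ZMod p) = 1 := by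
      rw [← Units.val_mul, mul_inv_cancel, Units.val_one]
    calc a * s = a * s * ((u : ZMod p) * ((u⁻¹ : (ZMod p)ˣ) : ZMod p)) := by rw [h1, mul_one]
      _ = a * (u : ZMod p) * (s * ((u⁻¹ : (ZMod p)ˣ) : ZMod p)) := by ring

theorem small_rep' (H : Subgroup (ZMod p)ˣ) {M : ℕ} (hM : 0 < M) (h2M : 2 * M < p) {Bd : ℝ}
    (hBd : ∀ a : ZMod p, a ≠ 0 → ‖hat (hs H) a‖ ≤ Bd) (hh : p * Bd < Nat.card H * M)
    (u : (ZMod p)ˣ) : ∃ g ∈ H, ((g * u : (ZMod p)ˣ) : ZMod p).val ≤ 2 * M := by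
  classical
  obtain ⟨S, hcard, hmem⟩ := cosetSet_exists H u
  obtain ⟨I, hI⟩ : ∃ I : Finset (ZMod p), I = (Finset.Icc 1 M).image (fun i : ℕ => (i : ZMod p)) :=
    ⟨_, rfl⟩
  have hIc : I.card = M := by
    rw [hI]
    exact card_interval (by omega)
  by_cases hE : (((I ×ˢ I).filter (fun c => c.1 + c.2 ∈ S)).card) = 0
  · exfalso
    have h1 := pair_count' S I (Bd := Bd) (fun a ha => by
      rw [hat_coset H u hmem a]
      exact hBd _ (mul_ne_zero ha u.ne_zero))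
    rw [hE, hcard, hIc, Nat.cast_zero, mul_zero, zero_sub, abs_neg] at h1
    have h2 : (Nat.card H : ℝ) * (M : ℝ) ^ 2 ≤ Bd * (p * M) := (le_abs_self _).trans h1
    have hM' : (0 : ℝ) < M := by exact_mod_cast hM
    have h4 : ((Nat.card H : ℝ) * M) * M ≤ (p * Bd) * M := by
      calc ((Nat.card H : ℝ) * M) * M = (Nat.card H : ℝ) * (M : ℝ) ^ 2 := by ring
        _ ≤ Bd * (p * M) := h2
        _ = (p * Bd) * M := by ring
    have h3 := le_of_mul_le_mul_right h4 hM'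
    linarith
  · obtain ⟨c, hc⟩ := Finset.card_pos.1 (Nat.pos_of_ne_zero hE)
    rw [Finset.mem_filter, Finset.mem_product, hI, Finset.mem_image, Finset.mem_image] at hc
    obtain ⟨⟨⟨i, hi, hi'⟩, ⟨j, hj, hj'⟩⟩, hcS⟩ := hc
    rw [Finset.mem_Icc] at hi hj
    obtain ⟨g, hg, hgu⟩ := (hmem _).1 hcS
    refine ⟨g, hg, ?_⟩
    rw [hgu, ← hi', ← hj', ← Nat.cast_add, ZMod.val_natCast_of_lt (by omega)]
    omega

/-- all small numbers are in the stabilizer when its exponential sums are small -/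
theorem good_of_hat [hn : Fact (1 < p)] {Y : ℕ} (hY : 1 ≤ Y) (hpY : 4 * Y + 2 ≤ p) {Bd : ℝ}
    (hBd : ∀ a : ZMod p, a ≠ 0 → ‖hat (hs (HH p lam cm_lam)) a‖ ≤ Bd)
    (hh : 4 * Y * Bd < Nat.card (HH p lam cm_lam)) :
    ∀ d, 0 < d → d ≤ Y → U p d ∈ HH p lam cm_lam := by
  intro d hd hdY
  have hBd0 : 0 ≤ Bd := (norm_nonneg _).trans (hBd 1 one_ne_zero)
  obtain ⟨M, hMd⟩ : ∃ M, M = (p - 1) / (2 * Y) := ⟨_, rfl⟩
  have hM1 : M * (2 * Y) ≤ p - 1 := by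
    rw [hMd]
    exact Nat.div_mul_le_self _ _
  have hM2 : p - 1 < M * (2 * Y) + 2 * Y := by
    rw [hMd]
    exact Nat.lt_div_mul_add (by omega)
  have hM0 : 0 < M := by
    rw [hMd]
    exact Nat.div_pos (by omega) (by omega)
  have h2M : 2 * M < p := by
    have h1 : 2 * M ≤ M * (2 * Y) := by
      calc 2 * M = M * 2 := mul_comm _ _
        _ ≤ M * (2 * Y) := Nat.mul_le_mul_left _ (by omega)
    omega
  have hpM : p ≤ 4 * Y * M := by
    have h1 : 4 * Y * M = 2 * (M * (2 * Y)) := by ring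
    omega
  have hh2 : (p : ℝ) * Bd < Nat.card (HH p lam cm_lam) * M := by
    have hM' : (0 : ℝ) < M := by exact_mod_cast hM0
    have hpM' : (p : ℝ) ≤ 4 * Y * M := by exact_mod_cast hpM
    calc (p : ℝ) * Bd ≤ (4 * Y * M) * Bd := mul_le_mul_of_nonneg_right hpM' hBd0
      _ = (4 * Y * Bd) * M := by ring
      _ < Nat.card (HH p lam cm_lam) * M := mul_lt_mul_of_pos_right hh hM'
  have hdM : d * (2 * M) < p := by
    have h1 : d * (2 * M) ≤ Y * (2 * M) := Nat.mul_le_mul_right _ hdY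
    have h3 : Y * (2 * M) = M * (2 * Y) := by ring
    omega
  have hdp : d < p := lt_of_le_of_lt (Nat.le_mul_of_pos_right d (by omega)) hdM
  have hcop : Nat.Coprime d p := (Nat.coprime_of_lt_prime hd.ne' hdp hp.out).symm
  rw [mem_HH]
  intro u
  rw [FF_U lam hcop hdp]
  obtain ⟨g, hg, hgu⟩ := small_rep' (HH p lam cm_lam) hM0 h2M hBd hh2 u
  exact transport cm_lam hg
    (FF_small cm_lam hd hcop _ (lt_of_le_of_lt (Nat.mul_le_mul_left d hgu) hdM))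

/-- the range of good numbers -/
theorem good_range [hn : Fact (1 < p)] {Y : ℕ} (hY : 1 ≤ Y) (hpY : 4 * Y + 2 ≤ p)
    (h16 : 16 ≤ Nat.card (HH p lam cm_lam)) (hp3 : 16 * (Nat.card (HH p lam cm_lam)) ^ 3 ≤ p ^ 2)
    (hYh : 32 * Y ^ 2 < Nat.card (HH p lam cm_lam))
    (hmain : (2 : ℝ) ^ 72 * (Y : ℝ) ^ 16 * (1 + Real.log (Nat.card (HH p lam cm_lam))) ^ 10 *
      (p : ℝ) ^ 2 ≤ (Nat.card (HH p lam cm_lam) : ℝ) ^ 6) :
    ∀ d, 0 < d → d ≤ Y → U p d ∈ HH p lam cm_lam := by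
  obtain ⟨h, hhd⟩ : ∃ h : ℝ, h = (Nat.card (HH p lam cm_lam) : ℝ) := ⟨_, rfl⟩
  obtain ⟨L, hL⟩ : ∃ L : ℝ, L = 1 + Real.log h := ⟨_, rfl⟩
  rw [← hhd, ← hL] at hmain
  have hh16 : (16 : ℝ) ≤ h := by
    rw [hhd]
    exact_mod_cast h16
  have hh0 : 0 < h := by linarith
  have hL1 : 1 ≤ L := by
    rw [hL]
    have : 0 ≤ Real.log h := Real.log_nonneg (by linarith)
    linarith
  have hL0 : 0 < L := by linarith
  have hs1 : 1 ≤ Real.sqrt h := by
    rw [Real.one_le_sqrt]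
    linarith
  have hss : Real.sqrt h ^ 2 = h := Real.sq_sqrt hh0.le
  have hp0 : (0 : ℝ) < p := by exact_mod_cast hp.out.pos
  -- the energy
  obtain ⟨E, hE⟩ : ∃ E : ℝ, E = ∑ b : ZMod p, (nn (HH p lam cm_lam) b : ℝ) ^ 2 := ⟨_, rfl⟩
  have hE0 : 0 ≤ E := by
    rw [hE]
    exact Finset.sum_nonneg fun b _ => by positivity
  have hR : 32000 * h ^ 5 ≤ (179 * h ^ 2 * Real.sqrt h) ^ 2 := by
    have h1 : (179 * h ^ 2 * Real.sqrt h) ^ 2 = 32041 * h ^ 5 := by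
      calc (179 * h ^ 2 * Real.sqrt h) ^ 2 = 32041 * h ^ 4 * Real.sqrt h ^ 2 := by ring
        _ = 32041 * h ^ 5 := by rw [hss]; ring
    rw [h1]
    have : 0 ≤ h ^ 5 := by positivity
    linarith
  have hEb : E ≤ 359 * h ^ 2 * Real.sqrt h * L := by
    have h1 := energy (HH p lam cm_lam) h16 hp3 (R := 179 * h ^ 2 * Real.sqrt h) (by positivity)
      (by rw [← hhd]; exact hR)
    rw [← hE, ← hhd, ← hL] at h1
    have h2 : h ^ 2 ≤ h ^ 2 * Real.sqrt h * L := by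
      have h3 : (1 : ℝ) ≤ Real.sqrt h * L := one_le_mul_of_one_le_of_one_le hs1 hL1
      calc h ^ 2 = h ^ 2 * 1 := (mul_one _).symm
        _ ≤ h ^ 2 * (Real.sqrt h * L) := mul_le_mul_of_nonneg_left h3 (by positivity)
        _ = h ^ 2 * Real.sqrt h * L := by ring
    linarith
  -- the pointwise bound
  obtain ⟨V, hV⟩ : ∃ V : ℝ, V = ((2 : ℝ) ^ 32 * h ^ 18 * (p : ℝ) ^ 2 * L ^ 2) ^ (1 / 8 : ℝ) :=
    ⟨_, rfl⟩
  have hV0 : 0 ≤ V := by
    rw [hV]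
    positivity
  have hV8 : V ^ 8 = (2 : ℝ) ^ 32 * h ^ 18 * (p : ℝ) ^ 2 * L ^ 2 := by
    rw [hV, ← Real.rpow_natCast, ← Real.rpow_mul (by positivity)]
    norm_num
  have hVE : 32000 * h ^ 13 * (p * E) ^ 2 ≤ V ^ 8 := by
    rw [hV8]
    have h1 : E ^ 2 ≤ (359 * h ^ 2 * Real.sqrt h * L) ^ 2 := pow_le_pow_left₀ hE0 hEb 2
    have h2 : (359 * h ^ 2 * Real.sqrt h * L) ^ 2 = 128881 * h ^ 5 * L ^ 2 := by
      calc (359 * h ^ 2 * Real.sqrt h * L) ^ 2 = 128881 * h ^ 4 * Real.sqrt h ^ 2 * L ^ 2 := by ring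
        _ = 128881 * h ^ 5 * L ^ 2 := by rw [hss]; ring
    rw [h2] at h1
    calc 32000 * h ^ 13 * (p * E) ^ 2 = (32000 * h ^ 13 * (p : ℝ) ^ 2) * E ^ 2 := by ring
      _ ≤ (32000 * h ^ 13 * (p : ℝ) ^ 2) * (128881 * h ^ 5 * L ^ 2) :=
          mul_le_mul_of_nonneg_left h1 (by positivity)
      _ = (32000 * 128881) * (h ^ 18 * (p : ℝ) ^ 2 * L ^ 2) := by ring
      _ ≤ (2 : ℝ) ^ 32 * (h ^ 18 * (p : ℝ) ^ 2 * L ^ 2) :=
          mul_le_mul_of_nonneg_right (by norm_num) (by positivity)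
      _ = (2 : ℝ) ^ 32 * h ^ 18 * (p : ℝ) ^ 2 * L ^ 2 := by ring
  have hpt : ∀ a : ZMod p, a ≠ 0 → h * ‖hat (hs (HH p lam cm_lam)) a‖ ^ 2 ≤ h ^ 2 + V * L := by
    intro a ha
    have h1 := hat_bound' (HH p lam cm_lam) h16 hp3 hV0 (by rw [← hhd, ← hE]; exact hVE) ha
    rwa [← hhd, ← hL] at h1
  -- the comparison
  have hY1 : (1 : ℝ) ≤ Y := by exact_mod_cast hY
  have hVL : 32 * (Y : ℝ) ^ 2 * V * L ≤ h ^ 3 := by
    have h1 : (32 * (Y : ℝ) ^ 2 * V * L) ^ 8 ≤ (h ^ 3) ^ 8 := by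
      calc (32 * (Y : ℝ) ^ 2 * V * L) ^ 8 = (2 : ℝ) ^ 40 * (Y : ℝ) ^ 16 * V ^ 8 * L ^ 8 := by ring
        _ = ((2 : ℝ) ^ 72 * (Y : ℝ) ^ 16 * L ^ 10 * (p : ℝ) ^ 2) * h ^ 18 := by rw [hV8]; ring
        _ ≤ h ^ 6 * h ^ 18 := mul_le_mul_of_nonneg_right hmain (by positivity)
        _ = (h ^ 3) ^ 8 := by ring
    exact (pow_le_pow_iff_left₀ (by positivity) (by positivity) (by norm_num)).1 h1
  have hYh' : 32 * (Y : ℝ) ^ 2 < h := by
    rw [hhd]
    exact_mod_cast hYh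
  have hkey : 16 * (Y : ℝ) ^ 2 * (h + V * L / h) < h ^ 2 := by
    have h1 : 16 * (Y : ℝ) ^ 2 * (V * L / h) ≤ h ^ 2 / 2 := by
      rw [mul_div_assoc', div_le_iff₀ hh0]
      nlinarith [hVL]
    have h2 : 16 * (Y : ℝ) ^ 2 * h < h ^ 2 / 2 := by
      nlinarith [mul_lt_mul_of_pos_right hYh' hh0]
    nlinarith [h1, h2]
  refine good_of_hat hY hpY (Bd := Real.sqrt (h + V * L / h)) ?_ ?_
  · intro a ha
    apply Real.le_sqrt_of_sq_le
    have h1 := hpt a ha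
    have h2 : h + V * L / h = (h ^ 2 + V * L) / h := by
      field_simp
    rw [h2, le_div_iff₀ hh0]
    linarith
  · rw [← hhd]
    have h1 : (4 * (Y : ℝ) * Real.sqrt (h + V * L / h)) ^ 2 < h ^ 2 := by
      calc (4 * (Y : ℝ) * Real.sqrt (h + V * L / h)) ^ 2 =
            16 * (Y : ℝ) ^ 2 * (Real.sqrt (h + V * L / h)) ^ 2 := by ring
        _ = 16 * (Y : ℝ) ^ 2 * (h + V * L / h) := by rw [Real.sq_sqrt (by positivity)]
        _ < h ^ 2 := hkey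
    exact lt_of_pow_lt_pow_left₀ 2 hh0.le h1

end

end Pool.Agent.Helper68.CO2
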