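import Mathlib
import Pool.Agent.Helper68.CO2.Step5

/-!
MP_418075_nt.  At most `C p ^ (1 / 3 + ε)` columns modulo a prime `p` miss one parity.
-/

set_option autoImplicit false

namespace Pool.Agent.Helper68.CO2

open ArithmeticFunction

theorem six (a b c d e f : ℕ) : a ≤ a + b + c + d + e + f ∧ b ≤ a + b + c + d + e + f ∧
    c ≤ a + b + c + d + e + f ∧ d ≤ a + b + c + d + e + f ∧ e ≤ a + b + c + d + e + f ∧
    f ≤ a + b + c + d + e + f := by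
  omega

/-- the order of the stabilizer -/
theorem stab_third (K : ℕ) (hK : 2 ≤ K) : ∃ C : ℕ, ∀ p : ℕ, p.Prime → 7 ≤ p →
    ∀ _hn : Fact (1 < p), (Nat.card (HH p lam cm_lam)) ^ (6 * K) ≤ C * p ^ (2 * K + 26) := by
  obtain ⟨T, hT⟩ : ∃ T : ℕ, T = 2 ^ 289 := ⟨_, rfl⟩
  have hT7 : 7 ≤ T := by
    rw [hT]
    have h3 : 2 ^ 3 ≤ 2 ^ 289 := Nat.pow_le_pow_right (by norm_num) (by norm_num)
    omega
  obtain ⟨C1, hC1⟩ : ∃ C1 : ℕ, C1 = K.factorial ^ 11 * T ^ 17 * 2 ^ (10 * K) := ⟨_, rfl⟩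
  obtain ⟨B, hB⟩ := pi_growth C1 K
  obtain ⟨C2, hC2⟩ := stab_pow_bound 12 (by norm_num)
  obtain ⟨C5, hC5⟩ : ∃ C5 : ℕ, C5 = 2 ^ 72 * (2 * K + 1) ^ 10 := ⟨_, rfl⟩
  refine ⟨16 ^ (6 * K) + (16 ^ 8 * C2) ^ (6 * K) + 32 ^ (6 * K) + C5 ^ K + 18 ^ (6 * K) +
    ((2 * B) ^ K) ^ (6 * K), fun p hp h7 hn => ?_⟩
  obtain ⟨Ct, hCt⟩ : ∃ Ct, Ct = 16 ^ (6 * K) + (16 ^ 8 * C2) ^ (6 * K) + 32 ^ (6 * K) + C5 ^ K +
    18 ^ (6 * K) + ((2 * B) ^ K) ^ (6 * K) := ⟨_, rfl⟩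
  obtain ⟨q1, q2, q3, q4, q5, q6⟩ := six (16 ^ (6 * K)) ((16 ^ 8 * C2) ^ (6 * K)) (32 ^ (6 * K))
    (C5 ^ K) (18 ^ (6 * K)) (((2 * B) ^ K) ^ (6 * K))
  rw [← hCt] at q1 q2 q3 q4 q5 q6 ⊢
  have hpf : Fact p.Prime := ⟨hp⟩
  have hp0 : 0 < p := hp.pos
  obtain ⟨h, hhdef⟩ : ∃ h, h = Nat.card (HH p lam cm_lam) := ⟨_, rfl⟩
  have h2 : 2 * h < p := by
    rw [hhdef]
    exact card_stab hp h7
  have h3 : 1 ≤ h := by
    rw [hhdef]
    exact Nat.card_pos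
  have hgoodM : ∀ M d : ℕ, 0 < M → 2 * M < p → p ^ 3 < h ^ 2 * M ^ 2 → 0 < d → d * (2 * M) < p →
      U p d ∈ HH p lam cm_lam := by
    intro M d hM h2M hh hd hdM
    rw [hhdef] at hh
    exact good_of_card hM h2M hh hd hdM
  have h22 := numerics hT h7 h3 h2 (fun d => U p d ∈ HH p lam cm_lam) hgoodM
    (fun M Y e r hY hg h2M hMp hr1 hr2 h9 he heY =>
      contra_level hY hg (by rw [← hhdef]; exact h2) h2M hMp hr1 hr2 h9 he heY)
  have h11 : h ^ 11 ≤ T ^ 17 * p ^ 10 := by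
    have h5 : (h ^ 11) ^ 2 ≤ (T ^ 17 * p ^ 10) ^ 2 := by
      rw [mul_pow, ← pow_mul, ← pow_mul, ← pow_mul]
      refine h22.trans (Nat.mul_le_mul_right _ (Nat.pow_le_pow_right (by omega) (by norm_num)))
    exact (Nat.pow_le_pow_iff_left (by norm_num)).1 h5
  rw [← hhdef]
  -- bounded cases
  have hbd : ∀ D : ℕ, h ≤ D → D ^ (6 * K) ≤ Ct → h ^ (6 * K) ≤ Ct * p ^ (2 * K + 26) := by
    intro D h1 h4
    calc h ^ (6 * K) ≤ D ^ (6 * K) := Nat.pow_le_pow_left h1 _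
      _ ≤ Ct := h4
      _ ≤ Ct * p ^ (2 * K + 26) := Nat.le_mul_of_pos_right _ (Nat.pow_pos hp0)
  rcases Nat.lt_or_ge h 16 with ha | ha
  · exact hbd 16 ha.le q1
  rcases Nat.lt_or_ge (p ^ 2) (16 ^ 8 * C2) with hb | hb
  · refine hbd (16 ^ 8 * C2) ?_ q2
    have h4 : p ≤ p ^ 2 := Nat.le_self_pow (by norm_num) p
    omega
  have hp3 : 16 * h ^ 3 ≤ p ^ 2 := by
    have h4 := hC2 p hp h7 hn
    rw [← hhdef] at h4
    have h5 : (16 * h ^ 3) ^ 8 ≤ (p ^ 2) ^ 8 := by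
      calc (16 * h ^ 3) ^ 8 = 16 ^ 8 * h ^ (2 * 12) := by ring
        _ ≤ 16 ^ 8 * (C2 * p ^ (12 + 2)) := Nat.mul_le_mul_left _ h4
        _ = (16 ^ 8 * C2) * p ^ 14 := by ring
        _ ≤ p ^ 2 * p ^ 14 := Nat.mul_le_mul_right _ hb
        _ = (p ^ 2) ^ 8 := by ring
    exact (Nat.pow_le_pow_iff_left (by norm_num)).1 h5
  -- the integer part of the `K`-th root
  have hexy : ∃ y, p ≤ (y + 1) ^ K := by
    refine ⟨p, ?_⟩
    exact (Nat.le_succ p).trans (Nat.le_self_pow (by omega) (p + 1))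
  obtain ⟨y, hy1, hymin⟩ : ∃ y, p ≤ (y + 1) ^ K ∧ ∀ z < y, (z + 1) ^ K < p := by
    classical
    refine ⟨Nat.find hexy, Nat.find_spec hexy, fun z hz => ?_⟩
    exact Nat.not_le.1 (Nat.find_min hexy hz)
  have hy0 : 1 ≤ y := by
    rcases Nat.eq_zero_or_pos y with h0 | h0
    · rw [h0, zero_add, one_pow] at hy1
      omega
    · exact h0
  have hyK : y ^ K < p := by
    have := hymin (y - 1) (by omega)
    rwa [Nat.sub_add_cancel hy0] at this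
  have hp2y : p ≤ (2 * y) ^ K := hy1.trans (Nat.pow_le_pow_left (by omega) K)
  rcases Nat.lt_or_ge (32 * y ^ 2) h with hc | hc
  swap
  · calc h ^ (6 * K) ≤ (32 * y ^ 2) ^ (6 * K) := Nat.pow_le_pow_left hc _
      _ = 32 ^ (6 * K) * (y ^ K) ^ 12 := by
          rw [mul_pow, ← pow_mul, ← pow_mul]
          ring_nf
      _ ≤ 32 ^ (6 * K) * p ^ 12 := Nat.mul_le_mul_left _ (Nat.pow_le_pow_left hyK.le 12)
      _ ≤ Ct * p ^ (2 * K + 26) :=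
          Nat.mul_le_mul q3 (Nat.pow_le_pow_right hp0 (by omega))
  rcases Nat.lt_or_ge (h ^ 6) (C5 * y ^ 26 * p ^ 2) with hd | hd
  · calc h ^ (6 * K) = (h ^ 6) ^ K := by rw [pow_mul]
      _ ≤ (C5 * y ^ 26 * p ^ 2) ^ K := Nat.pow_le_pow_left hd.le K
      _ = C5 ^ K * (y ^ K) ^ 26 * (p ^ 2) ^ K := by
          have e1 : (y ^ 26) ^ K = (y ^ K) ^ 26 := by rw [← pow_mul, ← pow_mul, mul_comm]
          rw [mul_pow, mul_pow, e1]
      _ ≤ C5 ^ K * p ^ 26 * (p ^ 2) ^ K :=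
          Nat.mul_le_mul_right _ (Nat.mul_le_mul_left _ (Nat.pow_le_pow_left hyK.le 26))
      _ = C5 ^ K * p ^ (2 * K + 26) := by
          rw [← pow_mul, mul_assoc, ← pow_add, add_comm 26]
      _ ≤ Ct * p ^ (2 * K + 26) := Nat.mul_le_mul_right _ q4
  rcases Nat.lt_or_ge p (4 * y + 2) with he | he
  · refine hbd 18 ?_ q5
    have h4 : y * y ≤ y ^ K := by
      rw [← pow_two]
      exact Nat.pow_le_pow_right hy0 hK
    have h5 : y ≤ 4 := by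
      by_contra hlt
      have h6 : 5 * y ≤ y * y := Nat.mul_le_mul_right y (by omega)
      omega
    omega
  have hlog : (1 : ℝ) + Real.log h ≤ (2 * K + 1) * y := by
    have hy1' : (1 : ℝ) ≤ y := by exact_mod_cast hy0
    have hh0 : (0 : ℝ) < h := by exact_mod_cast h3
    have h4 : Real.log h ≤ Real.log p :=
      Real.log_le_log hh0 (by exact_mod_cast (by omega : h ≤ p))
    have h5 : Real.log p ≤ Real.log ((2 * y : ℝ) ^ K) :=
      Real.log_le_log (by exact_mod_cast hp0) (by exact_mod_cast hp2y)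
    rw [Real.log_pow] at h5
    have h6 : Real.log (2 * y : ℝ) ≤ 2 * y := Real.log_le_self (by positivity)
    have h7 : (K : ℝ) * Real.log (2 * y : ℝ) ≤ K * (2 * y) :=
      mul_le_mul_of_nonneg_left h6 (by positivity)
    nlinarith
  have hgood : ∀ d, 0 < d → d ≤ y → U p d ∈ HH p lam cm_lam := by
    refine good_range hy0 he (by rw [← hhdef]; exact ha) (by rw [← hhdef]; exact hp3)
      (by rw [← hhdef]; exact hc) ?_
    rw [← hhdef]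
    have hd' : ((C5 : ℝ) * (y : ℝ) ^ 26 * (p : ℝ) ^ 2) ≤ (h : ℝ) ^ 6 := by exact_mod_cast hd
    have hC5' : (C5 : ℝ) = 2 ^ 72 * (2 * K + 1) ^ 10 := by
      rw [hC5]
      push_cast
      ring
    refine le_trans ?_ hd'
    rw [hC5']
    have h4 : (0 : ℝ) ≤ 1 + Real.log h := by
      have : 0 ≤ Real.log (h : ℝ) := Real.log_natCast_nonneg h
      linarith
    have h5 : (1 + Real.log (h : ℝ)) ^ 10 ≤ ((2 * K + 1) * y) ^ 10 := pow_le_pow_left₀ h4 hlog 10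
    calc (2 : ℝ) ^ 72 * (y : ℝ) ^ 16 * (1 + Real.log (h : ℝ)) ^ 10 * (p : ℝ) ^ 2 =
          (1 + Real.log (h : ℝ)) ^ 10 * ((2 : ℝ) ^ 72 * (y : ℝ) ^ 16 * (p : ℝ) ^ 2) := by ring
      _ ≤ ((2 * K + 1) * y) ^ 10 * ((2 : ℝ) ^ 72 * (y : ℝ) ^ 16 * (p : ℝ) ^ 2) :=
          mul_le_mul_of_nonneg_right h5 (by positivity)
      _ = 2 ^ 72 * (2 * K + 1) ^ 10 * (y : ℝ) ^ 26 * (p : ℝ) ^ 2 := by
          rw [mul_pow]
          ring
  have hch : (Nat.primeCounting y).choose K ≤ h := by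
    rw [hhdef]
    exact card_ge_choose (by omega) hy0 hyK hgood
  have hpi : (Nat.primeCounting y + 1 - K) ^ K ≤ K.factorial * h := by
    have h4 := Nat.pow_sub_le_descFactorial (Nat.primeCounting y) K
    rw [Nat.descFactorial_eq_factorial_mul_choose] at h4
    exact h4.trans (Nat.mul_le_mul_left _ hch)
  have hyB : y < B := by
    by_contra hlt
    have h4 := hB y (by omega)
    have h5 : (C1 + 1) ^ K * y ^ (10 * K) ≤ C1 * y ^ (10 * K) := by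
      calc (C1 + 1) ^ K * y ^ (10 * K) = ((C1 + 1) * y ^ 10) ^ K := by
            rw [mul_pow, ← pow_mul]
        _ ≤ ((Nat.primeCounting y + 1 - K) ^ 11) ^ K := Nat.pow_le_pow_left h4 K
        _ = ((Nat.primeCounting y + 1 - K) ^ K) ^ 11 := by
            rw [← pow_mul, ← pow_mul, mul_comm 11 K]
        _ ≤ (K.factorial * h) ^ 11 := Nat.pow_le_pow_left hpi 11
        _ = K.factorial ^ 11 * h ^ 11 := mul_pow _ _ _
        _ ≤ K.factorial ^ 11 * (T ^ 17 * p ^ 10) := Nat.mul_le_mul_left _ h11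
        _ ≤ K.factorial ^ 11 * (T ^ 17 * ((2 * y) ^ K) ^ 10) :=
            Nat.mul_le_mul_left _ (Nat.mul_le_mul_left _ (Nat.pow_le_pow_left hp2y 10))
        _ = C1 * y ^ (10 * K) := by
            rw [hC1, ← pow_mul, mul_comm K 10, mul_pow]
            ring
    have h6 : (C1 + 1) ^ K ≤ C1 := Nat.le_of_mul_le_mul_right h5 (Nat.pow_pos hy0)
    have h7 : C1 + 1 ≤ (C1 + 1) ^ K := Nat.le_self_pow (by omega) _
    omega
  refine hbd ((2 * B) ^ K) ?_ q6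
  exact (by omega : h ≤ p).trans (hp2y.trans (Nat.pow_le_pow_left (by omega) K))

/-- the number of failing columns, natural exponents -/
theorem fail_third_K (K : ℕ) (hK : 2 ≤ K) : ∃ C : ℕ, ∀ p : ℕ, p.Prime →
    {k : ℕ | 1 ≤ k ∧ k < p ∧ ¬ Mixed p k p}.ncard ^ (6 * K) ≤ C * p ^ (2 * K + 26) := by
  obtain ⟨C, hC⟩ := stab_third K hK
  refine ⟨C + 7 ^ (6 * K), fun p hp => ?_⟩
  have hn : Fact (1 < p) := ⟨hp.one_lt⟩
  rcases Nat.lt_or_ge p 7 with h | h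
  · have h1 : {k : ℕ | 1 ≤ k ∧ k < p ∧ ¬ Mixed p k p}.ncard ≤ p := by
      have h2 : {k : ℕ | 1 ≤ k ∧ k < p ∧ ¬ Mixed p k p} ⊆ (Finset.range p : Set ℕ) := by
        intro k hk
        rw [Finset.mem_coe, Finset.mem_range]
        exact hk.2.1
      have h3 := Set.ncard_le_ncard h2 (Finset.finite_toSet _)
      rwa [Set.ncard_coe_finset, Finset.card_range] at h3
    calc {k : ℕ | 1 ≤ k ∧ k < p ∧ ¬ Mixed p k p}.ncard ^ (6 * K) ≤ 7 ^ (6 * K) :=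
          Nat.pow_le_pow_left (by omega) _
      _ ≤ 7 ^ (6 * K) * p ^ (2 * K + 26) := Nat.le_mul_of_pos_right _ (Nat.pow_pos hp.pos)
      _ ≤ (C + 7 ^ (6 * K)) * p ^ (2 * K + 26) := Nat.mul_le_mul_right _ (Nat.le_add_left _ _)
  · calc {k : ℕ | 1 ≤ k ∧ k < p ∧ ¬ Mixed p k p}.ncard ^ (6 * K) ≤
          (Nat.card (HH p lam cm_lam)) ^ (6 * K) := Nat.pow_le_pow_left (fail_le_card hp) _
      _ ≤ C * p ^ (2 * K + 26) := hC p hp h hn
      _ ≤ (C + 7 ^ (6 * K)) * p ^ (2 * K + 26) := Nat.mul_le_mul_right _ (Nat.le_add_right _ _)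

/-- the number of failing columns is `O (p ^ (1 / 3 + ε))` -/
theorem fail_third_eps (ε : ℝ) (hε : 0 < ε) : ∃ C : ℝ, ∀ p : ℕ, p.Prime →
    ({k : ℕ | 1 ≤ k ∧ k < p ∧ ¬ Mixed p k p}.ncard : ℝ) ≤ C * (p : ℝ) ^ (1 / 3 + ε) := by
  obtain ⟨K0, hK0⟩ := exists_nat_gt (5 / ε)
  obtain ⟨K, hKd⟩ : ∃ K, K = K0 + 2 := ⟨_, rfl⟩
  have hK2 : 2 ≤ K := by omega
  have hK : 5 / ε < K := by
    have h1 : (K0 : ℝ) ≤ K := by exact_mod_cast (by omega : K0 ≤ K)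
    linarith
  have hKpos : (0 : ℝ) < K := lt_trans (by positivity) hK
  obtain ⟨C, hC⟩ := fail_third_K K hK2
  refine ⟨(C : ℝ) ^ (1 / (6 * K : ℝ)), fun p hp => ?_⟩
  have hp1 : (1 : ℝ) ≤ p := by exact_mod_cast hp.one_lt.le
  have hp0 : (0 : ℝ) ≤ p := by linarith
  have h1 : (({k : ℕ | 1 ≤ k ∧ k < p ∧ ¬ Mixed p k p}.ncard : ℕ) : ℝ) ^ (6 * K) ≤
      (C : ℝ) * (p : ℝ) ^ (2 * K + 26) := by exact_mod_cast hC p hp
  have h2 : (({k : ℕ | 1 ≤ k ∧ k < p ∧ ¬ Mixed p k p}.ncard : ℕ) : ℝ) =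
      ((({k : ℕ | 1 ≤ k ∧ k < p ∧ ¬ Mixed p k p}.ncard : ℕ) : ℝ) ^ (6 * K)) ^ (1 / (6 * K : ℝ)) := by
    rw [← Real.rpow_natCast, ← Real.rpow_mul (by positivity)]
    have h3 : ((6 * K : ℕ) : ℝ) * (1 / (6 * K : ℝ)) = 1 := by
      push_cast
      field_simp
    rw [h3, Real.rpow_one]
  rw [h2]
  refine (Real.rpow_le_rpow (by positivity) h1 (by positivity)).trans ?_
  rw [Real.mul_rpow (by positivity) (by positivity)]
  refine mul_le_mul_of_nonneg_left ?_ (by positivity)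
  rw [← Real.rpow_natCast, ← Real.rpow_mul hp0]
  refine Real.rpow_le_rpow_of_exponent_le hp1 ?_
  have h4 : ((2 * K + 26 : ℕ) : ℝ) * (1 / (6 * K : ℝ)) = 1 / 3 + (13 / 3) / K := by
    push_cast
    field_simp
    ring
  rw [h4]
  have h5 : (13 / 3) / (K : ℝ) ≤ ε := by
    rw [div_le_iff₀ hKpos]
    have := (div_lt_iff₀ hε).1 hK
    linarith
  linarith

end Pool.Agent.Helper68.CO2
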